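import Pool.Agent.N784.HC.RayN
import Pool.Agent.N784.AD.Fam

/-! # The primitive Hecke characters of infinity type `n` of conductor dividing `𝔮` (helper784;
adapted from `AD.Fam`) -/

set_option autoImplicit false
set_option linter.unusedSectionVars false

open NumberField

namespace Pool.Agent.N784.HC

open Pool.Agent.Y773 (TPos VM cc)
open Pool.Agent.Y772.DK (NN NN_finite cc_mul)
open Pool.Agent.Y767 (Mq Mq_cop Mq_ne_bot Mq_cancel Cls cls cK bes_cls)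
open Pool.Agent.Y773.IQ (tM toM' ne_zero_of_cop cop_mono IM mem_IM sum_IM mem_NN
  sum_cc sq_cK sum_sq cop_of_norm dv dv_finite absNorm_pos')
open Pool.Agent.N784.AD (T1 T1_cop T1_one T1_tp pi1 pi1_coe D1 D0 D1_card D0_card hK cls_card_le
  SP prime_of_SP prs)

section

variable {K : Type} [Field K] [NumberField K] {n : (K →+* ℂ) → ℕ}

/-- the primitive Hecke characters of infinity type `n`, of conductor dividing `𝔮` and different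
from `1` -/
def FamN (n : (K →+* ℂ) → ℕ) (𝔮 : Ideal (𝓞 K)) : Set (Ideal (𝓞 K) →*₀ ℂ) :=
  {ψ | ∃ 𝔣 : Ideal (𝓞 K), 𝔣 ∣ 𝔮 ∧ 𝔣 ≠ ⊤ ∧ IsHecke K 𝔣 n ψ}

lemma FamN_ne_zero {𝔮 : Ideal (𝓞 K)} (htop : 𝔮 ≠ ⊤) {ψ : Ideal (𝓞 K) →*₀ ℂ} (h : ψ ∈ FamN n 𝔮)
    {𝔞 : Ideal (𝓞 K)} (h𝔞 : IsCoprime 𝔞 𝔮) : ψ 𝔞 ≠ 0 := by
  obtain ⟨𝔣, h1, h2, h3⟩ := h
  exact (h3.supp _ (Mq_ne_bot htop ⟨𝔞, h𝔞⟩)).mpr (cop_mono (Ideal.dvd_iff_le.mp h1) h𝔞)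

lemma tM_coe {𝔮 : Ideal (𝓞 K)} (htop : 𝔮 ≠ ⊤) {ψ : Ideal (𝓞 K) →*₀ ℂ} (h : ψ ∈ FamN n 𝔮)
    (x : Mq 𝔮) : ((tM 𝔮 ψ x : ℂˣ) : ℂ) = ψ (x : Ideal (𝓞 K)) := by
  have h1 : ∀ x : Mq 𝔮, ψ (x : Ideal (𝓞 K)) ≠ 0 := fun x => FamN_ne_zero htop h (Mq_cop x)
  unfold tM
  rw [dif_pos h1]
  rfl

lemma FamN_norm_le {𝔮 : Ideal (𝓞 K)} {ψ : Ideal (𝓞 K) →*₀ ℂ} (h : ψ ∈ FamN n 𝔮)
    (𝔞 : Ideal (𝓞 K)) : ‖ψ 𝔞‖ ≤ 1 := by
  obtain ⟨𝔣, h1, h2, h3⟩ := h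
  obtain ⟨e, he, hc, hmod⟩ := h3.modK h2
  exact hmod.norm_le_one 𝔞

/-- the characters modulo `𝔮` of type `n` -/
def Dn (n : (K →+* ℂ) → ℕ) {𝔮 : Ideal (𝓞 K)} (htop : 𝔮 ≠ ⊤) : Set (Mq 𝔮 →* ℂˣ) :=
  {F | ∀ x : T1 htop, F (pi1 htop x) = phT n htop x}

/-- those of conductor one -/
def Dn0 (n : (K →+* ℂ) → ℕ) (𝔮 : Ideal (𝓞 K)) : Set (Mq 𝔮 →* ℂˣ) :=
  {F | ∀ (x : 𝓞 K) (hx : IsCoprime (Ideal.span {x}) 𝔮), TPos K x →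
    ((F ⟨Ideal.span {x}, hx⟩ : ℂˣ) : ℂ) = ph n (x : K)}

lemma Dn_div {𝔮 : Ideal (𝓞 K)} {htop : 𝔮 ≠ ⊤} {F F₁ : Mq 𝔮 →* ℂˣ} (h : F ∈ Dn n htop)
    (h₁ : F₁ ∈ Dn n htop) : F * F₁⁻¹ ∈ D1 htop := by
  intro x
  rw [MonoidHom.mul_apply, MonoidHom.inv_apply, h x, h₁ x, mul_inv_cancel]

lemma Dn_mul {𝔮 : Ideal (𝓞 K)} {htop : 𝔮 ≠ ⊤} {F F₁ : Mq 𝔮 →* ℂˣ} (h : F ∈ D1 htop)
    (h₁ : F₁ ∈ Dn n htop) : F * F₁ ∈ Dn n htop := by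
  intro x
  rw [MonoidHom.mul_apply, h x, h₁ x, one_mul]

lemma Dn_eq {𝔮 : Ideal (𝓞 K)} {htop : 𝔮 ≠ ⊤} {F₁ : Mq 𝔮 →* ℂˣ}
    (h₁ : F₁ ∈ Dn n htop) : Dn n htop = (fun F => F * F₁) '' D1 htop := by
  ext F
  constructor
  · intro h
    refine ⟨F * F₁⁻¹, Dn_div h h₁, ?_⟩
    refine MonoidHom.ext fun x => ?_
    change F x * (F₁ x)⁻¹ * F₁ x = F x
    rw [inv_mul_cancel_right]
  · rintro ⟨G, hG, rfl⟩
    exact Dn_mul hG h₁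

lemma Dn_card {𝔮 : Ideal (𝓞 K)} (hbot : 𝔮 ≠ ⊥) (htop : 𝔮 ≠ ⊤) {F₁ : Mq 𝔮 →* ℂˣ}
    (h₁ : F₁ ∈ Dn n htop) :
    (Dn n htop).Finite ∧ (Dn n htop).ncard = Nat.card (Cls (pi1 htop)) := by
  obtain ⟨h1, h2⟩ := D1_card hbot htop
  rw [Dn_eq h₁]
  exact ⟨h1.image _, by rw [Set.ncard_image_of_injective _ (mul_left_injective F₁), h2]⟩

lemma Dn_card_le {𝔮 : Ideal (𝓞 K)} (hbot : 𝔮 ≠ ⊥) (htop : 𝔮 ≠ ⊤) :
    (Dn n htop).Finite ∧ (Dn n htop).ncard ≤ Nat.card (Cls (pi1 htop)) := by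
  rcases (Dn n htop).eq_empty_or_nonempty with h | ⟨F₁, h₁⟩
  · rw [h]
    exact ⟨Set.finite_empty, by simp⟩
  · obtain ⟨h1, h2⟩ := Dn_card hbot htop h₁
    exact ⟨h1, h2.le⟩

lemma Dn0_sub {𝔮 : Ideal (𝓞 K)} (htop : 𝔮 ≠ ⊤) : Dn0 n 𝔮 ⊆ Dn n htop := fun F hF x => by
  ext
  rw [phT_coe, ← hF _ (T1_cop x) (T1_tp x)]
  rfl

lemma Dn0_card {𝔮 : Ideal (𝓞 K)} (hbot : 𝔮 ≠ ⊥) (htop : 𝔮 ≠ ⊤) : (Dn0 n 𝔮).ncard ≤ hK K := by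
  rcases (Dn0 n 𝔮).eq_empty_or_nonempty with h | ⟨F₁, h₁⟩
  · rw [h]; simp
  · have h2 : Set.MapsTo (fun F => F * F₁⁻¹) (Dn0 n 𝔮) (D0 𝔮) := by
      intro F hF x hx hp
      change F ⟨Ideal.span {x}, hx⟩ * (F₁ ⟨Ideal.span {x}, hx⟩)⁻¹ = 1
      have h3 : F ⟨Ideal.span {x}, hx⟩ = F₁ ⟨Ideal.span {x}, hx⟩ := by
        ext
        rw [hF x hx hp, h₁ x hx hp]
      rw [h3, mul_inv_cancel]
    refine (Set.ncard_le_ncard_of_injOn _ h2 ((mul_left_injective F₁⁻¹).injOn) ?_).trans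
      (D0_card hbot htop)
    exact (D1_card hbot htop).1.subset (Pool.Agent.N784.AD.D0_sub htop)

lemma tM_mem {𝔮 : Ideal (𝓞 K)} (htop : 𝔮 ≠ ⊤)
    {ψ : Ideal (𝓞 K) →*₀ ℂ} (h : ψ ∈ FamN n 𝔮) : tM 𝔮 ψ ∈ Dn n htop := by
  intro x
  ext
  rw [tM_coe htop h, pi1_coe, phT_coe]
  obtain ⟨𝔣, h1, h2, h3⟩ := h
  exact h3.ray x (ne_zero_of_cop htop (T1_cop x)) (Ideal.dvd_iff_le.mp h1 (T1_one x)) (T1_tp x)

lemma tM_inj {𝔮 : Ideal (𝓞 K)} (hbot : 𝔮 ≠ ⊥) (htop : 𝔮 ≠ ⊤) :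
    Set.InjOn (tM 𝔮) (FamN n 𝔮) := by
  intro ψ h ψ' h' he
  have he' : ∀ 𝔞, IsCoprime 𝔞 𝔮 → ψ 𝔞 = ψ' 𝔞 := by
    intro 𝔞 h𝔞
    have h1 := tM_coe htop h ⟨𝔞, h𝔞⟩
    have h2 := tM_coe htop h' ⟨𝔞, h𝔞⟩
    rw [he] at h1
    exact h1.symm.trans h2
  obtain ⟨𝔣, h1, h2, h3⟩ := h
  obtain ⟨𝔣', h1', h2', h3'⟩ := h'
  exact (prim_unique hbot h3 h3' h1 h1' h2 h2' he').2

lemma FamN_finite {𝔮 : Ideal (𝓞 K)} (hbot : 𝔮 ≠ ⊥) (htop : 𝔮 ≠ ⊤) :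
    (FamN n 𝔮).Finite ∧ (FamN n 𝔮).ncard ≤ Nat.card (Cls (pi1 htop)) := by
  obtain ⟨h1, h2⟩ := Dn_card_le (n := n) hbot htop
  have hm : Set.MapsTo (tM 𝔮) (FamN n 𝔮) (Dn n htop) := fun ψ h => tM_mem htop h
  refine ⟨Set.Finite.of_injOn hm (tM_inj hbot htop) h1, ?_⟩
  refine le_trans ?_ h2
  exact Set.ncard_le_ncard_of_injOn _ hm (tM_inj hbot htop) h1

lemma FamN_lower {𝔮 : Ideal (𝓞 K)} (hbot : 𝔮 ≠ ⊥) (htop : 𝔮 ≠ ⊤) (hne : (Dn n htop).Nonempty) :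
    Nat.card (Cls (pi1 htop)) ≤ (FamN n 𝔮).ncard + hK K := by
  obtain ⟨F₁, h₁⟩ := hne
  obtain ⟨h1, h2⟩ := Dn_card hbot htop h₁
  have hsub : Dn n htop ⊆ tM 𝔮 '' FamN n 𝔮 ∪ Dn0 n 𝔮 := by
    intro F hF
    rcases exists_prim hbot htop F hF with h | ⟨𝔣, ψ, h3, h4, h5, h6⟩
    · exact Or.inr h
    · left
      have hψ : ψ ∈ FamN n 𝔮 := ⟨𝔣, h3, h4, h5⟩
      refine ⟨ψ, hψ, ?_⟩
      ext x
      rw [tM_coe htop hψ, h6]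
  have hf := (FamN_finite (n := n) hbot htop).1
  rw [← h2]
  refine (Set.ncard_le_ncard hsub ((hf.image _).union (h1.subset (Dn0_sub htop)))).trans ?_
  refine (Set.ncard_union_le _ _).trans ?_
  exact Nat.add_le_add (Set.ncard_image_le hf) (Dn0_card hbot htop)

/-- the number of the primitive characters of conductor `𝔣` -/
lemma prim_card {𝔣 : Ideal (𝓞 K)} (hbot : 𝔣 ≠ ⊥) (htop : 𝔣 ≠ ⊤) :
    {ψ : Ideal (𝓞 K) →*₀ ℂ | IsHecke K 𝔣 n ψ}.Finite ∧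
    {ψ : Ideal (𝓞 K) →*₀ ℂ | IsHecke K 𝔣 n ψ}.ncard ≤ Ideal.absNorm 𝔣 * hK K := by
  obtain ⟨h1, h2⟩ := FamN_finite (n := n) hbot htop
  have hsub : {ψ : Ideal (𝓞 K) →*₀ ℂ | IsHecke K 𝔣 n ψ} ⊆ FamN n 𝔣 := fun ψ h =>
    ⟨𝔣, dvd_refl _, htop, h⟩
  refine ⟨h1.subset hsub, (Set.ncard_le_ncard hsub h1).trans (h2.trans
    ((cls_card_le hbot htop).2.trans (Nat.mul_le_mul_right _
      (Pool.Agent.Y773.IQ.card_units_le_norm hbot))))⟩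

open Classical in
/-- the conductor of a member of the family -/
noncomputable def cdN (n : (K →+* ℂ) → ℕ) (𝔮 : Ideal (𝓞 K)) (ψ : Ideal (𝓞 K) →*₀ ℂ) :
    Ideal (𝓞 K) :=
  if h : ψ ∈ FamN n 𝔮 then h.choose else ⊤

lemma cdN_spec {𝔮 : Ideal (𝓞 K)} {ψ : Ideal (𝓞 K) →*₀ ℂ} (h : ψ ∈ FamN n 𝔮) :
    cdN n 𝔮 ψ ∣ 𝔮 ∧ cdN n 𝔮 ψ ≠ ⊤ ∧ IsHecke K (cdN n 𝔮 ψ) n ψ := by
  unfold cdN
  rw [dif_pos h]
  exact h.choose_spec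

/-- few characters have a small conductor -/
lemma small_cond {𝔮 : Ideal (𝓞 K)} (hbot : 𝔮 ≠ ⊥)
    (Z : ℝ) (hZ : 0 ≤ Z) (S : Finset (Ideal (𝓞 K) →*₀ ℂ))
    (hS : ∀ ψ ∈ S, ψ ∈ FamN n 𝔮 ∧ (Ideal.absNorm (cdN n 𝔮 ψ) : ℝ) ≤ Z) :
    (S.card : ℝ) ≤ (dv 𝔮).ncard * (Z * hK K) := by
  classical
  have h1 := Finset.card_eq_sum_card_image (cdN n 𝔮) S
  rw [h1]
  push_cast
  have h2 : ∀ 𝔡 ∈ S.image (cdN n 𝔮), ((S.filter (fun ψ => cdN n 𝔮 ψ = 𝔡)).card : ℝ) ≤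
      Z * hK K := by
    intro 𝔡 h𝔡
    obtain ⟨ψ, hψ, rfl⟩ := Finset.mem_image.mp h𝔡
    obtain ⟨h3, h4⟩ := hS ψ hψ
    obtain ⟨h5, h6, h7⟩ := cdN_spec h3
    obtain ⟨h8, h9⟩ := prim_card (n := n) h7.ne_bot h6
    have h10 : (S.filter (fun ψ' => cdN n 𝔮 ψ' = cdN n 𝔮 ψ)).card ≤
        Ideal.absNorm (cdN n 𝔮 ψ) * hK K := by
      refine le_trans ?_ h9
      rw [Set.ncard_eq_toFinset_card _ h8]
      refine Finset.card_le_card fun ψ' hψ' => ?_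
      obtain ⟨h11, h12⟩ := Finset.mem_filter.mp hψ'
      rw [Set.Finite.mem_toFinset]
      have := (cdN_spec (hS ψ' h11).1).2.2
      rw [h12] at this
      exact this
    have h13 : ((S.filter (fun ψ' => cdN n 𝔮 ψ' = cdN n 𝔮 ψ)).card : ℝ) ≤
        (Ideal.absNorm (cdN n 𝔮 ψ) : ℝ) * hK K := by exact_mod_cast h10
    exact h13.trans (mul_le_mul_of_nonneg_right h4 (Nat.cast_nonneg _))
  refine (Finset.sum_le_sum h2).trans ?_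
  rw [Finset.sum_const, nsmul_eq_mul]
  refine mul_le_mul_of_nonneg_right ?_ (by positivity)
  have h3 : (S.image (cdN n 𝔮)).card ≤ (dv 𝔮).ncard := by
    rw [Set.ncard_eq_toFinset_card _ (dv_finite hbot)]
    refine Finset.card_le_card fun 𝔡 h𝔡 => ?_
    obtain ⟨ψ, hψ, rfl⟩ := Finset.mem_image.mp h𝔡
    rw [Set.Finite.mem_toFinset]
    exact (cdN_spec (hS ψ hψ).1).1
  exact_mod_cast h3

/-- **the large sieve** for the characters of a given type -/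
theorem lsN {𝔮 : Ideal (𝓞 K)} (hbot : 𝔮 ≠ ⊥) (htop : 𝔮 ≠ ⊤) (F₀ : Mq 𝔮 →* ℂˣ)
    (hF₀ : ∀ x, ‖((F₀ x : ℂˣ) : ℂ)‖ ≤ 1) (Y : Finset (Mq 𝔮 →* ℂˣ))
    (hY : ∀ F ∈ Y, ∀ x, F (pi1 htop x) = F₀ (pi1 htop x)) (S : Finset (Mq 𝔮)) (a : Mq 𝔮 → ℂ) :
    ∑ F ∈ Y, ‖∑ x ∈ S, a x * ((F x : ℂˣ) : ℂ)‖ ^ 2 ≤
      Nat.card (Cls (pi1 htop)) * (∑ x ∈ S, ‖a x‖ ^ 2 + ∑ p ∈ prs htop S, ‖a p.1‖ * ‖a p.2‖) := by
  classical
  have := (cls_card_le hbot htop).1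
  have := Fintype.ofFinite (Cls (pi1 htop))
  have := Mq_cancel htop
  have h := bes_cls Pool.Agent.Y287.HC.t_bes (pi1 htop) F₀ Y hY S a
  refine h.trans ?_
  rw [Nat.card_eq_fintype_card]
  refine mul_le_mul_of_nonneg_left ?_ (Nat.cast_nonneg _)
  have h1 : ∀ c : Cls (pi1 htop), ‖∑ x ∈ S.filter (fun x => cls (pi1 htop) x = c),
      a x * ((F₀ x : ℂˣ) : ℂ)‖ ^ 2 ≤
      ∑ x ∈ S.filter (fun x => cls (pi1 htop) x = c),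
        ∑ y ∈ S.filter (fun x => cls (pi1 htop) x = c), ‖a x‖ * ‖a y‖ := by
    intro c
    have h2 : ‖∑ x ∈ S.filter (fun x => cls (pi1 htop) x = c),
      a x * ((F₀ x : ℂˣ) : ℂ)‖ ≤ ∑ x ∈ S.filter (fun x => cls (pi1 htop) x = c), ‖a x‖ := by
      refine (norm_sum_le _ _).trans (Finset.sum_le_sum fun x _ => ?_)
      rw [norm_mul]
      exact mul_le_of_le_one_right (norm_nonneg _) (hF₀ x)
    refine (pow_le_pow_left₀ (norm_nonneg _) h2 2).trans (le_of_eq ?_)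
    rw [sq, Finset.sum_mul_sum]
  refine (Finset.sum_le_sum fun c _ => h1 c).trans ?_
  have h2 : ∑ c : Cls (pi1 htop), ∑ x ∈ S.filter (fun x => cls (pi1 htop) x = c),
        ∑ y ∈ S.filter (fun x => cls (pi1 htop) x = c), ‖a x‖ * ‖a y‖ =
      ∑ x ∈ S, ∑ y ∈ S, (if cls (pi1 htop) x = cls (pi1 htop) y then ‖a x‖ * ‖a y‖ else 0) := by
    rw [← Finset.sum_fiberwise S (cls (pi1 htop)) (fun x => ∑ y ∈ S,
      (if cls (pi1 htop) x = cls (pi1 htop) y then ‖a x‖ * ‖a y‖ else 0))]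
    refine Finset.sum_congr rfl fun c _ => Finset.sum_congr rfl fun x hx => ?_
    rw [Finset.sum_filter]
    refine Finset.sum_congr rfl fun y _ => ?_
    rw [(Finset.mem_filter.mp hx).2]
    by_cases h3 : cls (pi1 htop) y = c
    · rw [if_pos h3, if_pos h3.symm]
    · rw [if_neg h3, if_neg (fun h4 => h3 h4.symm)]
  rw [h2]
  have h3 : ∑ x ∈ S, ∑ y ∈ S, (if cls (pi1 htop) x = cls (pi1 htop) y then ‖a x‖ * ‖a y‖ else 0) =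
      ∑ x ∈ S, ‖a x‖ ^ 2 + ∑ x ∈ S, ∑ y ∈ S,
        (if x ≠ y ∧ cls (pi1 htop) x = cls (pi1 htop) y then ‖a x‖ * ‖a y‖ else 0) := by
    rw [← Finset.sum_add_distrib]
    refine Finset.sum_congr rfl fun x hx => ?_
    have h4 : ‖a x‖ ^ 2 = ∑ y ∈ S, (if x = y then ‖a x‖ * ‖a y‖ else 0) := by
      rw [Finset.sum_ite_eq, if_pos hx, sq]
    rw [h4, ← Finset.sum_add_distrib]
    refine Finset.sum_congr rfl fun y _ => ?_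
    by_cases h5 : x = y
    · subst h5
      simp
    · rw [if_neg h5, zero_add]
      by_cases h6 : cls (pi1 htop) x = cls (pi1 htop) y
      · rw [if_pos h6, if_pos ⟨h5, h6⟩]
      · rw [if_neg h6, if_neg (fun h7 => h6 h7.2)]
  rw [h3, ← Finset.sum_product']
  unfold prs
  rw [Finset.sum_filter]

open Classical in
/-- **the large sieve for the family**, sums over the prime ideals of degree one -/
theorem ls_famN {𝔮 : Ideal (𝓞 K)} (hbot : 𝔮 ≠ ⊥) (htop : 𝔮 ≠ ⊤) (Y : Finset (Ideal (𝓞 K) →*₀ ℂ))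
    (hY : ∀ ψ ∈ Y, ψ ∈ FamN n 𝔮) (M : ℕ) (b : ℕ → ℂ) :
    ∑ ψ ∈ Y, ‖∑ m ∈ Finset.Icc 1 M, b m * (if m.Prime ∧ Nat.Coprime m (Ideal.absNorm 𝔮) then
      cc ψ m * (ArithmeticFunction.vonMangoldt m : ℂ) else 0)‖ ^ 2 ≤
      Nat.card (Cls (pi1 htop)) * (∑ m ∈ Finset.Icc 1 M,
          ‖b m‖ ^ 2 * (ArithmeticFunction.vonMangoldt m * ‖cK K m‖) ^ 2 +
        ∑ p ∈ prs htop (SP 𝔮 M),
          (‖b (Ideal.absNorm (p.1 : Ideal (𝓞 K)))‖ * Real.log (Ideal.absNorm (p.1 : Ideal (𝓞 K)))) *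
          (‖b (Ideal.absNorm (p.2 : Ideal (𝓞 K)))‖ *
            Real.log (Ideal.absNorm (p.2 : Ideal (𝓞 K))))) := by
  obtain ⟨b', hb'⟩ : ∃ b' : ℕ → ℂ, ∀ m, b' m =
    if m.Prime ∧ Nat.Coprime m (Ideal.absNorm 𝔮) then b m else 0 := ⟨_, fun _ => rfl⟩
  obtain ⟨a, ha⟩ : ∃ a : Mq 𝔮 → ℂ, ∀ x, a x =
    b' (Ideal.absNorm (x : Ideal (𝓞 K))) * (VM (x : Ideal (𝓞 K)) : ℂ) := ⟨_, fun _ => rfl⟩
  have h1 : ∀ ψ ∈ Y, ∑ m ∈ Finset.Icc 1 M, b m *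
      (if m.Prime ∧ Nat.Coprime m (Ideal.absNorm 𝔮) then
      cc ψ m * (ArithmeticFunction.vonMangoldt m : ℂ) else 0) =
      ∑ x ∈ SP 𝔮 M, a x * ((tM 𝔮 ψ x : ℂˣ) : ℂ) := by
    intro ψ hψ
    have h2 : ∑ x ∈ SP 𝔮 M, a x * ((tM 𝔮 ψ x : ℂˣ) : ℂ) = ∑ x ∈ SP 𝔮 M,
        (fun 𝔞 : Ideal (𝓞 K) => (b' (Ideal.absNorm 𝔞) * (VM 𝔞 : ℂ)) * ψ 𝔞) (x : Ideal (𝓞 K)) := by
      refine Finset.sum_congr rfl fun x _ => ?_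
      rw [tM_coe htop (hY ψ hψ), ha]
    rw [h2]
    unfold SP
    refine Eq.trans ?_ (Finset.sum_subtype_eq_sum_filter
      (fun 𝔞 : Ideal (𝓞 K) => (b' (Ideal.absNorm 𝔞) * (VM 𝔞 : ℂ)) * ψ 𝔞)).symm
    rw [Finset.filter_filter, Finset.sum_filter_of_ne, ← sum_cc]
    · refine Finset.sum_congr rfl fun m _ => ?_
      rw [hb']
      split_ifs <;> simp
    · intro 𝔞 _ hne
      have h3 : (Ideal.absNorm 𝔞).Prime ∧ Nat.Coprime (Ideal.absNorm 𝔞) (Ideal.absNorm 𝔮) := by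
        by_contra hcon
        apply hne
        rw [hb', if_neg hcon]
        ring
      exact ⟨h3, cop_of_norm h3.2⟩
  rw [Finset.sum_congr rfl fun ψ hψ => by rw [h1 ψ hψ]]
  have hinj : Set.InjOn (tM 𝔮) Y := fun ψ hψ ψ' hψ' h =>
    tM_inj hbot htop (hY ψ hψ) (hY ψ' hψ') h
  rcases Y.eq_empty_or_nonempty with hYe | ⟨ψ₁, hψ₁⟩
  · subst hYe
    rw [Finset.sum_empty]
    have h8 : ∀ m : ℕ, 0 ≤ Real.log m := fun m => Real.log_natCast_nonneg _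
    refine mul_nonneg (Nat.cast_nonneg _) (add_nonneg
      (Finset.sum_nonneg fun m _ => mul_nonneg (sq_nonneg _) (sq_nonneg _))
      (Finset.sum_nonneg fun p _ => mul_nonneg (mul_nonneg (norm_nonneg _) (h8 _))
        (mul_nonneg (norm_nonneg _) (h8 _))))
  have h3 := lsN hbot htop (tM 𝔮 ψ₁) (fun x => by
    rw [tM_coe htop (hY ψ₁ hψ₁)]
    exact FamN_norm_le (hY ψ₁ hψ₁) _) (Y.image (tM 𝔮)) (by
    intro F hF x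
    obtain ⟨ψ, hψ, rfl⟩ := Finset.mem_image.mp hF
    rw [tM_mem htop (hY ψ hψ) x, tM_mem htop (hY ψ₁ hψ₁) x]) (SP 𝔮 M) a
  rw [Finset.sum_image hinj] at h3
  refine h3.trans (mul_le_mul_of_nonneg_left (add_le_add ?_ ?_) (Nat.cast_nonneg _))
  · calc ∑ x ∈ SP 𝔮 M, ‖a x‖ ^ 2
        = ∑ 𝔞 ∈ ((IM K M).filter (fun 𝔞 => (Ideal.absNorm 𝔞).Prime ∧
            Nat.Coprime (Ideal.absNorm 𝔞) (Ideal.absNorm 𝔮))).filter (fun 𝔞 => 𝔞 ∈ Mq 𝔮),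
            ‖b' (Ideal.absNorm 𝔞) * (VM 𝔞 : ℂ)‖ ^ 2 := by
          unfold SP
          rw [← Finset.sum_subtype_eq_sum_filter
            (fun 𝔞 : Ideal (𝓞 K) => ‖b' (Ideal.absNorm 𝔞) * (VM 𝔞 : ℂ)‖ ^ 2)]
          exact Finset.sum_congr rfl fun x _ => by rw [ha]
      _ ≤ ∑ 𝔞 ∈ IM K M, ‖b' (Ideal.absNorm 𝔞) * (VM 𝔞 : ℂ)‖ ^ 2 :=
          Finset.sum_le_sum_of_subset_of_nonneg
            ((Finset.filter_subset _ _).trans (Finset.filter_subset _ _)) (fun _ _ _ => sq_nonneg _)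
      _ ≤ ∑ m ∈ Finset.Icc 1 M, ‖b' m‖ ^ 2 *
            (ArithmeticFunction.vonMangoldt m * ‖cK K m‖) ^ 2 := sum_sq M b'
      _ ≤ _ := by
          refine Finset.sum_le_sum fun m _ => mul_le_mul_of_nonneg_right ?_ (sq_nonneg _)
          rw [hb']
          split_ifs
          · exact le_rfl
          · rw [norm_zero]
            exact (by norm_num : (0 : ℝ) ^ 2 ≤ 0).trans (sq_nonneg _)
  · have h5 : ∀ x ∈ SP 𝔮 M, ‖a x‖ ≤ ‖b (Ideal.absNorm (x : Ideal (𝓞 K)))‖ *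
        Real.log (Ideal.absNorm (x : Ideal (𝓞 K))) := by
      intro x _
      rw [ha, norm_mul, Complex.norm_real,
        Real.norm_of_nonneg (Pool.Agent.Y772.DK.VM_nonneg _)]
      refine mul_le_mul ?_ (Pool.Agent.Y772.DK.VM_le (Mq_ne_bot htop x))
        (Pool.Agent.Y772.DK.VM_nonneg _) (norm_nonneg _)
      rw [hb']
      split_ifs
      · exact le_rfl
      · rw [norm_zero]; exact norm_nonneg _
    refine Finset.sum_le_sum fun p hp => ?_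
    unfold prs at hp
    rw [Finset.mem_filter, Finset.mem_product] at hp
    exact mul_le_mul (h5 _ hp.1.1) (h5 _ hp.1.2) (norm_nonneg _)
      ((norm_nonneg _).trans (h5 _ hp.1.1))

end

end Pool.Agent.N784.HC
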