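import Pool.Agent.N784.HC.Good

/-! # The L-functions of the Hecke characters of a given infinity type satisfy `GoodG`, uniformly
(helper784; adapted from `Pool.Agent.Y773.IQ.Good`) -/

set_option autoImplicit false
set_option linter.unusedSectionVars false

open NumberField Complex Filter Topology MeasureTheory

namespace Pool.Agent.N784.HC

open Pool.Agent.Y773 (TPos LI VM cc)
open Pool.Agent.Y773.G (IsPrimChar cj)

section

variable (K : Type) [Field K] [NumberField K]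

theorem goodH {n : (K →+* ℂ) → ℕ} (hn : CTyp n) (hn0 : n ≠ 0) :
    ∃ A : ℝ, 1 ≤ A ∧ ∀ (𝔣 : Ideal (𝓞 K)) (ψ : Ideal (𝓞 K) →*₀ ℂ), 𝔣 ≠ ⊤ →
    IsHecke K 𝔣 n ψ → ∃ F : ℂ → ℂ, Differentiable ℂ F ∧
      (∀ s : ℂ, 1 < s.re → F s = LI ψ s) ∧
    W388.LV.GoodG (Module.finrank ℚ K) A ((Ideal.absNorm 𝔣 : ℝ) ^ (1 / (Module.finrank ℚ K : ℝ)))
      F (fun m => cc ψ m * (ArithmeticFunction.vonMangoldt m : ℂ)) := by
  obtain ⟨A₀, hA₀, hD⟩ := Pool.Agent.Y772.DK.t_dirK K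
  have hdN : (1 : ℝ) ≤ (Ideal.absNorm (differentIdeal ℤ (𝓞 K)) : ℝ) := by
    have h1 : Ideal.absNorm (differentIdeal ℤ (𝓞 K)) ≠ 0 := by
      rw [Ne, Ideal.absNorm_eq_zero_iff]
      exact differentIdeal_ne_bot
    exact_mod_cast Nat.one_le_iff_ne_zero.mpr h1
  obtain ⟨A₁, hA₁, hfe⟩ := t_fem (K →+* ℂ)
    ((Ideal.absNorm (differentIdeal ℤ (𝓞 K)) : ℝ)) hdN A₀ hA₀
    ((∑ ψ, (n ψ : ℝ)) + 3) (by positivity)
  refine ⟨max A₀ A₁, le_max_of_le_left hA₀, fun 𝔣 ψ htop h => ?_⟩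
  set d : ℝ := (Module.finrank ℚ K : ℝ) with hd
  have hd0 : 0 < d := by
    have := Module.finrank_pos (R := ℚ) (M := K)
    rw [hd]; exact_mod_cast this
  have hq1 : (1 : ℝ) ≤ (Ideal.absNorm 𝔣 : ℝ) := by
    have : Ideal.absNorm 𝔣 ≠ 0 := by
      rw [Ne, Ideal.absNorm_eq_zero_iff]; exact h.ne_bot
    exact_mod_cast Nat.one_le_iff_ne_zero.mpr this
  set Q : ℝ := (Ideal.absNorm 𝔣 : ℝ) ^ (1 / d) with hQ
  have hQ1 : 1 ≤ Q := Real.one_le_rpow hq1 (by positivity)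
  have hcard : (Fintype.card (K →+* ℂ) : ℝ) = d := by rw [Pool.Agent.Y773.G.card_emb]
  have hQn : Q ^ Fintype.card (K →+* ℂ) = (Ideal.absNorm 𝔣 : ℝ) := by
    rw [← Real.rpow_natCast, hcard, hQ, ← Real.rpow_mul (by linarith),
      one_div_mul_cancel hd0.ne', Real.rpow_one]
  obtain ⟨e, he, hc, hmod⟩ := h.modK htop
  have hprimK := h.primK htop (e := e) hc
  have htyp := hn.fty he hc
  have hinf := inf_fty hn hn0 e
  have hψ1 : ∀ 𝔞, ‖ψ 𝔞‖ ≤ 1 := hmod.norm_le_one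
  obtain ⟨d1, d2, d3, d4, d5, d6, d7, -, d8, d9, -⟩ := hD ψ hψ1
  obtain ⟨F, hFE, hFL⟩ := fe_prim htyp hinf.ne hprimK hmod
  have hF := hFE.diff
  have hRe : ((Ideal.absNorm 𝔣 * Ideal.absNorm (differentIdeal ℤ (𝓞 K)) : ℕ) : ℝ) =
      (Ideal.absNorm (differentIdeal ℤ (𝓞 K)) : ℝ) *
        Q ^ Fintype.card (K →+* ℂ) := by
    rw [hQn]; push_cast; ring
  rw [hRe] at hFE
  have hnz : ∀ s : ℂ, 1 ≤ s.re → F s ≠ 0 := by
    intro s h1
    rcases lt_or_eq_of_le h1 with h3 | h3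
    · rw [hFL _ h3]
      exact d3 _ h3
    · exact nv_K htyp hinf hmod h3.symm (hF.analyticAt s) (Eventually.of_forall hFL)
  obtain ⟨f1, f2, f3, f4⟩ := hfe Q hQ1 (ex (fty n e)) F
    (fun w => ⟨ex_nonneg _ _, ex_le K he w⟩) hFE
    (fun s h1 => by
      rw [hFL _ (by linarith)]
      exact d5 _ h1) (fun s h1 _ => hnz s h1)
  rw [hcard] at f4
  have hA0 : (0 : ℝ) < A₁ := by linarith
  have hAm : 0 < max A₀ A₁ := lt_max_of_lt_left (by linarith)
  have hle : ∀ m : ℕ, ‖(cc ψ m * (ArithmeticFunction.vonMangoldt m : ℂ))‖ *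
      (m : ℝ) ^ (-(7 / 4) : ℝ) ≤
      ArithmeticFunction.vonMangoldt m * ‖cc ψ m‖ * (m : ℝ) ^ (-(3 / 2) : ℝ) := by
    intro m
    rcases Nat.eq_zero_or_pos m with rfl | hm
    · simp
    rw [norm_mul, Complex.norm_real,
      Real.norm_of_nonneg ArithmeticFunction.vonMangoldt_nonneg, mul_comm ‖cc ψ m‖]
    refine mul_le_mul_of_nonneg_left ?_
      (mul_nonneg ArithmeticFunction.vonMangoldt_nonneg (norm_nonneg _))
    exact Real.rpow_le_rpow_of_exponent_le (by exact_mod_cast hm) (by norm_num)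
  refine ⟨F, hF, hFL, ?_, ?_, ?_, ?_, ?_, ?_, ?_, ?_, ?_, ?_, ?_⟩
  · intro s _
    exact hF.analyticAt s
  · intro s h1 h2 h3
    refine (f1 s h1 h2 h3).trans ?_
    have h4 : 1 ≤ Q * s.im := by nlinarith
    exact mul_le_mul (le_max_right _ _) (Real.rpow_le_rpow_of_exponent_le h4 (le_max_right _ _))
      (by positivity) hAm.le
  · intro t _
    have h1 : (1 : ℝ) < ((⟨2, t⟩ : ℂ)).re := by norm_num
    rw [hFL _ h1]
    refine le_trans ?_ (d6 _ (by norm_num))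
    exact inv_anti₀ (by linarith) (le_max_left _ _)
  · exact fun s h1 _ => hnz s h1
  · exact f2
  · exact f3
  · intro m hm
    have : ArithmeticFunction.vonMangoldt m = 0 := by
      interval_cases m <;> simp
    rw [this]; simp
  · refine Summable.of_nonneg_of_le (fun m => by positivity) hle d8
  · refine (Summable.tsum_le_tsum hle (Summable.of_nonneg_of_le (fun m => by positivity) hle d8)
      d8).trans (d9.trans (le_max_left _ _))
  · intro s h1 h2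
    have h5 : deriv F s = deriv (LI ψ) s := by
      refine Filter.EventuallyEq.deriv_eq ?_
      have h6 : {z : ℂ | 1 < z.re} ∈ 𝓝 s :=
        (isOpen_lt continuous_const Complex.continuous_re).mem_nhds h1
      filter_upwards [h6] with z hz
      exact hFL z hz
    rw [h5, hFL _ h1, d4 _ h1]
  · intro s h1 h2 h3 h4
    exact (f4 s h1 h2 h3 h4).trans (le_max_right _ _)

end

end Pool.Agent.N784.HC
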