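import Pool.Agent.Y773.HG.FeK
import Pool.Agent.Y767.HC.Defs

/-! # Periodicity of `Ψ_𝔟` and the Gauss sums, for a general archimedean character `κ`
(arbitrary signature; adapted from `Pool.Agent.Y767.HC.Chr`) -/

set_option autoImplicit false
set_option linter.unusedSectionVars false

open NumberField Complex Filter Topology Set

namespace Pool.Agent.N784.HC

open Pool.Agent.Y773 (FT FT_eq_SQ PerI SQ SQ_congr SQ_const_mul SQ_inter SQ_mono SQ_scale SQ_translate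
  absNorm_span_nat ee ee_add ee_eq_one_iff ee_scale ee_sub_eq exists_pow qt qt_eq qt_eq_bot trace_dvd)
open Pool.Agent.Y773.G

section

variable {K : Type} [Field K] [NumberField K]

/-- a unitary character of the multiplicative group, trivial on the natural numbers -/
structure Kap (κ : K → ℂ) : Prop where
  mul : ∀ x y : K, x ≠ 0 → y ≠ 0 → κ (x * y) = κ x * κ y
  norm : ∀ x : K, x ≠ 0 → ‖κ x‖ = 1
  le : ∀ x : K, ‖κ x‖ ≤ 1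
  nat : ∀ k : ℕ, 0 < k → κ (k : K) = 1

/-- `Ψ_𝔟(x) = η(x 𝔟⁻¹) κ(x)` for `x ∈ 𝔟`, and `0` otherwise -/
noncomputable def Pk (η : Ideal (𝓞 K) →*₀ ℂ) (κ : K → ℂ) (𝔟 : Ideal (𝓞 K)) (x : 𝓞 K) : ℂ :=
  η (qt 𝔟 x) * κ (x : K)

/-- `η` is a character modulo `𝔪` with archimedean part `κ⁻¹` -/
structure IsModK (𝔪 : Ideal (𝓞 K)) (κ : K → ℂ) (η : Ideal (𝓞 K) →*₀ ℂ) : Prop where
  kap : Kap κ
  ne_bot : 𝔪 ≠ ⊥
  ne_top : 𝔪 ≠ ⊤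
  supp : ∀ 𝔞 : Ideal (𝓞 K), η 𝔞 ≠ 0 ↔ IsCoprime 𝔞 𝔪
  sig : ∀ x : 𝓞 K, x ≠ 0 → x - 1 ∈ 𝔪 → η (Ideal.span {x}) * κ (x : K) = 1

variable {𝔪 : Ideal (𝓞 K)} {κ : K → ℂ} {η : Ideal (𝓞 K) →*₀ ℂ}

lemma Kap.conj_mul (h : Kap κ) {x : K} (hx : x ≠ 0) : (starRingEnd ℂ) (κ x) * κ x = 1 := by
  rw [mul_comm, Complex.mul_conj, Complex.normSq_eq_norm_sq, h.norm x hx]
  simp

lemma Kap.ne_zero (h : Kap κ) {x : K} (hx : x ≠ 0) : κ x ≠ 0 := by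
  rw [← norm_ne_zero_iff, h.norm x hx]
  exact one_ne_zero

lemma IsModK.ne_bot_of_coprime (h : IsModK 𝔪 κ η) {𝔞 : Ideal (𝓞 K)} (h𝔞 : IsCoprime 𝔞 𝔪) :
    𝔞 ≠ ⊥ := by
  rintro rfl
  rw [Ideal.isCoprime_iff_sup_eq, bot_sup_eq] at h𝔞
  exact h.ne_top h𝔞

lemma IsModK.norm_eq_one (h : IsModK 𝔪 κ η) {𝔞 : Ideal (𝓞 K)} (h𝔞 : IsCoprime 𝔞 𝔪) :
    ‖η 𝔞‖ = 1 := by
  obtain ⟨k, x, hk, hx0, hx1, hx⟩ := exists_pow h.ne_bot (h.ne_bot_of_coprime h𝔞) h𝔞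
  have h1 := h.sig x hx0 hx1
  rw [← hx, map_pow] at h1
  have h2 := congrArg norm h1
  rw [norm_mul, norm_pow, h.kap.norm _ (by exact_mod_cast hx0), mul_one, norm_one] at h2
  exact (pow_eq_one_iff_of_nonneg (norm_nonneg _) hk.ne').mp h2

lemma IsModK.norm_le_one (h : IsModK 𝔪 κ η) (𝔞 : Ideal (𝓞 K)) : ‖η 𝔞‖ ≤ 1 := by
  by_cases h0 : IsCoprime 𝔞 𝔪
  · exact (h.norm_eq_one h0).le
  · have : η 𝔞 = 0 := by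
      by_contra h1
      exact h0 ((h.supp 𝔞).mp h1)
    rw [this, norm_zero]; norm_num

lemma Pk_of_eq {𝔟 𝔞 : Ideal (𝓞 K)} (h𝔟 : 𝔟 ≠ ⊥) {x : 𝓞 K} (h : 𝔞 * 𝔟 = Ideal.span {x}) :
    Pk η κ 𝔟 x = η 𝔞 * κ (x : K) := by
  unfold Pk
  rw [qt_eq h𝔟 h]

lemma Pk_of_notMem {𝔟 : Ideal (𝓞 K)} {x : 𝓞 K} (h : x ∉ 𝔟) : Pk η κ 𝔟 x = 0 := by
  unfold Pk
  rw [qt_eq_bot (fun h1 => h (mem_iff_exists_mul.mpr h1)), ← Ideal.zero_eq_bot, map_zero, zero_mul]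

lemma Pk_zero {𝔟 : Ideal (𝓞 K)} (h𝔟 : 𝔟 ≠ ⊥) : Pk η κ 𝔟 0 = 0 := by
  have h1 : (⊥ : Ideal (𝓞 K)) * 𝔟 = Ideal.span {(0 : 𝓞 K)} := by
    rw [Ideal.bot_mul, Ideal.span_singleton_eq_bot.mpr rfl]
  rw [Pk_of_eq h𝔟 h1, ← Ideal.zero_eq_bot, map_zero, zero_mul]

lemma norm_Pk_le (hκ : Kap κ) (h : ∀ 𝔞, ‖η 𝔞‖ ≤ 1) (𝔟 : Ideal (𝓞 K)) (x : 𝓞 K) :
    ‖Pk η κ 𝔟 x‖ ≤ 1 := by
  unfold Pk
  rw [norm_mul]
  exact mul_le_one₀ (h _) (norm_nonneg _) (hκ.le _)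

lemma Pk_unit_smul (hκ : Kap κ) {𝔟 : Ideal (𝓞 K)} (h𝔟 : 𝔟 ≠ ⊥) (u : (𝓞 K)ˣ) (x : 𝓞 K) :
    Pk η κ 𝔟 (u * x) = κ ((u : 𝓞 K) : K) * Pk η κ 𝔟 x := by
  by_cases hx : x = 0
  · rw [hx, mul_zero, Pk_zero h𝔟, mul_zero]
  have h1 : Ideal.span {(u : 𝓞 K) * x} = Ideal.span {x} := by
    rw [← Ideal.span_singleton_mul_span_singleton, Ideal.span_singleton_eq_top.mpr u.isUnit,
      ← Ideal.one_eq_top, one_mul]
  have h2 : qt 𝔟 ((u : 𝓞 K) * x) = qt 𝔟 x := by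
    unfold qt
    rw [h1]
  unfold Pk
  rw [h2]
  push_cast
  rw [hκ.mul _ _ (by simp) (by exact_mod_cast hx)]
  ring

/-- the coprime part of periodicity -/
lemma IsModK.per_aux (h : IsModK 𝔪 κ η) {𝔟 𝔞 𝔞' : Ideal (𝓞 K)} (h𝔟 : 𝔟 ≠ ⊥) {x y : 𝓞 K}
    (hx : 𝔞 * 𝔟 = Ideal.span {x}) (hy : 𝔞' * 𝔟 = Ideal.span {y}) (hxy : x - y ∈ 𝔟 * 𝔪)
    (h1 : IsCoprime 𝔞' 𝔪) (h2 : IsCoprime 𝔞 𝔪) :
    η 𝔞 * κ (x : K) = η 𝔞' * κ (y : K) := by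
  have h𝔞'0 := h.ne_bot_of_coprime h1
  have h𝔞0 := h.ne_bot_of_coprime h2
  have hx0 : x ≠ 0 := by
    rintro rfl
    rw [Ideal.span_singleton_eq_bot.mpr rfl] at hx
    exact (mul_ne_zero h𝔞0 h𝔟) hx
  have hy0 : y ≠ 0 := by
    rintro rfl
    rw [Ideal.span_singleton_eq_bot.mpr rfl] at hy
    exact (mul_ne_zero h𝔞'0 h𝔟) hy
  obtain ⟨k, a, hk, ha0, ha1, ha⟩ := exists_pow h.ne_bot h𝔞'0 h1
  set 𝔠 := 𝔞' ^ (k - 1) with h𝔠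
  have hk1 : 𝔞' * 𝔠 = Ideal.span {a} := by
    rw [h𝔠, ← ha, ← pow_succ', Nat.sub_add_cancel hk]
  have h𝔠c : IsCoprime 𝔠 𝔪 := IsCoprime.pow_left h1
  have h𝔠0 : 𝔠 ≠ ⊥ := h.ne_bot_of_coprime h𝔠c
  -- X with X y = x a
  have hid : (𝔞 * 𝔠) * Ideal.span {y} = Ideal.span {x * a} := by
    rw [← Ideal.span_singleton_mul_span_singleton, ← hx, ← hk1, ← hy]; ring
  have hmem : x * a ∈ Ideal.span {y} := mem_iff_exists_mul.mpr ⟨_, hid⟩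
  obtain ⟨X, hX⟩ := Ideal.mem_span_singleton'.mp hmem
  have hXid : Ideal.span {X} = 𝔞 * 𝔠 := by
    have h5 : Ideal.span {X} * Ideal.span {y} = (𝔞 * 𝔠) * Ideal.span {y} := by
      rw [hid, Ideal.span_singleton_mul_span_singleton, hX]
    exact mul_right_cancel₀ (by
      rw [Ne, Ideal.zero_eq_bot, Ideal.span_singleton_eq_bot]; exact hy0) h5
  have hX0 : X ≠ 0 := by
    rintro rfl
    rw [zero_mul] at hX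
    exact mul_ne_zero hx0 ha0 hX.symm
  have hX1 : X - 1 ∈ 𝔪 := by
    have h6 : X - a ∈ 𝔠 * 𝔪 := by
      have h7 : (X - a) * y ∈ Ideal.span {y} * (𝔠 * 𝔪) := by
        have h8 : (X - a) * y = a * (x - y) := by rw [sub_mul, hX]; ring
        rw [h8, ← hy]
        have h9 : a * (x - y) ∈ Ideal.span {a} * (𝔟 * 𝔪) :=
          Ideal.mul_mem_mul (Ideal.mem_span_singleton_self a) hxy
        rw [← hk1] at h9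
        have h10 : 𝔞' * 𝔠 * (𝔟 * 𝔪) = 𝔞' * 𝔟 * (𝔠 * 𝔪) := by ring
        rwa [h10] at h9
      rw [Ideal.mem_span_singleton_mul] at h7
      obtain ⟨z, hz, hz2⟩ := h7
      have : z = X - a := by
        have h11 : y * z = y * (X - a) := by rw [hz2]; ring
        exact mul_left_cancel₀ hy0 h11
      rwa [← this]
    have h12 : X - a ∈ 𝔪 := Ideal.mul_le_right (I := 𝔠) (J := 𝔪) h6
    have : X - 1 = (X - a) + (a - 1) := by ring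
    rw [this]
    exact 𝔪.add_mem h12 ha1
  have e1 := h.sig X hX0 hX1
  have e2 := h.sig a ha0 ha1
  rw [hXid, map_mul] at e1
  rw [← hk1, map_mul] at e2
  have hη𝔠 : η 𝔠 ≠ 0 := (h.supp 𝔠).mpr h𝔠c
  have hx0' : (x : K) ≠ 0 := by exact_mod_cast hx0
  have hy0' : (y : K) ≠ 0 := by exact_mod_cast hy0
  have hX0' : (X : K) ≠ 0 := by exact_mod_cast hX0
  have ha0' : (a : K) ≠ 0 := by exact_mod_cast ha0
  have e3 : κ (X : K) * κ (y : K) = κ (x : K) * κ (a : K) := by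
    rw [← h.kap.mul _ _ hX0' hy0', ← h.kap.mul _ _ hx0' ha0']
    congr 1
    exact_mod_cast congrArg (algebraMap (𝓞 K) K) hX
  calc η 𝔞 * κ (x : K) = η 𝔞 * κ (x : K) * (η 𝔞' * η 𝔠 * κ (a : K)) := by rw [e2, mul_one]
    _ = η 𝔞' * (η 𝔞 * η 𝔠) * (κ (x : K) * κ (a : K)) := by ring
    _ = η 𝔞' * (η 𝔞 * η 𝔠) * (κ (X : K) * κ (y : K)) := by rw [e3]
    _ = η 𝔞' * κ (y : K) * (η 𝔞 * η 𝔠 * κ (X : K)) := by ring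
    _ = _ := by rw [e1, mul_one]

lemma IsModK.per (h : IsModK 𝔪 κ η) {𝔟 : Ideal (𝓞 K)} (h𝔟 : 𝔟 ≠ ⊥) {x y : 𝓞 K}
    (hxy : x - y ∈ 𝔟 * 𝔪) : Pk η κ 𝔟 x = Pk η κ 𝔟 y := by
  have hxy' : x - y ∈ 𝔟 := Ideal.mul_le_left (I := 𝔟) (J := 𝔪) hxy
  by_cases hx : x ∈ 𝔟
  · have hy : y ∈ 𝔟 := by
      have : y = x - (x - y) := by ring
      rw [this]
      exact 𝔟.sub_mem hx hxy'
    obtain ⟨𝔞, h𝔞⟩ := mem_iff_exists_mul.mp hx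
    obtain ⟨𝔞', h𝔞'⟩ := mem_iff_exists_mul.mp hy
    rw [Pk_of_eq h𝔟 h𝔞, Pk_of_eq h𝔟 h𝔞']
    have hyx : y - x ∈ 𝔟 * 𝔪 := by
      have : y - x = -(x - y) := by ring
      rw [this]
      exact Submodule.neg_mem _ hxy
    by_cases hc : IsCoprime 𝔞 𝔪
    · exact h.per_aux h𝔟 h𝔞 h𝔞' hxy (coprime_iff_of_sub_mem h𝔟 h𝔞 h𝔞' hxy hc) hc
    · have hc' : ¬ IsCoprime 𝔞' 𝔪 := fun h1 => hc (coprime_iff_of_sub_mem h𝔟 h𝔞' h𝔞 hyx h1)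
      have e1 : η 𝔞 = 0 := by
        by_contra h1
        exact hc ((h.supp 𝔞).mp h1)
      have e2 : η 𝔞' = 0 := by
        by_contra h1
        exact hc' ((h.supp 𝔞').mp h1)
      rw [e1, e2, zero_mul, zero_mul]
  · have hy : y ∉ 𝔟 := fun hy => hx (by
      have : x = y + (x - y) := by ring
      rw [this]
      exact 𝔟.add_mem hy hxy')
    rw [Pk_of_notMem hx, Pk_of_notMem hy]

lemma Pk_scale (hκ : Kap κ) {𝔟₁ 𝔟₂ : Ideal (𝓞 K)} {a b : 𝓞 K} (ha : a ≠ 0) (hb : b ≠ 0)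
    (h1 : 𝔟₁ ≠ ⊥)
    (h2 : 𝔟₂ ≠ ⊥) (hab : Ideal.span {a} * 𝔟₁ = Ideal.span {b} * 𝔟₂) {x y : 𝓞 K} (hx : x ∈ 𝔟₁)
    (hy : y ∈ 𝔟₂) (hxy : a * x = b * y) :
    Pk η κ 𝔟₁ x * κ (a : K) = Pk η κ 𝔟₂ y * κ (b : K) := by
  by_cases hx0 : x = 0
  · have hy0 : y = 0 := by
      rw [hx0, mul_zero] at hxy
      exact (mul_eq_zero.mp hxy.symm).resolve_left hb
    rw [hx0, hy0, Pk_zero h1, Pk_zero h2, zero_mul, zero_mul]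
  have hy0 : y ≠ 0 := by
    rintro rfl
    rw [mul_zero] at hxy
    rcases mul_eq_zero.mp hxy with h | h
    · exact ha h
    · exact hx0 h
  obtain ⟨𝔞, h𝔞⟩ := mem_iff_exists_mul.mp hx
  obtain ⟨𝔞', h𝔞'⟩ := mem_iff_exists_mul.mp hy
  rw [Pk_of_eq h1 h𝔞, Pk_of_eq h2 h𝔞']
  have h3 : 𝔞 = 𝔞' := by
    have h4 : 𝔞 * (Ideal.span {b} * 𝔟₂) = 𝔞' * (Ideal.span {b} * 𝔟₂) := by
      calc _ = Ideal.span {a} * (𝔞 * 𝔟₁) := by rw [← hab]; ring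
        _ = Ideal.span {b} * (𝔞' * 𝔟₂) := by
          rw [h𝔞, h𝔞', Ideal.span_singleton_mul_span_singleton,
            Ideal.span_singleton_mul_span_singleton, hxy]
        _ = _ := by ring
    refine mul_right_cancel₀ (mul_ne_zero ?_ h2) h4
    rw [Ne, Ideal.zero_eq_bot, Ideal.span_singleton_eq_bot]; exact hb
  have hx' : (x : K) ≠ 0 := by exact_mod_cast hx0
  have hy' : (y : K) ≠ 0 := by exact_mod_cast hy0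
  have ha' : (a : K) ≠ 0 := by exact_mod_cast ha
  have hb' : (b : K) ≠ 0 := by exact_mod_cast hb
  rw [h3, mul_assoc, mul_assoc, ← hκ.mul _ _ hx' ha', ← hκ.mul _ _ hy' hb']
  congr 2
  have := congrArg (algebraMap (𝓞 K) K) hxy
  push_cast at this
  rw [mul_comm, mul_comm (y : K)]
  exact_mod_cast this

lemma Pk_mul {𝔟 𝔤 : Ideal (𝓞 K)} (h1 : 𝔟 ≠ ⊥) (h2 : 𝔤 ≠ ⊥) {x : 𝓞 K} (hx : x ∈ 𝔟 * 𝔤) :
    Pk η κ 𝔟 x = η 𝔤 * Pk η κ (𝔟 * 𝔤) x := by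
  obtain ⟨𝔞, h𝔞⟩ := mem_iff_exists_mul.mp hx
  have h3 : (𝔞 * 𝔤) * 𝔟 = Ideal.span {x} := by rw [← h𝔞]; ring
  rw [Pk_of_eq h1 h3, Pk_of_eq (mul_ne_zero h1 h2) h𝔞, map_mul]
  ring

lemma IsModK.perI (h : IsModK 𝔪 κ η) {𝔟 : Ideal (𝓞 K)} (h𝔟 : 𝔟 ≠ ⊥) :
    PerI (𝔟 * 𝔪) (Pk η κ 𝔟) := fun _ _ hxy => h.per h𝔟 hxy

/-- multiplication by an ideal prime to the modulus -/
lemma IsModK.SQ_mul (h : IsModK 𝔪 κ η) {𝔟 𝔤 : Ideal (𝓞 K)} (h1 : 𝔟 ≠ ⊥) (h2 : IsCoprime 𝔤 𝔪)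
    {φ : 𝓞 K → ℂ} (hφ : PerI (𝔟 * 𝔪) φ) :
    SQ (𝔟 * 𝔪) (fun x => Pk η κ 𝔟 x * φ x) =
      η 𝔤 * SQ (𝔟 * 𝔤 * 𝔪) (fun x => Pk η κ (𝔟 * 𝔤) x * φ x) := by
  have h𝔤 := h.ne_bot_of_coprime h2
  rw [← SQ_inter (𝔟 := 𝔟) (𝔪 := 𝔪) (𝔤 := 𝔤) h2 (f := fun x => Pk η κ 𝔟 x * φ x)
    (g := fun x => η 𝔤 * (Pk η κ (𝔟 * 𝔤) x * φ x))]
  · unfold SQ
    have hne : 𝔟 * 𝔤 * 𝔪 ≠ ⊥ := mul_ne_zero (mul_ne_zero h1 h𝔤) h.ne_bot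
    have : Finite (𝓞 K ⧸ (𝔟 * 𝔤 * 𝔪)) := Ideal.finiteQuotientOfFreeOfNeBot _ hne
    rw [mul_finsum]
  · intro x y hxy
    change Pk η κ 𝔟 x * φ x = Pk η κ 𝔟 y * φ y
    rw [h.perI h1 x y hxy, hφ x y hxy]
  · intro x hx
    change Pk η κ 𝔟 x * φ x = 0
    rw [Pk_of_notMem hx, zero_mul]
  · intro x hx
    change η 𝔤 * (Pk η κ (𝔟 * 𝔤) x * φ x) = Pk η κ 𝔟 x * φ x
    rw [Pk_mul h1 h𝔤 hx]
    ring
  · intro x hx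
    change η 𝔤 * (Pk η κ (𝔟 * 𝔤) x * φ x) = 0
    rw [Pk_of_notMem hx, zero_mul, mul_zero]

/-- the sum over `𝔟/𝔟𝔣` in terms of the reference sum -/
lemma gauss_copk {𝔣 : Ideal (𝓞 K)} {ψ : Ideal (𝓞 K) →*₀ ℂ}
    (h : IsModK 𝔣 κ ψ) {𝔤₀ : Ideal (𝓞 K)} (h𝔤₀ne : 𝔤₀ ≠ ⊥) {E : ℕ} (hE0 : 0 < E)
    (h𝔤₀ : 𝔤₀ * (𝔣 * differentIdeal ℤ (𝓞 K)) = Ideal.span {(E : 𝓞 K)})
    {k : ℕ} (hk0 : 0 < k) {𝔟 𝔟' 𝔠 : Ideal (𝓞 K)} (h𝔟 : 𝔟 ≠ ⊥) (h𝔟' : 𝔟' ≠ ⊥)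
    (hid : 𝔟' * (𝔟 * 𝔣 * differentIdeal ℤ (𝓞 K)) = Ideal.span {(k : 𝓞 K)}) {x : 𝓞 K}
    (h𝔠 : 𝔠 * 𝔟' = Ideal.span {x}) (hcop : IsCoprime 𝔠 𝔣) (hφ₀ : PerI (𝔤₀ * 𝔣) (ee E))
    (hφ : PerI (𝔟 * 𝔣) fun r => ee k (x * r)) :
    κ (x : K) * (ψ 𝔠 * SQ (𝔟 * 𝔣) (fun r => Pk ψ κ 𝔟 r * ee k (x * r))) =
      SQ (𝔤₀ * 𝔣) (fun y => Pk ψ κ 𝔤₀ y * ee E y) := by
  have h𝔠ne := h.ne_bot_of_coprime hcop
  have hf : PerI (𝔟 * 𝔣) (fun r => Pk ψ κ 𝔟 r * ee k (x * r)) := by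
    intro r r' hrr
    have e1 : ee k (x * r) = ee k (x * r') := hφ r r' hrr
    change Pk ψ κ 𝔟 r * ee k (x * r) = Pk ψ κ 𝔟 r' * ee k (x * r')
    rw [h.perI h𝔟 r r' hrr, e1]
  have hx0 : x ≠ 0 := by
    rintro rfl
    rw [Ideal.span_singleton_eq_bot.mpr rfl] at h𝔠
    exact mul_ne_zero h𝔠ne h𝔟' h𝔠
  have hxK : (x : K) ≠ 0 := by exact_mod_cast hx0
  have hgc : 𝔤₀ * 𝔠 ≠ ⊥ := mul_ne_zero h𝔤₀ne h𝔠ne
  have s1 := h.SQ_mul h𝔤₀ne hcop hφ₀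
  have hle : 𝔤₀ * 𝔠 * 𝔣 ≤ 𝔤₀ * 𝔣 := by
    have : 𝔤₀ * 𝔠 * 𝔣 = 𝔠 * (𝔤₀ * 𝔣) := by ring
    rw [this]
    exact Ideal.mul_le_right
  have hPg : PerI (𝔤₀ * 𝔠 * 𝔣) (fun y => (Pk ψ κ (𝔤₀ * 𝔠) y * ee E y)) := by
    intro r r' hrr
    change (Pk ψ κ (𝔤₀ * 𝔠) r * ee E r) = (Pk ψ κ (𝔤₀ * 𝔠) r' * ee E r')
    rw [h.perI hgc r r' hrr, hφ₀ r r' (hle hrr)]
  have hf' : PerI (𝔟 * 𝔣) (fun r => κ (x : K) * (Pk ψ κ 𝔟 r * ee k (x * r))) := by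
    intro r r' hrr
    exact congrArg (κ (x : K) * ·) (hf r r' hrr)
  have hEx0 : (E : 𝓞 K) * x ≠ 0 := mul_ne_zero (by exact_mod_cast hE0.ne') hx0
  have hk1 : (k : 𝓞 K) ≠ 0 := by exact_mod_cast hk0.ne'
  have hab : Ideal.span {(E : 𝓞 K) * x} * 𝔟 = Ideal.span {(k : 𝓞 K)} * (𝔤₀ * 𝔠) := by
    rw [← Ideal.span_singleton_mul_span_singleton, ← h𝔠, ← h𝔤₀, ← hid]
    ring
  have hEK : (E : K) ≠ 0 := by exact_mod_cast hE0.ne'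
  have e2 : κ (((E : 𝓞 K) * x : 𝓞 K) : K) = κ (x : K) := by
    have e3 : (((E : 𝓞 K) * x : 𝓞 K) : K) = (E : K) * (x : K) := by
      refine (map_mul (algebraMap (𝓞 K) K) _ _).trans ?_
      rw [map_natCast]
    rw [e3, h.kap.mul _ _ hEK hxK, h.kap.nat E hE0, one_mul]
  have e4 : κ (((k : ℕ) : 𝓞 K) : K) = 1 := by
    have e5 : (((k : ℕ) : 𝓞 K) : K) = (k : K) := map_natCast (algebraMap (𝓞 K) K) k
    rw [e5, h.kap.nat k hk0]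
  have hbf : 𝔟 * 𝔣 ≠ ⊥ := mul_ne_zero h𝔟 h.ne_bot
  have s2 : SQ (𝔟 * 𝔣) (fun r => κ (x : K) * (Pk ψ κ 𝔟 r * ee k (x * r))) =
      SQ (𝔤₀ * 𝔠 * 𝔣) (fun y => (Pk ψ κ (𝔤₀ * 𝔠) y * ee E y)) := by
    refine SQ_scale hEx0 hk1 hab hf' hPg ?_ ?_ ?_
    · intro r hr
      change κ (x : K) * (Pk ψ κ 𝔟 r * ee k (x * r)) = 0
      rw [Pk_of_notMem hr, zero_mul, mul_zero]
    · intro r hr
      change (Pk ψ κ (𝔤₀ * 𝔠) r * ee E r) = 0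
      rw [Pk_of_notMem hr, zero_mul]
    · intro r hr y hy hry
      change κ (x : K) * (Pk ψ κ 𝔟 r * ee k (x * r)) = (Pk ψ κ (𝔤₀ * 𝔠) y * ee E y)
      have e1 := Pk_scale (η := ψ) h.kap hEx0 hk1 h𝔟 hgc hab hr hy hry
      rw [e2, e4, mul_one] at e1
      have e7 : ee k (x * r) = ee E y := ee_scale hE0 hk0 (by rw [← mul_assoc]; exact hry)
      rw [← e1, e7]
      ring
  rw [SQ_const_mul hbf] at s2
  rw [s1, ← s2]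
  ring

/-- primitivity -/
def PrimK (𝔣 : Ideal (𝓞 K)) (κ : K → ℂ) (ψ : Ideal (𝓞 K) →*₀ ℂ) : Prop :=
  ∀ 𝔤 : Ideal (𝓞 K), 𝔤 ∣ 𝔣 → 𝔤 ≠ 𝔣 → ∃ x : 𝓞 K, x - 1 ∈ 𝔤 ∧ IsCoprime (Ideal.span {x}) 𝔣 ∧
    ψ (Ideal.span {x}) * κ (x : K) ≠ 1

theorem gauss_maink (𝔣 : Ideal (𝓞 K)) (ψ : Ideal (𝓞 K) →*₀ ℂ) (κ : K → ℂ)
    (hp : PrimK 𝔣 κ ψ) (h : IsModK 𝔣 κ ψ) :
    ∃ τ : ℂ, ∀ (𝔟 𝔟' : Ideal (𝓞 K)) (m D : ℕ), 0 < m → 0 < D →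
      𝔟' * (𝔟 * 𝔣 * differentIdeal ℤ (𝓞 K)) = Ideal.span {((m * D : ℕ) : 𝓞 K)} →
      (m : 𝓞 K) ∈ 𝔟 * 𝔣 → (D : 𝓞 K) ∈ differentIdeal ℤ (𝓞 K) → ∀ x : 𝓞 K,
        FT D m (Pk ψ κ 𝔟) x = τ * ((m : ℂ) ^ (Module.finrank ℚ K) /
          ((Ideal.absNorm 𝔟 : ℂ) * (Ideal.absNorm 𝔣 : ℂ))) * (starRingEnd ℂ) (Pk ψ κ 𝔟' x) := by
  have h𝔡 : differentIdeal ℤ (𝓞 K) ≠ ⊥ := differentIdeal_ne_bot
  have h𝔣𝔡 : 𝔣 * differentIdeal ℤ (𝓞 K) ≠ ⊥ := mul_ne_zero h.ne_bot h𝔡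
  -- the reference datum
  set E : ℕ := Ideal.absNorm (𝔣 * differentIdeal ℤ (𝓞 K)) with hE
  have hE0 : 0 < E := Nat.pos_of_ne_zero (fun h1 => h𝔣𝔡 (Ideal.absNorm_eq_zero_iff.mp h1))
  have hEmem : (E : 𝓞 K) ∈ 𝔣 * differentIdeal ℤ (𝓞 K) := Ideal.absNorm_mem _
  obtain ⟨𝔤₀, h𝔤₀⟩ := mem_iff_exists_mul.mp hEmem
  have h𝔤₀ne : 𝔤₀ ≠ ⊥ := by
    rintro rfl
    rw [Ideal.bot_mul] at h𝔤₀
    have := (Ideal.span_singleton_eq_bot.mp h𝔤₀.symm)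
    exact hE0.ne' (by exact_mod_cast this)
  have hφ₀ : PerI (𝔤₀ * 𝔣) (ee E) := by
    intro x y hxy
    refine ee_sub_eq hE0 (trace_dvd fun δ hδ => ?_)
    rw [← h𝔤₀, ← mul_assoc]
    exact Ideal.mul_mem_mul hxy hδ
  refine ⟨SQ (𝔤₀ * 𝔣) (fun y => Pk ψ κ 𝔤₀ y * ee E y), ?_⟩
  intro 𝔟 𝔟' m D hm hD hid hm𝔟 hD𝔡 x
  set k : ℕ := m * D with hk
  have hk0 : 0 < k := Nat.mul_pos hm hD
  have hkne : Ideal.span {(k : 𝓞 K)} ≠ ⊥ := span_m_ne_bot hk0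
  have h𝔟 : 𝔟 ≠ ⊥ := by
    rintro rfl
    rw [Ideal.bot_mul, Ideal.bot_mul, Ideal.mul_bot] at hid
    exact hkne hid.symm
  have h𝔟' : 𝔟' ≠ ⊥ := by
    rintro rfl
    rw [Ideal.bot_mul] at hid
    exact hkne hid.symm
  have h𝔟𝔣 : 𝔟 * 𝔣 ≠ ⊥ := mul_ne_zero h𝔟 h.ne_bot
  have hmne : Ideal.span {(m : 𝓞 K)} ≠ ⊥ := span_m_ne_bot hm
  have hmle : Ideal.span {(m : 𝓞 K)} ≤ 𝔟 * 𝔣 := (Ideal.span_singleton_le_iff_mem _).mpr hm𝔟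
  have hper := h.perI h𝔟
  have hNb : (Ideal.absNorm 𝔟 : ℂ) ≠ 0 := by
    exact_mod_cast (fun h1 => h𝔟 (Ideal.absNorm_eq_zero_iff.mp h1))
  have hNf : (Ideal.absNorm 𝔣 : ℂ) ≠ 0 := by
    exact_mod_cast (fun h1 => h.ne_bot (Ideal.absNorm_eq_zero_iff.mp h1))
  by_cases hx : x ∈ 𝔟'
  swap
  · -- `x` is not in `𝔟'`
    rw [Pk_of_notMem hx, map_zero, mul_zero]
    by_cases hcond : ∀ r : 𝓞 K, (D : ℤ) ∣ Algebra.trace ℤ (𝓞 K) (x * r)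
    swap
    · unfold FT
      rw [if_neg hcond]
    rw [FT_eq_SQ hcond]
    have hexz : ∃ z ∈ 𝔟 * 𝔣, ¬ ((k : ℤ) ∣ Algebra.trace ℤ (𝓞 K) (x * z)) := by
      by_contra hcon
      push Not at hcon
      apply hx
      have h1 : Ideal.span {x} * (𝔟 * 𝔣 * differentIdeal ℤ (𝓞 K)) ≤
          𝔟' * (𝔟 * 𝔣 * differentIdeal ℤ (𝓞 K)) := by
        rw [hid, ← mul_assoc, Ideal.mul_le]
        intro w hw δ hδ
        obtain ⟨z, hz, rfl⟩ := Ideal.mem_span_singleton_mul.mp hw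
        refine trace_dvd_conv hk0 (fun o => ?_) hδ
        rw [mul_assoc]
        exact hcon _ (Ideal.mul_mem_right _ _ hz)
      have h2 : 𝔟' ∣ Ideal.span {x} := by
        have h3 := Ideal.dvd_iff_le.mpr h1
        exact (mul_dvd_mul_iff_right (mul_ne_zero h𝔟𝔣 h𝔡)).mp h3
      exact (Ideal.dvd_span_singleton).mp h2
    obtain ⟨z, hz, hz2⟩ := hexz
    have hPer : PerI (Ideal.span {(m : 𝓞 K)}) (fun r => Pk ψ κ 𝔟 r * ee k (x * r)) := by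
      intro r r' hrr
      have e1 := hper r r' (hmle hrr)
      have e2 : ee k (x * r) = ee k (x * r') := by
        refine ee_sub_eq hk0 ?_
        obtain ⟨t, ht⟩ := Ideal.mem_span_singleton'.mp hrr
        have e3 : x * r - x * r' = (m : ℤ) • (x * t) := by
          rw [← mul_sub, ← ht, zsmul_eq_mul]
          push_cast
          ring
        rw [e3, map_smul, hk]
        push_cast
        rw [smul_eq_mul]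
        exact mul_dvd_mul_left _ (hcond t)
      simp only [e1, e2]
    have hS := SQ_translate hPer z
    have hne1 : ee k (x * z) ≠ 1 := fun h1 => hz2 ((ee_eq_one_iff hk0 _).mp h1)
    have e4 : SQ (Ideal.span {(m : 𝓞 K)}) (fun r => Pk ψ κ 𝔟 (r + z) * ee k (x * (r + z))) =
        ee k (x * z) * SQ (Ideal.span {(m : 𝓞 K)}) (fun r => Pk ψ κ 𝔟 r * ee k (x * r)) := by
      rw [← SQ_const_mul hmne]
      refine SQ_congr fun r => ?_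
      have e5 : Pk ψ κ 𝔟 (r + z) = Pk ψ κ 𝔟 r := hper _ _ (by rwa [add_sub_cancel_left])
      rw [e5, mul_add, ee_add]
      ring
    have e6 : (1 - ee k (x * z)) *
        SQ (Ideal.span {(m : 𝓞 K)}) (fun r => Pk ψ κ 𝔟 r * ee k (x * r)) = 0 := by
      have := e4.symm.trans hS
      linear_combination -this
    rcases mul_eq_zero.mp e6 with h7 | h7
    · exact absurd (sub_eq_zero.mp h7).symm hne1
    · exact h7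
  -- `x ∈ 𝔟'`
  have htr : ∀ z ∈ 𝔟 * 𝔣, (k : ℤ) ∣ Algebra.trace ℤ (𝓞 K) (x * z) := by
    intro z hz
    refine trace_dvd fun δ hδ => ?_
    have e0 : x * z * δ = x * (z * δ) := mul_assoc _ _ _
    rw [← hid, e0]
    exact Ideal.mul_mem_mul hx (Ideal.mul_mem_mul hz hδ)
  have hcond : ∀ r : 𝓞 K, (D : ℤ) ∣ Algebra.trace ℤ (𝓞 K) (x * r) := by
    intro r
    have h1 := htr (m * r) (Ideal.mul_mem_right _ _ hm𝔟)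
    have e3 : x * (m * r) = (m : ℤ) • (x * r) := by
      rw [zsmul_eq_mul]
      push_cast
      ring
    rw [e3, map_smul, hk, smul_eq_mul] at h1
    push_cast at h1
    exact (mul_dvd_mul_iff_left (by exact_mod_cast hm.ne')).mp h1
  set φ : 𝓞 K → ℂ := fun r => ee k (x * r) with hφdef
  have hφ : PerI (𝔟 * 𝔣) φ := by
    intro r r' hrr
    refine ee_sub_eq hk0 ?_
    rw [← mul_sub]
    exact htr _ hrr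
  have hf : PerI (𝔟 * 𝔣) (fun r => Pk ψ κ 𝔟 r * φ r) := by
    intro r r' hrr
    change Pk ψ κ 𝔟 r * φ r = Pk ψ κ 𝔟 r' * φ r'
    rw [hper r r' hrr, hφ r r' hrr]
  have hC : FT D m (Pk ψ κ 𝔟) x = ((m : ℂ) ^ (Module.finrank ℚ K) /
      ((Ideal.absNorm 𝔟 : ℂ) * (Ideal.absNorm 𝔣 : ℂ))) * SQ (𝔟 * 𝔣) (fun r => Pk ψ κ 𝔟 r * φ r) := by
    rw [FT_eq_SQ hcond]
    have h1 := SQ_mono hmne hmle hf
    rw [map_mul, absNorm_span_nat] at h1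
    push_cast at h1
    rw [div_mul_eq_mul_div, eq_div_iff (mul_ne_zero hNb hNf), ← h1]
    ring
  rw [hC]
  obtain ⟨𝔠, h𝔠⟩ := mem_iff_exists_mul.mp hx
  rw [Pk_of_eq h𝔟' h𝔠]
  by_cases hcop : IsCoprime 𝔠 𝔣
  swap
  · -- the ideal is not prime to `𝔣`
    have hψ0 : ψ 𝔠 = 0 := by
      by_contra h1
      exact hcop ((h.supp 𝔠).mp h1)
    rw [hψ0, zero_mul, map_zero, mul_zero]
    have hgne : 𝔠 ⊔ 𝔣 ≠ ⊤ := fun h1 => hcop (Ideal.isCoprime_iff_sup_eq.mpr h1)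
    have hgdvd : 𝔠 ⊔ 𝔣 ∣ 𝔣 := Ideal.dvd_iff_le.mpr le_sup_right
    obtain ⟨𝔥, h𝔥⟩ := hgdvd
    have h𝔥ne : 𝔥 ≠ 𝔣 := by
      intro h1
      apply hgne
      have h2 : (𝔠 ⊔ 𝔣) * 𝔣 = 1 * 𝔣 := by
        rw [one_mul]
        conv_rhs => rw [h𝔥, h1]
      have h3 := mul_right_cancel₀ h.ne_bot h2
      rw [h3, Ideal.one_eq_top]
    have h𝔥dvd : 𝔥 ∣ 𝔣 := ⟨𝔠 ⊔ 𝔣, by rw [mul_comm]; exact h𝔥⟩
    obtain ⟨c, hc1, hccop, hcψ⟩ := hp 𝔥 h𝔥dvd h𝔥ne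
    have hcb : Ideal.span {c} ≠ ⊥ := h.ne_bot_of_coprime hccop
    have hc0 : c ≠ 0 := fun h1 => hcb (Ideal.span_singleton_eq_bot.mpr h1)
    have hbc : 𝔟 * Ideal.span {c} ≠ ⊥ := mul_ne_zero h𝔟 hcb
    have hle : 𝔟 * Ideal.span {c} * 𝔣 ≤ 𝔟 * 𝔣 := by
      have : 𝔟 * Ideal.span {c} * 𝔣 = Ideal.span {c} * (𝔟 * 𝔣) := by ring
      rw [this]
      exact Ideal.mul_le_right
    have hPf : PerI (𝔟 * Ideal.span {c} * 𝔣) (fun r => Pk ψ κ (𝔟 * Ideal.span {c}) r * φ r) := by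
      intro r r' hrr
      change Pk ψ κ (𝔟 * Ideal.span {c}) r * φ r = Pk ψ κ (𝔟 * Ideal.span {c}) r' * φ r'
      rw [h.perI hbc r r' hrr, hφ r r' (hle hrr)]
    have hcx : ∀ y ∈ 𝔟, φ (c * y) = φ y := by
      intro y hy
      refine ee_sub_eq hk0 (trace_dvd fun δ hδ => ?_)
      have e1 : (x * (c * y) - x * y) * δ = (x * (c - 1)) * (y * δ) := by ring
      have e2 : x * (c - 1) ∈ 𝔟' * 𝔣 := by
        have e3 : x * (c - 1) ∈ Ideal.span {x} * 𝔥 :=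
          Ideal.mul_mem_mul (Ideal.mem_span_singleton_self x) hc1
        rw [← h𝔠] at e3
        have e4 : 𝔠 * 𝔟' * 𝔥 ≤ 𝔟' * 𝔣 := by
          conv_rhs => rw [h𝔥]
          have : 𝔠 * 𝔟' * 𝔥 = 𝔟' * (𝔠 * 𝔥) := by ring
          rw [this]
          exact Ideal.mul_mono_right (Ideal.mul_mono_left le_sup_left)
        exact e4 e3
      rw [e1, ← hid]
      have e5 : (x * (c - 1)) * (y * δ) ∈ (𝔟' * 𝔣) * (𝔟 * differentIdeal ℤ (𝓞 K)) :=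
        Ideal.mul_mem_mul e2 (Ideal.mul_mem_mul hy hδ)
      have e6 : (𝔟' * 𝔣) * (𝔟 * differentIdeal ℤ (𝓞 K)) =
        𝔟' * (𝔟 * 𝔣 * differentIdeal ℤ (𝓞 K)) := by ring
      rwa [e6] at e5
    have s1 := h.SQ_mul h𝔟 hccop hφ
    have hgf : 𝔟 * Ideal.span {c} * 𝔣 ≠ ⊥ := mul_ne_zero hbc h.ne_bot
    have hκc : κ (c : K) ≠ 0 := h.kap.ne_zero (by exact_mod_cast hc0)
    have s2 : SQ (𝔟 * Ideal.span {c} * 𝔣) (fun r => Pk ψ κ (𝔟 * Ideal.span {c}) r * φ r) =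
        κ (c : K) * SQ (𝔟 * 𝔣) (fun r => Pk ψ κ 𝔟 r * φ r) := by
      have hab : Ideal.span {(1 : 𝓞 K)} * (𝔟 * Ideal.span {c}) = Ideal.span {c} * 𝔟 := by
        rw [Ideal.span_singleton_one, Ideal.top_mul, mul_comm]
      rw [← SQ_const_mul h𝔟𝔣]
      have hf' : PerI (𝔟 * 𝔣) (fun r => κ (c : K) * (Pk ψ κ 𝔟 r * φ r)) := by
        intro r r' hrr
        exact congrArg (κ (c : K) * ·) (hf r r' hrr)
      refine SQ_scale one_ne_zero hc0 hab hPf hf' ?_ ?_ ?_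
      · intro r hr
        change Pk ψ κ (𝔟 * Ideal.span {c}) r * φ r = 0
        rw [Pk_of_notMem hr, zero_mul]
      · intro r hr
        change κ (c : K) * (Pk ψ κ 𝔟 r * φ r) = 0
        rw [Pk_of_notMem hr, zero_mul, mul_zero]
      · intro r hr y hy hry
        change Pk ψ κ (𝔟 * Ideal.span {c}) r * φ r = κ (c : K) * (Pk ψ κ 𝔟 y * φ y)
        have e1 := Pk_scale (η := ψ) h.kap one_ne_zero hc0 hbc h𝔟 hab hr hy hry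
        have e2 : κ ((1 : 𝓞 K) : K) = 1 := by
          have := h.kap.nat 1 one_pos
          simpa using this
        rw [e2, mul_one] at e1
        rw [e1]
        rw [one_mul] at hry
        rw [hry, hcx y hy]
        ring
    rw [s2] at s1
    have s3 : (1 - ψ (Ideal.span {c}) * κ (c : K)) *
        SQ (𝔟 * 𝔣) (fun r => Pk ψ κ 𝔟 r * φ r) = 0 := by
      linear_combination s1
    rcases mul_eq_zero.mp s3 with h7 | h7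
    · exact absurd (sub_eq_zero.mp h7).symm hcψ
    · rw [h7, mul_zero]
  · -- the main case
    have s1 := gauss_copk h h𝔤₀ne hE0 h𝔤₀ hk0 h𝔟 h𝔟' hid h𝔠 hcop hφ₀ hφ
    have hconj : (starRingEnd ℂ) (ψ 𝔠) * ψ 𝔠 = 1 := by
      rw [mul_comm, Complex.mul_conj, Complex.normSq_eq_norm_sq, h.norm_eq_one hcop]
      simp
    have hx0 : x ≠ 0 := by
      rintro rfl
      rw [Ideal.span_singleton_eq_bot.mpr rfl] at h𝔠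
      exact mul_ne_zero (h.ne_bot_of_coprime hcop) h𝔟' h𝔠
    have hconj2 := h.kap.conj_mul (x := (x : K)) (by exact_mod_cast hx0)
    have s2 : SQ (𝔟 * 𝔣) (fun r => Pk ψ κ 𝔟 r * φ r) =
        (starRingEnd ℂ) (ψ 𝔠) * (starRingEnd ℂ) (κ (x : K)) *
        SQ (𝔤₀ * 𝔣) (fun y => Pk ψ κ 𝔤₀ y * ee E y) := by
      calc SQ (𝔟 * 𝔣) (fun r => Pk ψ κ 𝔟 r * φ r) =
          ((starRingEnd ℂ) (ψ 𝔠) * ψ 𝔠) * ((starRingEnd ℂ) (κ (x : K)) * κ (x : K)) *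
            SQ (𝔟 * 𝔣) (fun r => Pk ψ κ 𝔟 r * φ r) := by
            rw [hconj, hconj2, one_mul, one_mul]
        _ = (starRingEnd ℂ) (ψ 𝔠) * (starRingEnd ℂ) (κ (x : K)) *
            (κ (x : K) * (ψ 𝔠 * SQ (𝔟 * 𝔣) (fun r => Pk ψ κ 𝔟 r * φ r))) := by ring
        _ = _ := by rw [s1]
    rw [s2, map_mul]
    ring

end

end Pool.Agent.N784.HC
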