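import Mathlib

/-!
# Hecke L-functions with infinity type over arbitrary number fields: definitions, and the statements
of the independent parts (helper784)

`Zc c i u` is a complex coordinate: if `c` is an involution of the index set (complex conjugation on
the embeddings of a number field), and `u i = Re z_i + Im z_i` with `z_{c i} = conj z_i`, then
`Zc c i u = z_i`.
-/

set_option autoImplicit false

open Complex Filter Topology MeasureTheory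

namespace Pool.Agent.N784.HC

/-- the complex coordinate -/
noncomputable def Zc {ι : Type} (c : ι → ι) (i : ι) (u : ι → ℝ) : ℂ :=
  ((1 + I) * (u i : ℂ) + (1 - I) * (u (c i) : ℂ)) / 2

/-- a monomial in the complex coordinates, times the gaussian -/
noncomputable def GZ {ι : Type} [Fintype ι] (c : ι → ι) (n : ι → ℕ) (u : ι → ℝ) : ℂ :=
  (∏ i, Zc c i u ^ n i) * ((Real.exp (-Real.pi * ∑ i, u i ^ 2) : ℝ) : ℂ)

/-- `n` is an infinity type with respect to the involution `c` -/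
structure Typ {ι : Type} (c : ι → ι) (n : ι → ℕ) : Prop where
  inv : ∀ i, c (c i) = i
  real : ∀ i, c i = i → n i ≤ 1
  cpx : ∀ i, c i ≠ i → n i = 0 ∨ n (c i) = 0

/-- FT : the Fourier transform of a harmonic monomial times the gaussian (Hecke) -/
def StFT : Prop := ∀ (ι : Type) [Fintype ι] (c : ι → ι) (n : ι → ℕ), Typ c n →
  ∀ a : ι → ℝ, (∀ i, 0 < a i) → ∀ ξ : ι → ℝ,
    ∫ x : ι → ℝ, cexp (-(2 * Real.pi * I * ((∑ w, ξ w * x w : ℝ) : ℂ))) *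
      GZ c n (fun w => a w * x w) =
      (∏ w, ((a w : ℝ) : ℂ)⁻¹) * ((-I) ^ (∑ w, n w) * GZ c n (fun w => ξ w / a w))

/-- the archimedean factor `R^(s/2) ∏ Γ_ℝ(s + μ_i)` -/
noncomputable def GGm {ι : Type} [Fintype ι] (R : ℝ) (μ : ι → ℝ) (s : ℂ) : ℂ :=
  (R : ℂ) ^ (s / 2) * ∏ i, Complex.Gammaℝ (s + μ i)

/-- functional equation data of degree `#ι` with gamma factors `Γ_ℝ(s + μ_i)`, `μ_i` real -/
structure FEm {ι : Type} [Fintype ι] (R : ℝ) (μ : ι → ℝ) (F : ℂ → ℂ) : Prop where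
  diff : Differentiable ℂ F
  fe : ∃ w : ℂ, ‖w‖ = 1 ∧ ∀ s : ℂ, s.im ≠ 0 → GGm R μ s * F s =
    w * (starRingEnd ℂ) (GGm R μ (1 - (starRingEnd ℂ) s) * F (1 - (starRingEnd ℂ) s))
  vert : ∀ a b : ℝ, ∃ C : ℝ, ∀ s : ℂ, a ≤ s.re → s.re ≤ b → 1 ≤ |s.im| →
    ‖GGm R μ s * F s‖ ≤ C

/-- FEM : analytic consequences of the functional equation, uniform in `Q ≥ 1`, in the function and
in the shifts `0 ≤ μ_i ≤ M` of the gamma factors (compare `Pool.Agent.Y767.StFEn`, proved in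
`Pool.Agent.Y772.HC.Fen` and `Pool.Agent.Y772.HC.Gam`, for shifts `e_i + I ν_i`, `e_i ∈ {0,1}`). -/
def StFEm : Prop := ∀ (ι : Type) [Fintype ι] [Nonempty ι], ∀ (N : ℝ), 1 ≤ N → ∀ (B : ℝ), 1 ≤ B →
  ∀ (M : ℝ), 0 ≤ M →
  ∃ A : ℝ, 1 ≤ A ∧ ∀ (Q : ℝ), 1 ≤ Q → ∀ (μ : ι → ℝ) (F : ℂ → ℂ),
    (∀ i, 0 ≤ μ i ∧ μ i ≤ M) →
    FEm (N * Q ^ Fintype.card ι) μ F →
    (∀ s : ℂ, 3 / 2 ≤ s.re → ‖F s‖ ≤ B) →
    (∀ s : ℂ, 1 ≤ s.re → 1 ≤ s.im → F s ≠ 0) →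
    (∀ s : ℂ, (1 / 16 : ℝ) ≤ s.re → s.re ≤ 4 → 1 ≤ s.im → ‖F s‖ ≤ A * (Q * s.im) ^ A) ∧
    (∀ s : ℂ, s.re ≤ 0 → 1 ≤ s.im → F s ≠ 0) ∧
    (∀ s : ℂ, 0 < s.re → s.re < 1 → 1 ≤ s.im →
      analyticOrderAt F (1 - (starRingEnd ℂ) s) = analyticOrderAt F s) ∧
    (∀ s : ℂ, -3 / 4 ≤ s.re → s.re ≤ 1 / 2 → 1 ≤ s.im → F s ≠ 0 →
      ‖deriv F s / F s + (((Fintype.card ι : ℝ) * Real.log (Q * s.im) : ℝ) : ℂ) +
        (starRingEnd ℂ) (deriv F (1 - (starRingEnd ℂ) s) / F (1 - (starRingEnd ℂ) s))‖ ≤ A)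

end Pool.Agent.N784.HC
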