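import Pool.Agent.N784.HC.MainN
import Pool.Agent.N784.AD.Mod2

/-! # Existence of the Hecke characters of infinity type `n`, moduli (helper784) -/

set_option autoImplicit false
set_option linter.unusedSectionVars false

open NumberField

namespace Pool.Agent.N784.HC

open Pool.Agent.Y773 (TPos)
open Pool.Agent.Y767 (Mq Mq_cop Mq_ne_bot Mq_cancel ext_mon tpos_of_mul)
open Pool.Agent.Y773.IQ (ne_zero_of_cop cop_one absNorm_pos')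
open Pool.Agent.N784.AD (T1 T1_cop T1_one T1_tp pi1 pi1_coe Un finite_Un exists_mod one_le_norm)

section

variable {K : Type} [Field K] [NumberField K] {n : (K →+* ℂ) → ℕ}

/-- **the existence of characters modulo `𝔮` of infinity type `n`** (Weil's criterion) -/
theorem dn_nonempty {𝔮 : Ideal (𝓞 K)} (htop : 𝔮 ≠ ⊤)
    (h : ∀ u : (𝓞 K)ˣ, (u : 𝓞 K) - 1 ∈ 𝔮 → TPos K (u : 𝓞 K) → ph n ((u : 𝓞 K) : K) = 1) :
    (Dn n htop).Nonempty := by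
  have := Mq_cancel htop
  obtain ⟨F, hF⟩ := ext_mon (pi1 htop) (phT n htop) (by
    intro a b hab
    have h1 := congrArg Subtype.val hab
    rw [pi1_coe, pi1_coe, Ideal.span_singleton_eq_span_singleton] at h1
    obtain ⟨u, hu⟩ := h1
    have ha := (Ideal.Quotient.eq (I := 𝔮)).mpr (T1_one a)
    have hb := (Ideal.Quotient.eq (I := 𝔮)).mpr (T1_one b)
    have h2 := congrArg (Ideal.Quotient.mk 𝔮) hu
    rw [map_mul, ha, hb, map_one, one_mul] at h2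
    have h3 : (u : 𝓞 K) - 1 ∈ 𝔮 := by
      rw [← Ideal.Quotient.eq, h2, map_one]
    have h4 : TPos K (u : 𝓞 K) := tpos_of_mul (T1_tp a) (by rw [hu]; exact T1_tp b)
    ext
    rw [phT_coe, phT_coe, ← hu, ph_coe_mul, h u h3 h4, mul_one])
  exact ⟨F, hF⟩

/-- the criterion is necessary -/
theorem dn_unit {𝔮 : Ideal (𝓞 K)} (htop : 𝔮 ≠ ⊤) (hne : (Dn n htop).Nonempty)
    (u : (𝓞 K)ˣ) (h1 : (u : 𝓞 K) - 1 ∈ 𝔮) (h2 : TPos K (u : 𝓞 K)) :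
    ph n ((u : 𝓞 K) : K) = 1 := by
  obtain ⟨F, hF⟩ := hne
  have h3 := hF ⟨(u : 𝓞 K), h1, h2⟩
  have h4 : pi1 htop ⟨(u : 𝓞 K), h1, h2⟩ = 1 := by
    apply Subtype.ext
    rw [pi1_coe, Submonoid.coe_one, Ideal.one_eq_top]
    exact Ideal.span_singleton_eq_top.mpr u.isUnit
  rw [h4, map_one] at h3
  have h5 := congrArg (fun z : ℂˣ => (z : ℂ)) h3
  simp only [Units.val_one] at h5
  rw [phT_coe] at h5
  exact h5.symm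

lemma Un_mul_le {𝔪 𝔮 : Ideal (𝓞 K)} (hm : 𝔪 ≠ ⊥) (hq : 𝔮 ≠ ⊥) (hcop : IsCoprime 𝔪 𝔮) :
    Un (𝔪 * 𝔮) ≤ Ideal.absNorm 𝔪 * Un 𝔮 := by
  have i1 : Finite (𝓞 K ⧸ 𝔪) := Ideal.finiteQuotientOfFreeOfNeBot 𝔪 hm
  have i2 : Finite (𝓞 K ⧸ 𝔮) := Ideal.finiteQuotientOfFreeOfNeBot 𝔮 hq
  have hle1 : 𝔪 * 𝔮 ≤ 𝔪 := Ideal.mul_le_left
  have hle2 : 𝔪 * 𝔮 ≤ 𝔮 := Ideal.mul_le_right
  have h1 : Nat.card (𝓞 K ⧸ 𝔪) = Ideal.absNorm 𝔪 := rfl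
  have h2 : ((Set.univ : Set (𝓞 K ⧸ 𝔪)) ×ˢ
      (Set.range (fun u : (𝓞 K)ˣ => Ideal.Quotient.mk 𝔮 (u : 𝓞 K)))).ncard =
      Ideal.absNorm 𝔪 * Un 𝔮 := by
    rw [Set.ncard_prod, Set.ncard_univ, h1]
    rfl
  rw [← h2]
  unfold Un
  refine Set.ncard_le_ncard_of_injOn
    (fun z : 𝓞 K ⧸ (𝔪 * 𝔮) => ((Ideal.Quotient.factor hle1 z, Ideal.Quotient.factor hle2 z) :
      (𝓞 K ⧸ 𝔪) × (𝓞 K ⧸ 𝔮))) ?_ ?_ (Set.toFinite _)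
  · rintro _ ⟨u, rfl⟩
    exact ⟨Set.mem_univ _, ⟨u, by simp⟩⟩
  · intro z _ z' _ h
    obtain ⟨x, rfl⟩ := Ideal.Quotient.mk_surjective z
    obtain ⟨y, rfl⟩ := Ideal.Quotient.mk_surjective z'
    simp only [Ideal.Quotient.factor_mk, Prod.mk.injEq] at h
    rw [Ideal.Quotient.eq, Ideal.Quotient.eq] at h
    rw [Ideal.Quotient.eq, Ideal.mul_eq_inf_of_coprime (Ideal.isCoprime_iff_sup_eq.1 hcop)]
    exact ⟨h.1, h.2⟩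

variable (K) in
/-- moduli divisible by a given ideal -/
theorem exists_modM {𝔪 : Ideal (𝓞 K)} (hm : 𝔪 ≠ ⊥) (δ B : ℝ) (hδ : 0 < δ) :
    ∃ 𝔮 : Ideal (𝓞 K), 𝔮 ≠ ⊥ ∧ 𝔪 ∣ 𝔮 ∧ B ≤ (Ideal.absNorm 𝔮 : ℝ) ∧
      (Un 𝔮 : ℝ) ≤ (Ideal.absNorm 𝔮 : ℝ) ^ δ := by
  obtain ⟨M, hM⟩ : ∃ M : ℝ, M = (Ideal.absNorm 𝔪 : ℝ) := ⟨_, rfl⟩
  have hM1 : 1 ≤ M := by rw [hM]; exact one_le_norm K hm
  obtain ⟨𝔮, h1, h2, h3⟩ := exists_mod K (δ / 2) (max B (max M (M ^ (2 / δ)))) (by positivity)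
  have hN1 : (1 : ℝ) ≤ (Ideal.absNorm 𝔮 : ℝ) := one_le_norm K h1.ne_bot
  have hN0 : (0 : ℝ) < (Ideal.absNorm 𝔮 : ℝ) := by linarith
  have hB1 : B ≤ (Ideal.absNorm 𝔮 : ℝ) := (le_max_left _ _).trans h2
  have hB3 : M ^ (2 / δ) ≤ (Ideal.absNorm 𝔮 : ℝ) :=
    ((le_max_right _ _).trans (le_max_right _ _)).trans h2
  have hcop : IsCoprime 𝔪 𝔮 := by
    rw [Ideal.isCoprime_iff_sup_eq]
    by_contra hcon
    obtain ⟨P, hP, hle⟩ := Ideal.exists_le_maximal _ hcon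
    have hPm : 𝔪 ≤ P := le_sup_left.trans hle
    have hPq : 𝔮 ≤ P := le_sup_right.trans hle
    have hPb : P ≠ ⊥ := by
      rintro rfl
      exact hm (le_bot_iff.mp hPm)
    have hPp : Prime P := Ideal.prime_of_isPrime hPb hP.isPrime
    obtain ⟨-, h4⟩ := h1.prime P hPp (Ideal.dvd_iff_le.mpr hPq)
    have h5 : M < (Ideal.absNorm P : ℝ) :=
      lt_of_le_of_lt ((le_max_left _ _).trans (le_max_right _ _)) h4
    have h6 : Ideal.absNorm P ≤ Ideal.absNorm 𝔪 :=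
      Nat.le_of_dvd (absNorm_pos' hm) (Ideal.absNorm_dvd_absNorm_of_le hPm)
    have h7 : (Ideal.absNorm P : ℝ) ≤ M := by rw [hM]; exact_mod_cast h6
    linarith
  have hbot : 𝔪 * 𝔮 ≠ ⊥ := mul_ne_zero hm h1.ne_bot
  have hNm : (Ideal.absNorm (𝔪 * 𝔮) : ℝ) = M * (Ideal.absNorm 𝔮 : ℝ) := by
    rw [map_mul, hM]; push_cast; ring
  have hge : (Ideal.absNorm 𝔮 : ℝ) ≤ (Ideal.absNorm (𝔪 * 𝔮) : ℝ) := by
    rw [hNm]
    calc (Ideal.absNorm 𝔮 : ℝ) = 1 * (Ideal.absNorm 𝔮 : ℝ) := (one_mul _).symm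
      _ ≤ _ := mul_le_mul_of_nonneg_right hM1 hN0.le
  refine ⟨𝔪 * 𝔮, hbot, dvd_mul_right _ _, hB1.trans hge, ?_⟩
  have h8 : (Un (𝔪 * 𝔮) : ℝ) ≤ M * Un 𝔮 := by
    have := Un_mul_le hm h1.ne_bot hcop
    rw [hM]
    exact_mod_cast this
  have h9 : M ≤ (Ideal.absNorm 𝔮 : ℝ) ^ (δ / 2) := by
    have h10 := Real.rpow_le_rpow (Real.rpow_nonneg (by linarith) _) hB3
      (show (0 : ℝ) ≤ δ / 2 by positivity)
    rw [← Real.rpow_mul (by linarith)] at h10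
    have h11 : 2 / δ * (δ / 2) = 1 := by field_simp
    rwa [h11, Real.rpow_one] at h10
  calc (Un (𝔪 * 𝔮) : ℝ) ≤ M * Un 𝔮 := h8
    _ ≤ (Ideal.absNorm 𝔮 : ℝ) ^ (δ / 2) * (Ideal.absNorm 𝔮 : ℝ) ^ (δ / 2) :=
        mul_le_mul h9 h3 (Nat.cast_nonneg _) (Real.rpow_nonneg hN0.le _)
    _ = (Ideal.absNorm 𝔮 : ℝ) ^ δ := by
        rw [← Real.rpow_add hN0]
        congr 1
        ring
    _ ≤ _ := Real.rpow_le_rpow hN0.le hge hδ.le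

end

end Pool.Agent.N784.HC
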