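import Pool.Agent.N891.HC.FT

/-! The Fourier transform of the gaussian factors (proved by helper891). -/

namespace Pool.Agent.N784.HC

export Pool.Agent.N891.HC (t_ft norm_GZ_le continuous_GZ)

end Pool.Agent.N784.HC
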