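import Pool.Agent.N784.HC.Hf
import Pool.Agent.N784.HC.Chr

/-! # The functional equation for a family of functions indexed by the classes (helper784)
(adapted from `Pool.Agent.Y773.HG.Cls` and `Fam`) -/

set_option autoImplicit false
set_option linter.unusedSectionVars false

open NumberField Complex Filter Topology MeasureTheory Set
open NumberField.Units NumberField.Units.dirichletUnitTheorem

namespace Pool.Agent.N784.HC

open Pool.Agent.Y773 (Idx el PP S0 PIdl gen gen_ne_zero span_gen FT qt LI)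
open Pool.Agent.Y773.G (norm_FT_le absNorm_pos' sum_classes)
open Pool.Agent.Y773 (Reps)

variable {K : Type} [Field K] [NumberField K]

lemma kap_kp (n : (K →+* ℂ) → ℕ) : Kap (kp n) where
  mul x y _ _ := kp_mul n x y
  norm x hx := norm_kp n hx
  le x := by
    unfold kp
    rw [RCLike.norm_conj]
    exact norm_ph_le n x
  nat k hk := by
    unfold kp
    rw [ph_nat n hk, map_one]

lemma nice_Pk {n : (K →+* ℂ) → ℕ} {η : Ideal (𝓞 K) →*₀ ℂ} (hη : ∀ 𝔞, ‖η 𝔞‖ ≤ 1)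
    {𝔟 : Ideal (𝓞 K)} (h𝔟 : 𝔟 ≠ ⊥) : Nice n (Pk η (kp n) 𝔟) where
  bdd := ⟨1, fun x => norm_Pk_le (kap_kp n) hη 𝔟 x⟩
  zero := Pk_zero h𝔟
  unit u x := Pk_unit_smul (kap_kp n) h𝔟 u x

lemma AA_Pk (n : (K →+* ℂ) → ℕ) (η : Ideal (𝓞 K) →*₀ ℂ) (𝔟 : Ideal (𝓞 K)) (J : PIdl K) :
    AA n (Pk η (kp n) 𝔟) J = η (qt 𝔟 (gen J)) := by
  unfold AA Pk
  rw [mul_assoc, kp_mul_ph n (RingOfIntegers.coe_ne_zero_iff.mpr (gen_ne_zero J)), mul_one]

/-- the total function -/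
noncomputable def Ftot (η : Ideal (𝓞 K) →*₀ ℂ) (n : (K →+* ℂ) → ℕ)
    (𝔟 : ClassGroup (𝓞 K) → Ideal (𝓞 K)) (t : ℝ) : ℂ :=
  ∑ c, hf n (Pk η (kp n) (𝔟 c)) ((Ideal.absNorm (𝔟 c) : ℝ)⁻¹ * t)

/-- the dual function -/
noncomputable def Gtot (η : Ideal (𝓞 K) →*₀ ℂ) (n : (K →+* ℂ) → ℕ)
    (𝔟 : ClassGroup (𝓞 K) → Ideal (𝓞 K)) (m D : ℕ) (t : ℝ) : ℂ :=
  ∑ c, (Ideal.absNorm (𝔟 c) : ℂ) * hf (nc n) (FT D m (Pk η (kp n) (𝔟 c)))
    (t * Ideal.absNorm (𝔟 c) / ((m * D : ℕ) : ℝ) ^ (Module.finrank ℚ K))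

/-- Mellin transform of the total function -/
theorem mellin_Ftot (K : Type) [Field K] [NumberField K] : ∃ C : ℝ, 0 < C ∧
    ∀ (𝔟 : ClassGroup (𝓞 K) → Ideal (𝓞 K)), Reps 𝔟 → ∀ (n : (K →+* ℂ) → ℕ)
      (η : Ideal (𝓞 K) →*₀ ℂ), (∀ 𝔞, ‖η 𝔞‖ ≤ 1) →
      ∀ s : ℂ, 1 < s.re → MellinConvergent (Ftot η n 𝔟) s ∧
        mellin (Ftot η n 𝔟) s = C * (Gp n s * LI η s) := by
  classical
  obtain ⟨C, hC, h⟩ := mellin_hf K
  refine ⟨C, hC, fun 𝔟 h𝔟 n η hη s hs => ?_⟩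
  have hN : ∀ c, Nice n (Pk η (kp n) (𝔟 c)) := fun c => nice_Pk hη (h𝔟.ne_bot c)
  have hpos : ∀ c, (0 : ℝ) < (Ideal.absNorm (𝔟 c) : ℝ)⁻¹ := by
    intro c
    have : Ideal.absNorm (𝔟 c) ≠ 0 := by
      rw [Ne, Ideal.absNorm_eq_zero_iff]
      exact h𝔟.ne_bot c
    have : 0 < Ideal.absNorm (𝔟 c) := Nat.pos_of_ne_zero this
    positivity
  have h1 : ∀ c, MellinConvergent (fun t => hf n (Pk η (kp n) (𝔟 c)) ((Ideal.absNorm (𝔟 c) : ℝ)⁻¹ * t)) s := by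
    intro c
    rw [MellinConvergent.comp_mul_left (hpos c)]
    exact (h n _ (hN c) s hs).1
  have h2 : ∀ c, mellin (fun t => hf n (Pk η (kp n) (𝔟 c)) ((Ideal.absNorm (𝔟 c) : ℝ)⁻¹ * t)) s =
      C * (Gp n s * (((Ideal.absNorm (𝔟 c) : ℕ) : ℂ) ^ s *
        ∑' J : PIdl K, η (qt (𝔟 c) (gen J)) * ((Ideal.absNorm J.1 : ℕ) : ℂ) ^ (-s))) := by
    intro c
    rw [mellin_comp_mul_left _ _ (hpos c), (h n _ (hN c) s hs).2.2, smul_eq_mul]
    simp_rw [AA_Pk]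
    have h3 : (((Ideal.absNorm (𝔟 c) : ℝ)⁻¹ : ℝ) : ℂ) ^ (-s) = ((Ideal.absNorm (𝔟 c) : ℕ) : ℂ) ^ s := by
      have h4 : (0 : ℝ) < Ideal.absNorm (𝔟 c) := inv_pos.mp (hpos c)
      rw [Complex.cpow_def_of_ne_zero (by exact_mod_cast (hpos c).ne'),
        ← Complex.ofReal_log (hpos c).le, Real.log_inv,
        Complex.cpow_def_of_ne_zero (by exact_mod_cast h4.ne'), ← Complex.ofReal_natCast,
        ← Complex.ofReal_log h4.le]
      congr 1
      push_cast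
      ring
    rw [h3]
    ring
  have h5 : ∀ S : Finset (ClassGroup (𝓞 K)), MellinConvergent
      (fun t => ∑ c ∈ S, hf n (Pk η (kp n) (𝔟 c)) ((Ideal.absNorm (𝔟 c) : ℝ)⁻¹ * t)) s ∧
      mellin (fun t => ∑ c ∈ S, hf n (Pk η (kp n) (𝔟 c)) ((Ideal.absNorm (𝔟 c) : ℝ)⁻¹ * t)) s =
      ∑ c ∈ S, mellin (fun t => hf n (Pk η (kp n) (𝔟 c)) ((Ideal.absNorm (𝔟 c) : ℝ)⁻¹ * t)) s := by
    intro S
    induction S using Finset.induction_on with
    | empty =>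
      simp only [Finset.sum_empty]
      constructor
      · unfold MellinConvergent
        simp
      · simp [mellin]
    | insert c S hc ih =>
      simp only [Finset.sum_insert hc]
      constructor
      · exact (hasMellin_add (h1 c) ih.1).1
      · rw [← ih.2]
        exact (hasMellin_add (h1 c) ih.1).2
  refine ⟨(h5 Finset.univ).1, ?_⟩
  have h6 := (h5 Finset.univ).2
  unfold Ftot
  rw [h6]
  simp_rw [h2]
  rw [← Finset.mul_sum, ← Finset.mul_sum, sum_classes h𝔟 hη hs]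

lemma GM_zero_of {n : (K →+* ℂ) → ℕ} (hn : n ≠ 0) (a : InfinitePlace K → ℝ) :
    GM n a (0 : K) = 0 := by
  obtain ⟨φ, hφ⟩ := Function.ne_iff.mp hn
  exact GM_zero hφ a

/-- the value at zero does not matter -/
lemma th_congr {n : (K →+* ℂ) → ℕ} (hn : n ≠ 0) {Ψ Ψ' : 𝓞 K → ℂ} (h : ∀ x, x ≠ 0 → Ψ x = Ψ' x)
    (y : InfinitePlace K → ℝ) : th n Ψ y = th n Ψ' y := by
  unfold th
  refine tsum_congr fun x => ?_
  rcases eq_or_ne x 0 with rfl | hx
  · have : ((0 : 𝓞 K) : K) = 0 := map_zero _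
    rw [this, GM_zero_of hn, mul_zero, mul_zero]
  · rw [h x hx]

/-- `Ψ` with the value at zero removed -/
noncomputable def rz (Φ : 𝓞 K → ℂ) (x : 𝓞 K) : ℂ := by
  classical exact if x = 0 then 0 else Φ x

lemma th_rz {n : (K →+* ℂ) → ℕ} (hn : n ≠ 0) (Ψ : 𝓞 K → ℂ) (y : InfinitePlace K → ℝ) :
    th n Ψ y = th n (rz Ψ) y := by
  refine th_congr hn (fun x hx => ?_) y
  unfold rz
  rw [if_neg hx]

lemma hf_rz {n : (K →+* ℂ) → ℕ} (hn : n ≠ 0) (Ψ : 𝓞 K → ℂ) (t : ℝ) : hf n Ψ t = hf n (rz Ψ) t := by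
  unfold hf
  simp_rw [fun y => th_rz hn Ψ y]

lemma nice_rz {n : (K →+* ℂ) → ℕ} {Ψ : 𝓞 K → ℂ} {B : ℝ} (hB : ∀ x, ‖Ψ x‖ ≤ B)
    (h : Eqv n Ψ) : Nice n (rz Ψ) where
  bdd := ⟨B, fun x => by
    unfold rz
    split_ifs
    · rw [norm_zero]
      exact (norm_nonneg _).trans (hB 0)
    · exact hB x⟩
  zero := by simp [rz]
  unit u x := by
    unfold rz
    by_cases hx : x = 0
    · simp [hx]
    · have : (u : 𝓞 K) * x ≠ 0 := mul_ne_zero u.ne_zero hx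
      rw [if_neg hx, if_neg this, h]

lemma nc_ne {n : (K →+* ℂ) → ℕ} (hn : n ≠ 0) : nc n ≠ 0 := by
  intro h
  apply hn
  have := congrArg nc h
  rw [nc_nc] at this
  rw [this]
  rfl

lemma hf_decay' {n : (K →+* ℂ) → ℕ} {Ψ : 𝓞 K → ℂ} (h : Nice n Ψ) {a : ℝ} (ha : 0 < a)
    (r : ℝ) : (fun t => hf n Ψ (a * t)) =O[atTop] (fun t => t ^ r) := by
  have h1 := (hf_decay h r).comp_tendsto (tendsto_id.const_mul_atTop ha)
  refine h1.trans ?_
  refine Asymptotics.IsBigO.of_bound (a ^ r) ?_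
  filter_upwards [eventually_gt_atTop 0] with t ht
  simp only [Function.comp_apply, id]
  rw [Real.mul_rpow ha.le ht.le, norm_mul, Real.norm_of_nonneg (Real.rpow_nonneg ha.le r)]

lemma locInt_hf (n : (K →+* ℂ) → ℕ) {Ψ : 𝓞 K → ℂ} {B : ℝ}
    (hB : ∀ x, ‖Ψ x‖ ≤ B) {a : ℝ} (ha : 0 < a) :
    ContinuousOn (fun t => hf n Ψ (a * t)) (Ioi 0) := by
  refine (continuousOn_hf n hB).comp (by fun_prop) ?_
  intro t ht
  exact mul_pos ha ht

/-- **The functional equation** -/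
theorem fam_fe (K : Type) [Field K] [NumberField K] : ∃ V : ℝ, 0 < V ∧
    ∀ (𝔟 : ClassGroup (𝓞 K) → Ideal (𝓞 K)), Reps 𝔟 → ∀ (n : (K →+* ℂ) → ℕ), TypK n → n ≠ 0 →
      ∀ (η : Ideal (𝓞 K) →*₀ ℂ), (∀ 𝔞, ‖η 𝔞‖ ≤ 1) → ∀ m D : ℕ, 0 < m → 0 < D →
      (D : 𝓞 K) ∈ differentIdeal ℤ (𝓞 K) →
      (∀ c (x z : 𝓞 K), Pk η (kp n) (𝔟 c) (x + m * z) = Pk η (kp n) (𝔟 c) x) →
      (∀ s, MellinConvergent (Ftot η n 𝔟) s) ∧ Differentiable ℂ (mellin (Ftot η n 𝔟)) ∧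
      ∀ s, mellin (Ftot η n 𝔟) (1 - s) =
        (((V⁻¹ : ℝ) : ℂ) * ((m : ℂ) ^ (Module.finrank ℚ K))⁻¹ *
          (-I) ^ (∑ φ : K →+* ℂ, n φ)) * mellin (Gtot η n 𝔟 m D) s := by
  classical
  obtain ⟨V, hV0, hV⟩ := hf_fe K
  refine ⟨V, hV0, fun 𝔟 h𝔟 n htyp hn0 η hη m D hm hD hDD hper => ?_⟩
  have hNpos := absNorm_pos' h𝔟
  have hmD : (0 : ℝ) < ((m * D : ℕ) : ℝ) := by
    have : 0 < m * D := Nat.mul_pos hm hD
    exact_mod_cast this
  have hN : ∀ c, Nice n (Pk η (kp n) (𝔟 c)) := fun c => nice_Pk hη (h𝔟.ne_bot c)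
  have hB : ∀ c x, ‖Pk η (kp n) (𝔟 c) x‖ ≤ 1 := fun c x => norm_Pk_le (kap_kp n) hη _ _
  have hE : ∀ c, Eqv n (Pk η (kp n) (𝔟 c)) := fun c => (hN c).unit
  have hE' : ∀ c, Eqv (nc n) (FT D m (Pk η (kp n) (𝔟 c))) := fun c => FT_eqv (hE c) hm hD (hper c)
  have hBF := fun c => norm_FT_le (D := D) hm zero_le_one (hB c)
  have hN' : ∀ c, Nice (nc n) (rz (FT D m (Pk η (kp n) (𝔟 c)))) := fun c => nice_rz (hBF c) (hE' c)
  set κ : ℂ := ((V⁻¹ : ℝ) : ℂ) * ((m : ℂ) ^ (Module.finrank ℚ K))⁻¹ *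
    (-I) ^ (∑ φ : K →+* ℂ, n φ) with hκ
  have hκ0 : κ ≠ 0 := by
    rw [hκ]
    refine mul_ne_zero (mul_ne_zero ?_ ?_) ?_
    · exact_mod_cast (inv_pos.mpr hV0).ne'
    · refine inv_ne_zero (pow_ne_zero _ ?_)
      exact_mod_cast hm.ne'
    · exact pow_ne_zero _ (neg_ne_zero.mpr Complex.I_ne_zero)
  set M : ℝ := ((m * D : ℕ) : ℝ) ^ (Module.finrank ℚ K) with hM
  have hM0 : 0 < M := by positivity
  let P : WeakFEPair ℂ :=
    { f := Ftot η n 𝔟
      g := Gtot η n 𝔟 m D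
      k := 1
      ε := κ
      f₀ := 0
      g₀ := 0
      hf_int := by
        refine ContinuousOn.locallyIntegrableOn ?_ measurableSet_Ioi
        unfold Ftot
        exact continuousOn_finsetSum _ fun c _ => locInt_hf n (hB c) (inv_pos.mpr (hNpos c))
      hg_int := by
        refine ContinuousOn.locallyIntegrableOn ?_ measurableSet_Ioi
        unfold Gtot
        refine continuousOn_finsetSum _ fun c _ => continuousOn_const.mul ?_
        have := locInt_hf (nc n) (hBF c) (a := Ideal.absNorm (𝔟 c) / M) (div_pos (hNpos c) hM0)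
        refine this.congr fun t _ => ?_
        simp only
        congr 1
        ring
      hk := one_pos
      hε := hκ0
      h_feq := fun t ht => by
        have ht' : 0 < t := ht
        rw [Real.rpow_one, smul_eq_mul]
        unfold Ftot Gtot
        rw [Finset.mul_sum]
        refine Finset.sum_congr rfl fun c _ => ?_
        have h2 : (Ideal.absNorm (𝔟 c) : ℝ)⁻¹ * (1 / t) = 1 / (t * Ideal.absNorm (𝔟 c)) := by
          have := (hNpos c).ne'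
          field_simp
        rw [h2, hV n htyp _ 1 (hB c) (hE c) m D hm hD hDD (hper c) _ (mul_pos ht' (hNpos c)),
          ← hκ, ← hM]
        push_cast
        ring
      hf_top := fun r => by
        simp_rw [sub_zero]
        refine (Asymptotics.IsBigO.sum (s := Finset.univ)
          (A := fun c t => hf n (Pk η (kp n) (𝔟 c)) ((Ideal.absNorm (𝔟 c) : ℝ)⁻¹ * t))
          fun c _ => hf_decay' (hN c) (inv_pos.mpr (hNpos c)) r).congr_left fun t => ?_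
        rw [Finset.sum_apply]
        rfl
      hg_top := fun r => by
        have h1 : (fun t => Gtot η n 𝔟 m D t - 0) =
            fun t => ∑ c, (Ideal.absNorm (𝔟 c) : ℂ) * hf (nc n) (rz (FT D m (Pk η (kp n) (𝔟 c))))
              (t * Ideal.absNorm (𝔟 c) / M) := by
          funext t
          rw [sub_zero]
          unfold Gtot
          refine Finset.sum_congr rfl fun c _ => ?_
          rw [hf_rz (nc_ne hn0)]
        rw [h1]
        refine (Asymptotics.IsBigO.sum (s := Finset.univ)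
          (A := fun c t => (Ideal.absNorm (𝔟 c) : ℂ) * hf (nc n) (rz (FT D m (Pk η (kp n) (𝔟 c))))
            (t * Ideal.absNorm (𝔟 c) / M)) fun c _ => Asymptotics.IsBigO.const_mul_left ?_ _).congr_left
              fun t => by rw [Finset.sum_apply]
        have := hf_decay' (hN' c) (a := Ideal.absNorm (𝔟 c) / M) (div_pos (hNpos c) hM0) r
        refine this.congr_left fun t => ?_
        congr 1
        ring }
  have hP : IsStrongFEPair P := ⟨rfl, rfl⟩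
  refine ⟨fun s => (hP.hasMellin s).1, ?_, ?_⟩
  · have := hP.differentiable_Λ
    rw [hP.Λ_eq] at this
    exact this
  · intro s
    have h1 := P.functional_equation s
    rw [hP.Λ_eq, hP.symm_Λ_eq] at h1
    have h2 : ((P.k : ℝ) : ℂ) = 1 := Complex.ofReal_one
    rw [h2, smul_eq_mul] at h1
    exact h1

end Pool.Agent.N784.HC
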