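import Pool.Agent.N784.HC.GamM
import Pool.Agent.Y772.HC.Fen

/-!
# Analytic consequences of a functional equation with real shifts in the gamma factors (helper784;
adapted from `Pool.Agent.Y772.HC.Fen`)
-/

set_option autoImplicit false

open Complex Filter Topology Set MeasureTheory Asymptotics
open H370.DL (refl hasDerivAt_refl analyticAt_refl im_osc re_osc eventually_im_ne
  ne_neg_nat_of_im logDeriv_refl order_refl Gammaℝ_ne_zero_of_im analyticAt_Gammaℝ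
  logDeriv_Gammaℝ_bound)
open Pool.Agent.Y772.FE (HH sp3_ne)

namespace Pool.Agent.N784.HC

variable {ι : Type} [Fintype ι]

theorem F_left_edgeM {R B : ℝ} (hR : 0 < R) {V : ℝ} {μ : ι → ℝ}
    (hν : ∀ i, 0 ≤ μ i ∧ μ i ≤ V) {F : ℂ → ℂ}
    (hF : FEm R μ F) (hB : ∀ s : ℂ, 3 / 2 ≤ s.re → ‖F s‖ ≤ B) (s : ℂ) (hs : s.re = -1 / 2) :
    ‖F s‖ ≤ B * R * ((1 + V) * ‖s + 3‖) ^ Fintype.card ι := by
  have hB0 : 0 ≤ B := (norm_nonneg _).trans (hB (3 / 2) (by norm_num))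
  obtain ⟨w, hw, hfe⟩ := fe_asymM hR hF
  have key : ∀ z : ℂ, z.re = -1 / 2 → z.im ≠ 0 →
      ‖F z‖ ≤ B * R * ((1 + V) * ‖z + 3‖) ^ Fintype.card ι := by
    intro z hz him
    rw [hfe z him, norm_mul]
    have e1 := norm_LXm hw hR hν hz him
    have e2 : ‖refl F z‖ ≤ B := by
      unfold H370.DL.refl
      rw [RCLike.norm_conj]
      apply hB
      rw [re_osc, hz]; norm_num
    calc ‖LXm w R μ z‖ * ‖refl F z‖ ≤
        (R * ((1 + V) * ‖z + 3‖) ^ Fintype.card ι) * B :=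
          mul_le_mul e1 e2 (norm_nonneg _) ((norm_nonneg _).trans e1)
      _ = _ := by ring
  have hsv : s = ((-1 / 2 : ℝ) : ℂ) + (s.im : ℂ) * I := by
    apply Complex.ext
    · simp [hs]
    · simp
  have hcont : Continuous F := hF.diff.continuous
  have h1 : Continuous (fun t : ℝ => ‖F (((-1 / 2 : ℝ) : ℂ) + (t : ℂ) * I)‖) := by fun_prop
  have h2 : Continuous (fun t : ℝ => B * R *
      ((1 + V) * ‖((-1 / 2 : ℝ) : ℂ) + (t : ℂ) * I + 3‖) ^ Fintype.card ι) := by fun_prop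
  have hfin : ({0} : Set ℝ).Finite := Set.finite_singleton _
  have h3 : ∀ t ∈ closure (({0} : Set ℝ)ᶜ),
      ‖F (((-1 / 2 : ℝ) : ℂ) + (t : ℂ) * I)‖ ≤
      B * R * ((1 + V) * ‖((-1 / 2 : ℝ) : ℂ) + (t : ℂ) * I + 3‖) ^ Fintype.card ι := by
    intro t ht
    refine closure_minimal ?_ (isClosed_le h1 h2) ht
    intro t ht
    have him : (((-1 / 2 : ℝ) : ℂ) + (t : ℂ) * I).im = t := by simp
    have hre : (((-1 / 2 : ℝ) : ℂ) + (t : ℂ) * I).re = -1 / 2 := by simp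
    refine key (((-1 / 2 : ℝ) : ℂ) + (t : ℂ) * I) hre ?_
    rw [him]
    exact ht
  have h4 : closure (({0} : Set ℝ)ᶜ) = univ := (hfin.countable.dense_compl ℝ).closure_eq
  have h5 := h3 s.im (by rw [h4]; trivial)
  rwa [← hsv] at h5

theorem HH_boundM {N P B V : ℝ} (hN : 1 ≤ N) (hP : 1 ≤ P) (hV : 0 ≤ V) {μ : ι → ℝ}
    (hν : ∀ i, 0 ≤ μ i ∧ μ i ≤ V) {F : ℂ → ℂ}
    (hF : FEm (N * P) μ F) (hB : ∀ s : ℂ, 3 / 2 ≤ s.re → ‖F s‖ ≤ B) (s : ℂ) (h1 : -1 / 2 ≤ s.re)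
    (h2 : s.re ≤ 3 / 2) :
    ‖HH P (Fintype.card ι) F s‖ ≤ B * N * (1 + V) ^ Fintype.card ι := by
  have hB0 : 0 ≤ B := (norm_nonneg _).trans (hB (3 / 2) (by norm_num))
  set d := Fintype.card ι with hd
  have hP0 : (0 : ℝ) < P := by linarith
  have hR : 0 < N * P := by positivity
  have hPC : (P : ℂ) ≠ 0 := by exact_mod_cast hP0.ne'
  have hV1 : 1 ≤ (1 + V) ^ d := one_le_pow₀ (by linarith)
  have hqn : ∀ z : ℂ, ‖(P : ℂ) ^ ((z - 3 / 2) / 2)‖ = P ^ ((z.re - 3 / 2) / 2) := by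
    intro z
    rw [Complex.norm_cpow_eq_rpow_re_of_pos hP0]
    congr 1
    have : ((z - 3 / 2) / 2).re = (z - 3 / 2).re / 2 := by simp
    rw [this, Complex.sub_re]; norm_num
  have hs3 : ∀ z : ℂ, ‖((z + 3) ^ d)⁻¹‖ = (‖z + 3‖ ^ d)⁻¹ := by
    intro z; rw [norm_inv, norm_pow]
  have hge1 : ∀ z : ℂ, -1 / 2 ≤ z.re → 1 ≤ ‖z + 3‖ := by
    intro z hz
    have h5 := (le_abs_self _).trans (Complex.abs_re_le_norm (z + 3))
    have h6 : (z + 3).re = z.re + 3 := by simp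
    rw [h6] at h5
    linarith
  refine PhragmenLindelof.vertical_strip (f := HH P d F) (a := -1 / 2) (b := 3 / 2) ?_ ?_ ?_ ?_ h1 h2
  · have hdd : DifferentiableOn ℂ (HH P d F) {z : ℂ | -3 < z.re} := by
      intro z hz
      have hz3 : (z + 3) ^ d ≠ 0 := pow_ne_zero _ (sp3_ne hz)
      apply DifferentiableAt.differentiableWithinAt
      unfold HH
      refine ((hF.diff z).mul ?_).mul ?_
      · exact DifferentiableAt.const_cpow (by fun_prop) (Or.inl hPC)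
      · exact DifferentiableAt.inv (by fun_prop) hz3
    apply DifferentiableOn.diffContOnCl
    apply hdd.mono
    refine (Complex.continuous_re.closure_preimage_subset _).trans ?_
    intro z hz
    have hz' : z.re ∈ closure (Ioo (-1 / 2 : ℝ) (3 / 2)) := hz
    rw [closure_Ioo (by norm_num)] at hz'
    have := hz'.1
    change -3 < z.re
    linarith
  · obtain ⟨k, hk⟩ := exists_nat_ge V
    obtain ⟨M, hM0, hM⟩ := inv_GGm_le hR (k := k) (μ := μ)
      (fun i => ⟨(hν i).1, (hν i).2.trans hk⟩)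
    obtain ⟨C, hC'⟩ := hF.vert (-1 / 2) (3 / 2)
    refine ⟨1, ?_, d * Real.pi, ?_⟩
    · rw [show ((3 : ℝ) / 2 - -1 / 2) = 2 by norm_num]
      linarith [Real.pi_gt_three]
    refine IsBigO.of_bound (M * C) ?_
    rw [eventually_inf_principal]
    have hev : ∀ᶠ z : ℂ in comap (abs ∘ Complex.im) atTop, 2 ≤ |z.im| :=
      (eventually_ge_atTop (2 : ℝ)).comap (abs ∘ Complex.im)
    filter_upwards [hev] with z hz1 hz2
    have hz2' : z.re ∈ Ioo (-1 / 2 : ℝ) (3 / 2) := hz2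
    have e1 := hM z hz2'.1.le hz2'.2.le hz1
    have e2 := hC' z hz2'.1.le hz2'.2.le (by linarith)
    have hz0 : z.im ≠ 0 := im_ne_of_one_le (by linarith)
    have hg := GGm_ne hR μ hz0
    have e4 : P ^ ((z.re - 3 / 2) / 2) ≤ 1 :=
      Real.rpow_le_one_of_one_le_of_nonpos hP (by linarith [hz2'.2])
    have e5 : (‖z + 3‖ ^ d)⁻¹ ≤ 1 :=
      inv_le_one_of_one_le₀ (one_le_pow₀ (hge1 z hz2'.1.le))
    have hC0' : 0 ≤ C := (norm_nonneg _).trans e2
    have e7 : F z = (GGm (N * P) μ z)⁻¹ * (GGm (N * P) μ z * F z) := by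
      rw [← mul_assoc, inv_mul_cancel₀ hg, one_mul]
    unfold HH
    rw [norm_mul, norm_mul, hqn, hs3, e7, norm_mul, Real.norm_eq_abs,
      abs_of_pos (Real.exp_pos _)]
    have e6 : Real.exp (d * Real.pi * |z.im|) ≤ Real.exp (d * Real.pi * Real.exp (1 * |z.im|)) := by
      apply Real.exp_le_exp.mpr
      apply mul_le_mul_of_nonneg_left _ (by positivity)
      rw [one_mul]
      linarith [Real.add_one_le_exp |z.im|]
    have hE := (Real.exp_pos (d * Real.pi * |z.im|)).le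
    calc ‖(GGm (N * P) μ z)⁻¹‖ * ‖GGm (N * P) μ z * F z‖ *
          P ^ ((z.re - 3 / 2) / 2) * (‖z + 3‖ ^ d)⁻¹
        ≤ (M * Real.exp (d * Real.pi * |z.im|)) * C * 1 * 1 := by gcongr
      _ = M * C * Real.exp (d * Real.pi * |z.im|) := by ring
      _ ≤ M * C * Real.exp (d * Real.pi * Real.exp (1 * |z.im|)) := by
          apply mul_le_mul_of_nonneg_left e6
          positivity
  · intro z hz
    have e1 := F_left_edgeM hR hν hF hB z hz
    rw [← hd] at e1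
    unfold HH
    rw [norm_mul, norm_mul, hqn, hs3, hz]
    have e2 : P ^ (((-1 : ℝ) / 2 - 3 / 2) / 2) = P⁻¹ := by
      rw [show ((-1 : ℝ) / 2 - 3 / 2) / 2 = -1 by norm_num, Real.rpow_neg_one]
    rw [e2]
    have e4 : 0 < ‖z + 3‖ ^ d := by
      have := hge1 z (by rw [hz])
      positivity
    calc ‖F z‖ * P⁻¹ * (‖z + 3‖ ^ d)⁻¹
        ≤ (B * (N * P) * ((1 + V) * ‖z + 3‖) ^ d) * P⁻¹ * (‖z + 3‖ ^ d)⁻¹ := by gcongr
      _ = B * N * (1 + V) ^ d := by
        rw [mul_pow]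
        field_simp
  · intro z hz
    have e1 := hB z (by rw [hz])
    unfold HH
    rw [norm_mul, norm_mul, hqn, hs3, hz, sub_self, zero_div, Real.rpow_zero, mul_one]
    have e4 : 1 ≤ ‖z + 3‖ ^ d := one_le_pow₀ (hge1 z (by rw [hz]; norm_num))
    calc ‖F z‖ * (‖z + 3‖ ^ d)⁻¹ ≤ B * 1 := by
          apply mul_le_mul e1 (inv_le_one_of_one_le₀ e4) (by positivity) hB0
      _ ≤ B * N := by nlinarith
      _ ≤ B * N * (1 + V) ^ d := le_mul_of_one_le_right (by positivity) hV1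

theorem F_growthM {N Q B V : ℝ} (hN : 1 ≤ N) (hQ : 1 ≤ Q) (hB1 : 1 ≤ B) (hV : 0 ≤ V)
    {μ : ι → ℝ} (hν : ∀ i, 0 ≤ μ i ∧ μ i ≤ V) {F : ℂ → ℂ} (hF : FEm (N * Q ^ Fintype.card ι) μ F)
    (hB : ∀ s : ℂ, 3 / 2 ≤ s.re → ‖F s‖ ≤ B) {A : ℝ}
    (hA : Fintype.card ι + B * N * (1 + V) ^ Fintype.card ι * 6 ^ Fintype.card ι ≤ A)
    (s : ℂ) (h1 : (1 / 16 : ℝ) ≤ s.re) (h3 : 1 ≤ s.im) :
    ‖F s‖ ≤ A * (Q * s.im) ^ A := by
  set d := Fintype.card ι with hd
  have hV1 : 1 ≤ (1 + V) ^ d := one_le_pow₀ (by linarith)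
  have hBN0 : 1 ≤ B * N := by nlinarith
  set BN : ℝ := B * N * (1 + V) ^ d with hBNdef
  have hBN : 1 ≤ BN := by
    rw [hBNdef]
    nlinarith
  have hBBN : B ≤ BN := by
    have h4 : B ≤ B * N := by nlinarith
    have h5 : B * N ≤ BN := le_mul_of_one_le_right (by linarith) hV1
    linarith
  have hQ0 : (0 : ℝ) < Q := by linarith
  have hqt : 1 ≤ Q * s.im := by nlinarith
  have hP : 1 ≤ Q ^ d := one_le_pow₀ hQ
  have hP0 : 0 < Q ^ d := by positivity
  have hc0 : 0 ≤ BN * 6 ^ d := by positivity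
  have hAd : (d : ℝ) ≤ A := by linarith
  have hpow : (Q * s.im) ^ d ≤ (Q * s.im) ^ A := by
    rw [← Real.rpow_natCast]
    exact Real.rpow_le_rpow_of_exponent_le hqt hAd
  have key : ‖F s‖ ≤ BN * 6 ^ d * (Q * s.im) ^ d := by
    rcases le_total s.re (3 / 2) with h | h
    · have e1 := HH_boundM hN hP hV hν hF hB s (by linarith) h
      rw [← hd, ← hBNdef] at e1
      unfold HH at e1
      rw [norm_mul, norm_mul, norm_inv, norm_pow, Complex.norm_cpow_eq_rpow_re_of_pos hP0] at e1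
      have hre : ((s - 3 / 2) / 2).re = (s.re - 3 / 2) / 2 := by
        have : ((s - 3 / 2) / 2).re = (s - 3 / 2).re / 2 := by simp
        rw [this, Complex.sub_re]; norm_num
      rw [hre] at e1
      have e2 : 0 < ‖s + 3‖ ^ d := by
        have : s + 3 ≠ 0 := sp3_ne (by linarith)
        positivity
      have e3 : ‖s + 3‖ ^ d ≤ (6 * s.im) ^ d := by
        apply pow_le_pow_left₀ (norm_nonneg _)
        refine (norm_le_abs_re_add_abs_im _).trans ?_
        have hre' : (s + 3).re = s.re + 3 := by simp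
        have him' : (s + 3).im = s.im := by simp
        rw [hre', him', abs_of_nonneg (by linarith), abs_of_nonneg (by linarith)]
        linarith
      have e4 : (Q ^ d)⁻¹ ≤ (Q ^ d) ^ ((s.re - 3 / 2) / 2) := by
        rw [← Real.rpow_neg_one (Q ^ d)]
        apply Real.rpow_le_rpow_of_exponent_le hP
        linarith
      have e5 : ‖F s‖ * (Q ^ d)⁻¹ * (‖s + 3‖ ^ d)⁻¹ ≤ BN := by
        refine le_trans ?_ e1
        gcongr
      have e6 : ‖F s‖ ≤ BN * (‖s + 3‖ ^ d) * Q ^ d := by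
        have : ‖F s‖ = (‖F s‖ * (Q ^ d)⁻¹ * (‖s + 3‖ ^ d)⁻¹) * (‖s + 3‖ ^ d) * Q ^ d := by
          have e2' := e2.ne'
          generalize ‖s + 3‖ ^ d = M at e2' ⊢
          field_simp
        rw [this]
        gcongr
      calc ‖F s‖ ≤ BN * (‖s + 3‖ ^ d) * Q ^ d := e6
        _ ≤ BN * ((6 * s.im) ^ d) * Q ^ d := by gcongr
        _ = BN * 6 ^ d * (Q * s.im) ^ d := by rw [mul_pow, mul_pow]; ring
    · have e1 := hB s h
      have e2 : 1 ≤ (Q * s.im) ^ d := one_le_pow₀ hqt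
      have e3 : B ≤ BN * 6 ^ d := by
        have h5 : (1 : ℝ) ≤ 6 ^ d := one_le_pow₀ (by norm_num)
        nlinarith
      nlinarith
  calc ‖F s‖ ≤ BN * 6 ^ d * (Q * s.im) ^ d := key
    _ ≤ A * (Q * s.im) ^ A := by
      have : (0 : ℝ) ≤ d := Nat.cast_nonneg d
      apply mul_le_mul (by linarith) hpow (by positivity) (by linarith)

theorem F_leftM {C : ℝ} (hC : ∀ z : ℂ, -1 / 2 ≤ z.re → z.re ≤ 6 → 1 ≤ |z.im| →
    ‖logDeriv Gammaℝ z - 1 / 2 * Real.log |z.im|‖ ≤ C) {N Q : ℝ} (hN : 1 ≤ N) (hQ : 1 ≤ Q)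
    {k : ℕ} {μ : ι → ℝ} (hν : ∀ i, 0 ≤ μ i ∧ μ i ≤ k) {F : ℂ → ℂ}
    (hF : FEm (N * Q ^ Fintype.card ι) μ F)
    (s : ℂ) (h1 : -3 / 4 ≤ s.re) (h2 : s.re ≤ 1 / 2) (h3 : 1 ≤ s.im) (h4 : F s ≠ 0) :
    ‖deriv F s / F s + (((Fintype.card ι : ℝ) * Real.log (Q * s.im) : ℝ) : ℂ) +
        (starRingEnd ℂ) (deriv F (1 - (starRingEnd ℂ) s) / F (1 - (starRingEnd ℂ) s))‖ ≤
      Real.log N + Fintype.card ι * (C + 1 + k) + Fintype.card ι * (C + 1 + k) := by
  set d := Fintype.card ι with hd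
  have hs : s.im ≠ 0 := by linarith
  have hQ0 : (0 : ℝ) < Q := by linarith
  have hR : 0 < N * Q ^ d := by positivity
  obtain ⟨w, hw, hfe⟩ := fe_asymM hR hF
  have hw0 : w ≠ 0 := by
    intro h
    rw [h, norm_zero] at hw
    exact zero_ne_one hw
  have hdiff : Differentiable ℂ F := hF.diff
  have ha : AnalyticAt ℂ F (1 - (starRingEnd ℂ) s) :=
    (hdiff.differentiableOn).analyticAt Filter.univ_mem
  have e1 : F =ᶠ[𝓝 s] fun z => LXm w (N * Q ^ d) μ z * refl F z := by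
    filter_upwards [eventually_im_ne hs] with z hz
    exact hfe z hz
  have hr : refl F s ≠ 0 := by
    intro h
    apply h4
    rw [hfe s hs, h, mul_zero]
  have e2 : logDeriv F s = logDeriv (LXm w (N * Q ^ d) μ) s + logDeriv (refl F) s := by
    rw [(logDeriv_congr_nhds e1).eq_of_nhds]
    exact logDeriv_mul s (LXm_ne hw0 hR μ hs) hr (LXm_an w hR μ hs).differentiableAt
      (analyticAt_refl ha).differentiableAt
  rw [logDeriv_refl ha.differentiableAt, logDeriv_LXm hw0 hR μ hs] at e2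
  change ‖logDeriv F s + (((d : ℝ) * Real.log (Q * s.im) : ℝ) : ℂ) +
    (starRingEnd ℂ) (logDeriv F (1 - (starRingEnd ℂ) s))‖ ≤ _
  rw [e2]
  have i1 : |(1 - s).im| = s.im := by
    have : (1 - s).im = -s.im := by simp
    rw [this, abs_neg, abs_of_nonneg (by linarith)]
  have i2 : |s.im| = s.im := abs_of_nonneg (by linarith)
  have b1 := GGm_est hC hR (μ := μ) (k := k) hν (s := 1 - s) (by simp; linarith)
    (by simp; linarith) (by rw [i1]; exact h3)
  have b2 := GGm_est hC hR (μ := μ) (k := k) hν (s := s) h1 (by linarith)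
    (by rw [i2]; exact h3)
  rw [i1] at b1
  rw [i2] at b2
  rw [← hd] at b1 b2
  have hlogR : Real.log (N * Q ^ d) = Real.log N + d * Real.log Q := by
    rw [Real.log_mul (by linarith) (by positivity), Real.log_pow]
  have hlogq : Real.log (Q * s.im) = Real.log Q + Real.log s.im :=
    Real.log_mul hQ0.ne' hs
  rw [hlogR] at b1 b2
  set G1 := logDeriv (GGm (N * Q ^ d) μ) (1 - s) with hG1
  set G2 := logDeriv (GGm (N * Q ^ d) μ) s with hG2
  have e3 : -G1 - G2 + -(starRingEnd ℂ) (logDeriv F (1 - (starRingEnd ℂ) s)) +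
        (((d : ℝ) * Real.log (Q * s.im) : ℝ) : ℂ) +
      (starRingEnd ℂ) (logDeriv F (1 - (starRingEnd ℂ) s)) =
      -((Real.log N : ℝ) : ℂ) -
        (G1 - (((Real.log N + d * Real.log Q) / 2 + d * (1 / 2 * Real.log s.im) : ℝ) : ℂ)) -
      (G2 - (((Real.log N + d * Real.log Q) / 2 + d * (1 / 2 * Real.log s.im) : ℝ) : ℂ)) := by
    rw [hlogq]
    push_cast
    ring
  rw [e3]
  refine (norm_sub_le _ _).trans ?_
  have n1 := norm_sub_le (-((Real.log N : ℝ) : ℂ))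
    (G1 - (((Real.log N + d * Real.log Q) / 2 + d * (1 / 2 * Real.log s.im) : ℝ) : ℂ))
  rw [norm_neg, Complex.norm_real, Real.norm_of_nonneg (Real.log_nonneg hN)] at n1
  linarith

/-- FEM -/
theorem t_fem : StFEm := by
  intro ι _ _ N hN B hB1 V hV
  obtain ⟨C, hC0, hC⟩ := logDeriv_Gammaℝ_bound
  obtain ⟨k, hk⟩ := exists_nat_ge V
  set d := Fintype.card ι with hd
  have hd0 : (0 : ℝ) ≤ d := Nat.cast_nonneg d
  have hk0 : (0 : ℝ) ≤ k := Nat.cast_nonneg k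
  have hV1 : 1 ≤ (1 + V) ^ d := one_le_pow₀ (by linarith)
  have hc0 : 1 ≤ B * N * (1 + V) ^ d * 6 ^ d := by
    have h5 : (1 : ℝ) ≤ 6 ^ d := one_le_pow₀ (by norm_num)
    have h4 : 1 ≤ B * N := by nlinarith
    have h6 : 1 ≤ B * N * (1 + V) ^ d := by nlinarith
    nlinarith
  have hl0 : 0 ≤ Real.log N := Real.log_nonneg hN
  have hdC : 0 ≤ (d : ℝ) * (C + 1 + k) := mul_nonneg hd0 (by linarith)
  refine ⟨(d + B * N * (1 + V) ^ d * 6 ^ d) +
    (Real.log N + d * (C + 1 + k) + d * (C + 1 + k)), by linarith, ?_⟩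
  intro Q hQ μ F hν hF hB hnz
  have hν' : ∀ i, 0 ≤ μ i ∧ μ i ≤ (k : ℝ) := fun i => ⟨(hν i).1, (hν i).2.trans hk⟩
  have hR : 0 < N * Q ^ d := by positivity
  obtain ⟨w, hw, hfe⟩ := fe_asymM hR hF
  have hw0 : w ≠ 0 := by
    intro h
    rw [h, norm_zero] at hw
    exact zero_ne_one hw
  have hGd : ∀ s : ℂ, 1 ≤ s.im → s.im ≠ 0 := fun s hs h => by linarith
  refine ⟨?_, ?_, ?_, ?_⟩
  · intro s h1 _ h3
    exact F_growthM hN hQ hB1 hV hν hF hB (by rw [← hd]; linarith) s h1 h3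
  · intro s h1 h3
    rw [hfe s (hGd s h3)]
    refine mul_ne_zero (LXm_ne hw0 hR μ (hGd s h3)) ?_
    unfold H370.DL.refl
    rw [map_ne_zero]
    apply hnz
    · rw [re_osc]; linarith
    · rw [im_osc]; exact h3
  · intro s _ _ h3
    have ha : AnalyticAt ℂ F (1 - (starRingEnd ℂ) s) := hF.diff.analyticAt _
    have h1 : F =ᶠ[𝓝 s] (LXm w (N * Q ^ d) μ) * refl F := by
      filter_upwards [eventually_im_ne (hGd s h3)] with z hz
      exact hfe z hz
    have hX := LXm_an w hR μ (hGd s h3)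
    rw [analyticOrderAt_congr h1, analyticOrderAt_mul hX (analyticAt_refl ha),
      hX.analyticOrderAt_eq_zero.mpr (LXm_ne hw0 hR μ (hGd s h3)), zero_add, order_refl ha]
  · intro s h1 h2' h3 h4
    have h5 := F_leftM hC hN hQ hν' hF s h1 h2' h3 h4
    rw [← hd] at h5
    linarith

end Pool.Agent.N784.HC
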