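import Pool.Agent.N784.HC.Def
import Pool.Agent.Y772.HC.Gam

/-!
# Gamma factors with real shifts (helper784; adapted from `Pool.Agent.Y772.HC.Gam`)
-/

set_option autoImplicit false

open Complex Filter Topology Set MeasureTheory Asymptotics
open H370.DL (refl hasDerivAt_refl analyticAt_refl im_osc re_osc eventually_im_ne
  ne_neg_nat_of_im logDeriv_refl order_refl Gammaℝ_ne_zero_of_im analyticAt_Gammaℝ
  logDeriv_Gammaℝ_bound)
open Pool.Agent.W820.TW (inv_Gamma_le conj_real_cpow)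
open Pool.Agent.Y772.FE (cpow_R_ne an_R conj_Gammaℝ inv_Gammaℝ_le norm_Gammaℝ_edge)
open Pool.Agent.Y772.HC (logDeriv_left)

namespace Pool.Agent.N784.HC

variable {ι : Type} [Fintype ι]

lemma im_addr (s : ℂ) (t : ℝ) : (s + (t : ℂ)).im = s.im := by simp

lemma re_addr (s : ℂ) (t : ℝ) : (s + (t : ℂ)).re = s.re + t := by simp

lemma GGm_ne {R : ℝ} (hR : 0 < R) (μ : ι → ℝ) {s : ℂ} (hs : s.im ≠ 0) : GGm R μ s ≠ 0 := by
  unfold GGm
  refine mul_ne_zero (cpow_R_ne hR _) (Finset.prod_ne_zero_iff.2 fun i _ => ?_)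
  exact Gammaℝ_ne_zero_of_im (by rw [im_addr]; exact hs)

lemma an_GamM (t : ℝ) {s : ℂ} (hs : s.im ≠ 0) :
    AnalyticAt ℂ (fun z : ℂ => Gammaℝ (z + (t : ℂ))) s := by
  have h1 : AnalyticAt ℂ (fun z : ℂ => z + (t : ℂ)) s := by fun_prop
  exact (analyticAt_Gammaℝ (by rwa [im_addr])).fun_comp h1

lemma GGm_an {R : ℝ} (hR : 0 < R) (μ : ι → ℝ) {s : ℂ} (hs : s.im ≠ 0) :
    AnalyticAt ℂ (GGm R μ) s := by
  have h1 : AnalyticAt ℂ (fun z : ℂ => ∏ i, Gammaℝ (z + μ i)) s :=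
    Finset.analyticAt_fun_prod _ fun i _ => an_GamM (μ i) hs
  exact (an_R hR s).mul h1

lemma conj_GGm {R : ℝ} (hR : 0 < R) (μ : ι → ℝ) (z : ℂ) :
    (starRingEnd ℂ) (GGm R μ z) = GGm R μ ((starRingEnd ℂ) z) := by
  unfold GGm
  rw [map_mul, conj_real_cpow hR, map_prod]
  congr 1
  · simp only [map_div₀, map_ofNat]
  · refine Finset.prod_congr rfl fun i _ => ?_
    rw [conj_Gammaℝ]
    congr 1
    simp only [map_add, conj_ofReal]

/-- the factor of the asymmetric functional equation -/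
noncomputable def LXm (w : ℂ) (R : ℝ) (μ : ι → ℝ) (z : ℂ) : ℂ :=
  w * GGm R μ (1 - z) / GGm R μ z

lemma im_one_sub {s : ℂ} (hs : s.im ≠ 0) : (1 - s).im ≠ 0 := by
  have : (1 - s).im = -s.im := by simp
  rw [this]
  exact neg_ne_zero.mpr hs

lemma LXm_ne {w : ℂ} (hw : w ≠ 0) {R : ℝ} (hR : 0 < R) (μ : ι → ℝ) {s : ℂ}
    (hs : s.im ≠ 0) : LXm w R μ s ≠ 0 :=
  div_ne_zero (mul_ne_zero hw (GGm_ne hR μ (im_one_sub hs))) (GGm_ne hR μ hs)

lemma LXm_an (w : ℂ) {R : ℝ} (hR : 0 < R) (μ : ι → ℝ) {s : ℂ} (hs : s.im ≠ 0) :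
    AnalyticAt ℂ (LXm w R μ) s := by
  have h0 : AnalyticAt ℂ (fun z : ℂ => 1 - z) s := by fun_prop
  have h1 : AnalyticAt ℂ (fun z : ℂ => GGm R μ (1 - z)) s :=
    (GGm_an hR μ (im_one_sub hs)).fun_comp h0
  exact (analyticAt_const.mul h1).div (GGm_an hR μ hs) (GGm_ne hR μ hs)

theorem fe_asymM {R : ℝ} (hR : 0 < R) {μ : ι → ℝ} {F : ℂ → ℂ} (hF : FEm R μ F) :
    ∃ w : ℂ, ‖w‖ = 1 ∧ ∀ z : ℂ, z.im ≠ 0 → F z = LXm w R μ z * refl F z := by
  obtain ⟨w, hw, h⟩ := hF.fe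
  refine ⟨w, hw, fun z hz => ?_⟩
  have h1 := h z hz
  rw [map_mul, conj_GGm hR] at h1
  have e1 : (starRingEnd ℂ) (1 - (starRingEnd ℂ) z) = 1 - z := by simp
  rw [e1] at h1
  have hg := GGm_ne hR μ hz
  unfold LXm H370.DL.refl
  field_simp
  linear_combination h1

/-! ### logarithmic derivatives -/

lemma logDeriv_GGm {R : ℝ} (hR : 0 < R) (μ : ι → ℝ) {s : ℂ} (hs : s.im ≠ 0) :
    logDeriv (GGm R μ) s =
      (Real.log R : ℂ) / 2 + ∑ i, logDeriv Gammaℝ (s + μ i) := by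
  have hRc : (R : ℂ) ≠ 0 := ofReal_ne_zero.mpr hR.ne'
  have h1 : logDeriv (fun z : ℂ => (R : ℂ) ^ (z / 2)) s = (Real.log R : ℂ) / 2 := by
    have h2 : HasDerivAt (fun z : ℂ => (R : ℂ) ^ (z / 2))
        ((R : ℂ) ^ (s / 2) * Complex.log (R : ℂ) * (1 / 2)) s :=
      ((hasDerivAt_id s).div_const 2).const_cpow (Or.inl hRc)
    rw [logDeriv_apply, h2.deriv, ← Complex.ofReal_log hR.le]
    have := cpow_R_ne hR (s / 2)
    field_simp
  have h3 : ∀ i, logDeriv (fun z : ℂ => Gammaℝ (z + μ i)) s =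
      logDeriv Gammaℝ (s + μ i) := by
    intro i
    have ha : DifferentiableAt ℂ Gammaℝ (s + μ i) :=
      (analyticAt_Gammaℝ (by rw [im_addr]; exact hs)).differentiableAt
    have hb : HasDerivAt (fun z : ℂ => z + (μ i : ℂ)) 1 s :=
      (hasDerivAt_id s).add_const _
    have hc : HasDerivAt (fun z : ℂ => Gammaℝ (z + μ i))
        (deriv Gammaℝ (s + μ i)) s := by
      simpa [Function.comp_def] using HasDerivAt.comp s ha.hasDerivAt hb
    rw [logDeriv_apply, hc.deriv, logDeriv_apply]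
  have h4 : logDeriv (fun z : ℂ => ∏ i, Gammaℝ (z + μ i)) s =
      ∑ i, logDeriv (fun z : ℂ => Gammaℝ (z + μ i)) s :=
    logDeriv_prod (f := fun i (z : ℂ) => Gammaℝ (z + μ i))
      (fun i _ => Gammaℝ_ne_zero_of_im (by rw [im_addr]; exact hs))
      (fun i _ => (an_GamM (μ i) hs).differentiableAt)
  have h5 : logDeriv (GGm R μ) s = logDeriv (fun z : ℂ => (R : ℂ) ^ (z / 2)) s +
      logDeriv (fun z : ℂ => ∏ i, Gammaℝ (z + μ i)) s := by
    refine logDeriv_mul s (cpow_R_ne hR _) ?_ (an_R hR s).differentiableAt ?_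
    · exact Finset.prod_ne_zero_iff.2 fun i _ =>
        Gammaℝ_ne_zero_of_im (by rw [im_addr]; exact hs)
    · exact (Finset.analyticAt_fun_prod _ fun i _ => an_GamM (μ i) hs).differentiableAt
  rw [h5, h1, h4, Finset.sum_congr rfl fun i _ => h3 i]

lemma logDeriv_LXm {w : ℂ} (hw : w ≠ 0) {R : ℝ} (hR : 0 < R) (μ : ι → ℝ) {s : ℂ}
    (hs : s.im ≠ 0) : logDeriv (LXm w R μ) s =
      -logDeriv (GGm R μ) (1 - s) - logDeriv (GGm R μ) s := by
  have h0 := GGm_ne hR μ (im_one_sub hs)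
  have h0' := GGm_ne hR μ hs
  have hd1 := (GGm_an hR μ (im_one_sub hs)).differentiableAt.hasDerivAt
  have hd2 := (GGm_an hR μ hs).differentiableAt.hasDerivAt
  have hd3 : HasDerivAt (fun z : ℂ => GGm R μ (1 - z))
      (deriv (GGm R μ) (1 - s) * (-1)) s :=
    HasDerivAt.comp s hd1 ((hasDerivAt_id s).const_sub 1)
  have hd4 := ((hd3.const_mul w).div hd2 h0')
  have e4 : deriv (LXm w R μ) s = _ := hd4.deriv
  rw [logDeriv_apply, e4, logDeriv_apply, logDeriv_apply, LXm]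
  generalize GGm R μ (1 - s) = G1 at *
  generalize GGm R μ s = G2 at *
  field_simp

/-- the shift by two -/
lemma logDeriv_shift {z : ℂ} (hz : z.im ≠ 0) :
    logDeriv Gammaℝ (z + 2) = logDeriv Gammaℝ z + 1 / z := by
  have hz0 : z ≠ 0 := by
    rintro rfl
    exact hz rfl
  have him : (z + 2).im = z.im := by simp
  have e1 : Gammaℝ =ᶠ[𝓝 z] fun w => Gammaℝ (w + 2) * (2 * Real.pi / w) := by
    filter_upwards [eventually_im_ne hz] with w hw
    have hw0 : w ≠ 0 := by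
      rintro rfl
      exact hw rfl
    rw [Gammaℝ_add_two hw0]
    have : (Real.pi : ℂ) ≠ 0 := by exact_mod_cast Real.pi_pos.ne'
    field_simp
  have hd1 : HasDerivAt (fun w : ℂ => Gammaℝ (w + 2)) (deriv Gammaℝ (z + 2)) z := by
    have ha : DifferentiableAt ℂ Gammaℝ (z + 2) :=
      (analyticAt_Gammaℝ (by rwa [him])).differentiableAt
    have hb : HasDerivAt (fun w : ℂ => w + 2) 1 z := (hasDerivAt_id z).add_const _
    simpa [Function.comp_def] using HasDerivAt.comp z ha.hasDerivAt hb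
  have hd2 : HasDerivAt (fun w : ℂ => 2 * (Real.pi : ℂ) / w) (-(2 * Real.pi) / z ^ 2) z := by
    have := (hasDerivAt_inv hz0).const_mul (2 * (Real.pi : ℂ))
    refine (this.congr_deriv ?_).congr_of_eventuallyEq ?_
    · field_simp
    · exact Eventually.of_forall fun w => by simp [div_eq_mul_inv]
  have e3 : deriv (fun w : ℂ => Gammaℝ (w + 2) * (2 * Real.pi / w)) z = _ := (hd1.mul hd2).deriv
  rw [(logDeriv_congr_nhds e1).eq_of_nhds, logDeriv_apply, logDeriv_apply, e3]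
  have h4 : Gammaℝ (z + 2) ≠ 0 := Gammaℝ_ne_zero_of_im (by rwa [him])
  have h5 : (Real.pi : ℂ) ≠ 0 := by exact_mod_cast Real.pi_pos.ne'
  field_simp
  ring

lemma norm_one_div_le {z : ℂ} (h : 1 ≤ |z.im|) : ‖1 / z‖ ≤ 1 := by
  rw [norm_div, norm_one]
  exact div_le_one_of_le₀ (h.trans (abs_im_le_norm z)) (norm_nonneg _)

lemma im_ne_of_one_le {z : ℂ} (h : 1 ≤ |z.im|) : z.im ≠ 0 := by
  intro h1
  rw [h1, abs_zero] at h
  linarith

/-- the logarithmic derivative of `Γ_ℝ` in a wide strip -/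
lemma logDeriv_wide {C : ℝ} (hC : ∀ z : ℂ, -1 / 2 ≤ z.re → z.re ≤ 6 → 1 ≤ |z.im| →
    ‖logDeriv Gammaℝ z - 1 / 2 * Real.log |z.im|‖ ≤ C) (k : ℕ) : ∀ {z : ℂ}, -3 / 4 ≤ z.re →
    z.re ≤ 4 + 2 * k → 1 ≤ |z.im| →
    ‖logDeriv Gammaℝ z - 1 / 2 * Real.log |z.im|‖ ≤ C + 1 + k := by
  induction k with
  | zero =>
    intro z h1 h2 h3
    have := logDeriv_left hC h1 (by simpa using h2) h3
    simpa using this
  | succ k ih =>
    intro z h1 h2 h3
    push_cast at h2 ⊢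
    rcases le_total z.re (4 + 2 * k) with h | h
    · have := ih h1 h h3
      linarith
    · have hk : (0 : ℝ) ≤ k := Nat.cast_nonneg k
      have hre : (z - 2).re = z.re - 2 := by simp
      have him : (z - 2).im = z.im := by simp
      have h4 := ih (z := z - 2) (by rw [hre]; linarith) (by rw [hre]; linarith) (by rwa [him])
      have h5 := logDeriv_shift (z := z - 2) (by rw [him]; exact im_ne_of_one_le h3)
      rw [sub_add_cancel] at h5
      rw [him] at h4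
      rw [h5]
      have h6 := norm_one_div_le (z := z - 2) (by rwa [him])
      calc ‖logDeriv Gammaℝ (z - 2) + 1 / (z - 2) - 1 / 2 * Real.log |z.im|‖
          = ‖(logDeriv Gammaℝ (z - 2) - 1 / 2 * Real.log |z.im|) + 1 / (z - 2)‖ := by
            congr 1; ring
        _ ≤ ‖logDeriv Gammaℝ (z - 2) - 1 / 2 * Real.log |z.im|‖ + ‖1 / (z - 2)‖ := norm_add_le _ _
        _ ≤ (C + 1 + k) + 1 := add_le_add h4 h6
        _ = C + 1 + (k + 1) := by ring

/-- the reciprocal of `Γ_ℝ` in a wide strip -/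
lemma inv_wide {M : ℝ} (hM0 : 0 ≤ M) (hM : ∀ z : ℂ, -1 / 2 ≤ z.re → z.re ≤ 5 / 2 → 2 ≤ |z.im| →
    ‖(Gammaℝ z)⁻¹‖ ≤ M * Real.exp (Real.pi * |z.im|)) (k : ℕ) : ∀ {z : ℂ}, -1 / 2 ≤ z.re →
    z.re ≤ 5 / 2 + 2 * k → 2 ≤ |z.im| →
    ‖(Gammaℝ z)⁻¹‖ ≤ M * (2 * Real.pi) ^ k * Real.exp (Real.pi * |z.im|) := by
  induction k with
  | zero =>
    intro z h1 h2 h3
    have := hM z h1 (by simpa using h2) h3
    simpa using this
  | succ k ih =>
    intro z h1 h2 h3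
    push_cast at h2
    have h2p : (1 : ℝ) ≤ 2 * Real.pi := by linarith [Real.pi_gt_three]
    rcases le_total z.re (5 / 2 + 2 * k) with h | h
    · refine (ih h1 h h3).trans ?_
      have : (2 * Real.pi) ^ k ≤ (2 * Real.pi) ^ (k + 1) := pow_le_pow_right₀ h2p (Nat.le_succ k)
      gcongr
    · have hk : (0 : ℝ) ≤ k := Nat.cast_nonneg k
      have hre : (z - 2).re = z.re - 2 := by simp
      have him : (z - 2).im = z.im := by simp
      have h4 := ih (z := z - 2) (by rw [hre]; linarith) (by rw [hre]; linarith) (by rwa [him])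
      rw [him] at h4
      have hz0 : z - 2 ≠ 0 := by
        intro h0
        have := congrArg Complex.im h0
        rw [him, Complex.zero_im] at this
        rw [this, abs_zero] at h3
        linarith
      have h5 : Gammaℝ z = Gammaℝ (z - 2) * (z - 2) / 2 / Real.pi := by
        rw [← Gammaℝ_add_two hz0, sub_add_cancel]
      have h6 := norm_one_div_le (z := z - 2) (by rw [him]; linarith)
      have h7 : (Gammaℝ z)⁻¹ = (Gammaℝ (z - 2))⁻¹ * (1 / (z - 2)) * (2 * Real.pi) := by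
        have : (Real.pi : ℂ) ≠ 0 := by exact_mod_cast Real.pi_pos.ne'
        rw [h5]
        field_simp
      rw [h7, norm_mul, norm_mul]
      have h8 : ‖(2 * Real.pi : ℂ)‖ = 2 * Real.pi := by
        rw [norm_mul, Complex.norm_real, Real.norm_of_nonneg Real.pi_pos.le]
        simp
      rw [h8]
      calc ‖(Gammaℝ (z - 2))⁻¹‖ * ‖1 / (z - 2)‖ * (2 * Real.pi)
          ≤ (M * (2 * Real.pi) ^ k * Real.exp (Real.pi * |z.im|)) * 1 * (2 * Real.pi) := by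
            gcongr
        _ = _ := by ring

/-- the estimate of the logarithmic derivative of the gamma factor -/
lemma GGm_est {C : ℝ} (hC : ∀ z : ℂ, -1 / 2 ≤ z.re → z.re ≤ 6 → 1 ≤ |z.im| →
    ‖logDeriv Gammaℝ z - 1 / 2 * Real.log |z.im|‖ ≤ C) {R : ℝ} (hR : 0 < R) {k : ℕ} {μ : ι → ℝ}
    (he : ∀ i, 0 ≤ μ i ∧ μ i ≤ k) {s : ℂ} (h1 : -3 / 4 ≤ s.re) (h2 : s.re ≤ 7 / 4)
    (h3 : 1 ≤ |s.im|) :
    ‖logDeriv (GGm R μ) s -
      ((Real.log R / 2 + Fintype.card ι * (1 / 2 * Real.log |s.im|) : ℝ) : ℂ)‖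
      ≤ Fintype.card ι * (C + 1 + k) := by
  rw [logDeriv_GGm hR μ (im_ne_of_one_le h3)]
  have e1 : (Real.log R : ℂ) / 2 + ∑ i, logDeriv Gammaℝ (s + μ i) -
      ((Real.log R / 2 + Fintype.card ι * (1 / 2 * Real.log |s.im|) : ℝ) : ℂ) =
      ∑ i, (logDeriv Gammaℝ (s + μ i) - 1 / 2 * Real.log |(s + μ i).im|) := by
    rw [Finset.sum_sub_distrib]
    simp only [im_addr]
    rw [Finset.sum_const, Finset.card_univ, nsmul_eq_mul]
    push_cast
    ring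
  rw [e1]
  have e2 : ∀ i ∈ (Finset.univ : Finset ι),
      ‖logDeriv Gammaℝ (s + μ i) - 1 / 2 * Real.log |(s + μ i).im|‖ ≤ C + 1 + k := by
    intro i _
    obtain ⟨h4, h5⟩ := he i
    have hk : (0 : ℝ) ≤ k := Nat.cast_nonneg k
    exact logDeriv_wide hC k (by rw [re_addr]; linarith) (by rw [re_addr]; linarith)
      (by rw [im_addr]; exact h3)
  refine (norm_sum_le_of_le _ e2).trans ?_
  rw [Finset.sum_const, Finset.card_univ, nsmul_eq_mul]

/-! ### the reciprocal of the gamma factor -/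

lemma inv_GGm_le {R : ℝ} (hR : 0 < R) {k : ℕ} {μ : ι → ℝ} (he : ∀ i, 0 ≤ μ i ∧ μ i ≤ k) :
    ∃ M : ℝ, 0 ≤ M ∧ ∀ z : ℂ, -1 / 2 ≤ z.re → z.re ≤ 3 / 2 → 2 ≤ |z.im| →
      ‖(GGm R μ z)⁻¹‖ ≤ M * Real.exp (Fintype.card ι * Real.pi * |z.im|) := by
  obtain ⟨M, hM0, hM⟩ := inv_Gammaℝ_le
  refine ⟨(R ^ (1 / 4 : ℝ) + R ^ (-(3 / 4) : ℝ)) * (M * (2 * Real.pi) ^ k) ^ Fintype.card ι,
    by positivity, fun z h1 h2 h3 => ?_⟩
  unfold GGm
  rw [mul_inv, norm_mul, ← Finset.prod_inv_distrib, norm_prod]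
  have e3 : ‖((R : ℂ) ^ (z / 2))⁻¹‖ ≤ R ^ (1 / 4 : ℝ) + R ^ (-(3 / 4) : ℝ) := by
    rw [norm_inv, Complex.norm_cpow_eq_rpow_re_of_pos hR, ← Real.rpow_neg hR.le]
    have hre : (z / 2).re = z.re / 2 := by simp
    rw [hre]
    rcases le_total 1 R with h | h
    · have := Real.rpow_le_rpow_of_exponent_le h (show -(z.re / 2) ≤ 1 / 4 by linarith)
      have h5 : 0 ≤ R ^ (-(3 / 4) : ℝ) := by positivity
      linarith
    · have := Real.rpow_le_rpow_of_exponent_ge hR h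
        (show (-(3 / 4) : ℝ) ≤ -(z.re / 2) by linarith)
      have h5 : 0 ≤ R ^ (1 / 4 : ℝ) := by positivity
      linarith
  have e4 : ∏ i, ‖(Gammaℝ (z + μ i))⁻¹‖ ≤
      ∏ _i : ι, (M * (2 * Real.pi) ^ k * Real.exp (Real.pi * |z.im|)) := by
    refine Finset.prod_le_prod (fun i _ => norm_nonneg _) fun i _ => ?_
    obtain ⟨h4, h5⟩ := he i
    have hk : (0 : ℝ) ≤ k := Nat.cast_nonneg k
    have h7 := inv_wide hM0 hM k (z := z + μ i) (by rw [re_addr]; linarith)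
      (by rw [re_addr]; linarith) (by rw [im_addr]; exact h3)
    rwa [im_addr] at h7
  rw [Finset.prod_const, Finset.card_univ, mul_pow, ← Real.exp_nat_mul (Real.pi * |z.im|)] at e4
  calc ‖((R : ℂ) ^ (z / 2))⁻¹‖ * ∏ i, ‖(Gammaℝ (z + μ i))⁻¹‖
      ≤ (R ^ (1 / 4 : ℝ) + R ^ (-(3 / 4) : ℝ)) * ((M * (2 * Real.pi) ^ k) ^ Fintype.card ι *
        Real.exp (Fintype.card ι * (Real.pi * |z.im|))) := by gcongr
    _ = _ := by rw [mul_assoc (Fintype.card ι : ℝ)]; ring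

/-! ### the line `Re s = -1/2` -/

lemma edge {s : ℂ} (hre : s.re = -1 / 2) (hs : s.im ≠ 0) {t V : ℝ} (ht : 0 ≤ t) (htV : t ≤ V) :
    ‖Gammaℝ (1 - s + t)‖ ≤ ‖Gammaℝ (s + t)‖ * ((1 + V) * ‖s + 3‖) := by
  have hst : s + t ≠ 0 := by
    intro h
    have := congrArg Complex.im h
    rw [im_addr, Complex.zero_im] at this
    exact hs this
  have h1 : (starRingEnd ℂ) (1 - s + t) = (s + t) + 2 := by
    apply Complex.ext
    · simp [hre]; ring
    · simp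
  have h2 : ‖Gammaℝ (1 - s + t)‖ = ‖Gammaℝ ((s + t) + 2)‖ := by
    rw [← h1, ← conj_Gammaℝ, RCLike.norm_conj]
  rw [h2, Gammaℝ_add_two hst, norm_div, norm_div, norm_mul]
  have h3 : ‖(Real.pi : ℂ)‖ = Real.pi := by
    rw [Complex.norm_real, Real.norm_of_nonneg Real.pi_pos.le]
  have h4 : ‖(2 : ℂ)‖ = 2 := by simp
  rw [h3, h4]
  have h5 : 5 / 2 ≤ ‖s + 3‖ := by
    have h5 := (le_abs_self _).trans (Complex.abs_re_le_norm (s + 3))
    have h6 : (s + 3).re = s.re + 3 := by simp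
    rw [h6, hre] at h5
    linarith
  have h6 : ‖s + t‖ ≤ ‖s + 3‖ + (V + 3) := by
    have : s + t = (s + 3) + ((t - 3 : ℝ) : ℂ) := by push_cast; ring
    rw [this]
    refine (norm_add_le _ _).trans ?_
    rw [Complex.norm_real, Real.norm_eq_abs]
    have : |t - 3| ≤ V + 3 := abs_le.mpr ⟨by linarith, by linarith⟩
    linarith
  rw [div_div, mul_div_assoc]
  refine mul_le_mul_of_nonneg_left ?_ (norm_nonneg _)
  rw [div_le_iff₀ (by positivity)]
  have hpi := Real.pi_gt_three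
  have h7 : ‖s + 3‖ + (V + 3) ≤ (1 + V) * ‖s + 3‖ * 6 := by nlinarith
  have h8 : (1 + V) * ‖s + 3‖ * 6 ≤ (1 + V) * ‖s + 3‖ * (2 * Real.pi) :=
    mul_le_mul_of_nonneg_left (by linarith) (mul_nonneg (by linarith) (norm_nonneg _))
  linarith

lemma norm_LXm {w : ℂ} (hw : ‖w‖ = 1) {R : ℝ} (hR : 0 < R) {V : ℝ} {μ : ι → ℝ}
    (he : ∀ i, 0 ≤ μ i ∧ μ i ≤ V) {s : ℂ} (hre : s.re = -1 / 2) (hs : s.im ≠ 0) :
    ‖LXm w R μ s‖ ≤ R * ((1 + V) * ‖s + 3‖) ^ Fintype.card ι := by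
  have h0 := GGm_ne hR μ hs
  unfold LXm
  rw [norm_div, norm_mul, hw, one_mul, div_le_iff₀ (norm_pos_iff.2 h0)]
  unfold GGm
  rw [norm_mul, norm_mul, norm_prod, norm_prod, Complex.norm_cpow_eq_rpow_re_of_pos hR,
    Complex.norm_cpow_eq_rpow_re_of_pos hR]
  have h1 : ((1 - s) / 2).re = 1 + (s / 2).re := by
    have a1 : ((1 - s) / 2).re = (1 - s.re) / 2 := by simp
    have a2 : (s / 2).re = s.re / 2 := by simp
    rw [a1, a2, hre]
    norm_num
  rw [h1, Real.rpow_add hR, Real.rpow_one]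
  have h2 : ∏ i, ‖Gammaℝ (1 - s + μ i)‖ ≤
      ∏ i, (‖Gammaℝ (s + μ i)‖ * ((1 + V) * ‖s + 3‖)) :=
    Finset.prod_le_prod (fun i _ => norm_nonneg _) fun i _ => edge hre hs (he i).1 (he i).2
  rw [Finset.prod_mul_distrib, Finset.prod_const, Finset.card_univ] at h2
  calc R * R ^ (s / 2).re * ∏ i, ‖Gammaℝ (1 - s + μ i)‖
      ≤ R * R ^ (s / 2).re * ((∏ i, ‖Gammaℝ (s + μ i)‖) *
        ((1 + V) * ‖s + 3‖) ^ Fintype.card ι) := by gcongr
    _ = _ := by ring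

end Pool.Agent.N784.HC
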