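import Pool.Agent.N784.HC.FT
import Pool.Agent.Y773.HG.Cls

/-! # The gaussian factor with a monomial (helper784) -/

set_option autoImplicit false
set_option linter.unusedSectionVars false

open NumberField Complex Filter Topology MeasureTheory

namespace Pool.Agent.N784.HC

open Pool.Agent.Y773 (G0 g0 lp el Idx)
open Pool.Agent.Y773.G (cj rr rr_sum rr_zero sum_rr_sq prod_emb sum_emb mk_cj cj_cj cj_apply av sum_cj prod_cj)

variable {K : Type} [Field K] [NumberField K]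

/-- an infinity type -/
def TypK (n : (K →+* ℂ) → ℕ) : Prop := Typ (cj (K := K)) n

/-- the gaussian factor -/
noncomputable def GM (n : (K →+* ℂ) → ℕ) (a : InfinitePlace K → ℝ) (x : K) : ℂ :=
  GZ cj n (fun φ => a (InfinitePlace.mk φ) * rr φ x)

lemma Zc_rr (a : InfinitePlace K → ℝ) (x : K) (φ : K →+* ℂ) :
    Zc cj φ (fun ψ => a (InfinitePlace.mk ψ) * rr ψ x) = a (InfinitePlace.mk φ) * φ x := by
  unfold Zc rr
  simp only
  rw [mk_cj, cj_apply, Complex.conj_re, Complex.conj_im]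
  have h : φ x = ((φ x).re : ℂ) + ((φ x).im : ℂ) * I := (Complex.re_add_im _).symm
  conv_rhs => rw [h]
  push_cast
  have hI : I * I = -1 := Complex.I_mul_I
  linear_combination (0 : ℂ) * hI

/-- the phase `∏ (φ(x)/|φ(x)|)^(n_φ)` -/
noncomputable def ph (n : (K →+* ℂ) → ℕ) (x : K) : ℂ := ∏ φ : K →+* ℂ, (φ x / (‖φ x‖ : ℂ)) ^ n φ

/-- its conjugate, the archimedean part of a Hecke character -/
noncomputable def kp (n : (K →+* ℂ) → ℕ) (x : K) : ℂ := (starRingEnd ℂ) (ph n x)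

/-- the type after conjugation -/
noncomputable def nc (n : (K →+* ℂ) → ℕ) (φ : K →+* ℂ) : ℕ := n (cj φ)

lemma nc_nc (n : (K →+* ℂ) → ℕ) : nc (nc n) = n := by
  funext φ
  unfold nc
  rw [cj_cj]

lemma TypK.nc {n : (K →+* ℂ) → ℕ} (h : TypK n) : TypK (nc n) where
  inv := cj_cj
  real φ hφ := by
    unfold HC.nc
    rw [hφ]
    exact h.real φ hφ
  cpx φ hφ := by
    unfold HC.nc
    rw [cj_cj]
    exact (h.cpx φ hφ).symm

lemma ph_mul (n : (K →+* ℂ) → ℕ) (x y : K) : ph n (x * y) = ph n x * ph n y := by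
  unfold ph
  rw [← Finset.prod_mul_distrib]
  refine Finset.prod_congr rfl fun φ _ => ?_
  rw [map_mul, norm_mul, ← mul_pow]
  congr 1
  push_cast
  rw [div_mul_div_comm]

lemma norm_ph (n : (K →+* ℂ) → ℕ) {x : K} (hx : x ≠ 0) : ‖ph n x‖ = 1 := by
  unfold ph
  rw [norm_prod]
  refine Finset.prod_eq_one fun φ _ => ?_
  have h1 : ‖φ x‖ ≠ 0 := by
    rw [norm_ne_zero_iff]
    exact (map_ne_zero φ).mpr hx
  rw [norm_pow, norm_div, Complex.norm_real, norm_norm, div_self h1, one_pow]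

lemma norm_ph_le (n : (K →+* ℂ) → ℕ) (x : K) : ‖ph n x‖ ≤ 1 := by
  unfold ph
  rw [norm_prod]
  refine Finset.prod_le_one (fun _ _ => norm_nonneg _) fun φ _ => ?_
  rw [norm_pow, norm_div, Complex.norm_real, norm_norm]
  exact pow_le_one₀ (by positivity) (div_self_le_one _)

lemma ph_nat (n : (K →+* ℂ) → ℕ) {k : ℕ} (hk : 0 < k) : ph n (k : K) = 1 := by
  unfold ph
  refine Finset.prod_eq_one fun φ _ => ?_
  have h1 : (k : ℂ) ≠ 0 := by exact_mod_cast hk.ne'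
  rw [map_natCast, Complex.norm_natCast]
  push_cast
  rw [div_self h1, one_pow]

lemma ph_conj (n : (K →+* ℂ) → ℕ) (x : K) : ph (nc n) x = (starRingEnd ℂ) (ph n x) := by
  unfold ph nc
  rw [← prod_cj (fun φ => (φ x / (‖φ x‖ : ℂ)) ^ n (cj φ)), map_prod]
  refine Finset.prod_congr rfl fun φ _ => ?_
  rw [cj_cj, cj_apply, map_pow, map_div₀, Complex.conj_ofReal, RCLike.norm_conj]

lemma kp_nc (n : (K →+* ℂ) → ℕ) (x : K) : kp (nc n) x = ph n x := by
  unfold kp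
  rw [ph_conj, Complex.conj_conj]

lemma kp_mul_ph (n : (K →+* ℂ) → ℕ) {x : K} (hx : x ≠ 0) : kp n x * ph n x = 1 := by
  unfold kp
  rw [mul_comm, Complex.mul_conj, Complex.normSq_eq_norm_sq, norm_ph n hx]
  simp

lemma kp_eq_inv (n : (K →+* ℂ) → ℕ) {x : K} (hx : x ≠ 0) : kp n x = (ph n x)⁻¹ :=
  eq_inv_of_mul_eq_one_left (kp_mul_ph n hx)

lemma kp_mul (n : (K →+* ℂ) → ℕ) (x y : K) : kp n (x * y) = kp n x * kp n y := by
  unfold kp
  rw [ph_mul, map_mul]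

lemma norm_kp (n : (K →+* ℂ) → ℕ) {x : K} (hx : x ≠ 0) : ‖kp n x‖ = 1 := by
  unfold kp
  rw [RCLike.norm_conj, norm_ph n hx]

/-- the total exponent at a place -/
noncomputable def NW (n : (K →+* ℂ) → ℕ) (w : InfinitePlace K) : ℕ := by
  classical exact if w.IsReal then n w.embedding else n w.embedding + n (cj w.embedding)

/-- `∏ √(mult w)^(N_w)` -/
noncomputable def dn (n : (K →+* ℂ) → ℕ) : ℝ :=
  ∏ w : InfinitePlace K, Real.sqrt (w.mult : ℝ) ^ NW n w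

lemma dn_pos (n : (K →+* ℂ) → ℕ) : 0 < dn n :=
  Finset.prod_pos fun w _ => pow_pos (Pool.Agent.Y773.G.sqrt_mult_pos w) _

open Classical in
lemma prod_pow_mk (n : (K →+* ℂ) → ℕ) (f : InfinitePlace K → ℝ) :
    ∏ φ : K →+* ℂ, f (InfinitePlace.mk φ) ^ n φ = ∏ w, f w ^ NW n w := by
  rw [prod_emb]
  refine Finset.prod_congr rfl fun w _ => ?_
  unfold NW
  split_ifs with hw
  · rw [w.mk_embedding]
  · rw [mk_cj, w.mk_embedding, pow_add]

/-- the gaussian factor in terms of the absolute values -/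
lemma GM_phase (n : (K →+* ℂ) → ℕ) (a : InfinitePlace K → ℝ) {x : 𝓞 K} (hx : x ≠ 0) :
    ((dn n : ℝ) : ℂ) * GM n a (x : K) =
      ph n (x : K) * ((G0 (NW n) (fun w => a w * av x w) : ℝ) : ℂ) := by
  have hx' : (x : K) ≠ 0 := RingOfIntegers.coe_ne_zero_iff.mpr hx
  unfold GM GZ
  simp_rw [Zc_rr]
  have e1 : ∏ φ : K →+* ℂ, ((a (InfinitePlace.mk φ) : ℂ) * φ (x : K)) ^ n φ =
      ph n (x : K) * ((∏ w, (a w * w (x : K)) ^ NW n w : ℝ) : ℂ) := by
    rw [← prod_pow_mk n (fun w => a w * w (x : K))]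
    unfold ph
    push_cast
    rw [← Finset.prod_mul_distrib]
    refine Finset.prod_congr rfl fun φ _ => ?_
    rw [← mul_pow]
    congr 1
    have h1 : ((‖φ (x : K)‖ : ℝ) : ℂ) ≠ 0 := by
      rw [Ne, Complex.ofReal_eq_zero, norm_eq_zero]
      exact (map_ne_zero φ).mpr hx'
    have h2 : (InfinitePlace.mk φ) (x : K) = ‖φ (x : K)‖ := rfl
    rw [h2]
    field_simp
  have e2 : ∑ φ : K →+* ℂ, (a (InfinitePlace.mk φ) * rr φ (x : K)) ^ 2 =
      ∑ w : InfinitePlace K, (a w * av x w) ^ 2 := by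
    simp_rw [mul_pow]
    rw [sum_rr_sq (fun w => a w ^ 2)]
    refine Finset.sum_congr rfl fun w _ => ?_
    unfold Pool.Agent.Y773.G.av
    rw [mul_pow, Real.sq_sqrt (Nat.cast_nonneg _)]
    ring
  rw [e1, e2]
  have e3 : G0 (NW n) (fun w => a w * av x w) =
      dn n * (∏ w, (a w * w (x : K)) ^ NW n w) * Real.exp (-Real.pi * ∑ w, (a w * av x w) ^ 2) := by
    unfold G0 g0 dn
    rw [Finset.prod_mul_distrib, ← Real.exp_sum, ← Finset.mul_sum, ← Finset.prod_mul_distrib]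
    congr 1
    refine Finset.prod_congr rfl fun w _ => ?_
    rw [← mul_pow]
    congr 1
    unfold Pool.Agent.Y773.G.av
    ring
  rw [e3]
  push_cast
  ring

lemma GM_conj (n : (K →+* ℂ) → ℕ) (a : InfinitePlace K → ℝ) (x : K) :
    GM (nc n) a x = (starRingEnd ℂ) (GM n a x) := by
  unfold GM GZ
  simp_rw [Zc_rr]
  rw [map_mul, Complex.conj_ofReal, map_prod]
  congr 1
  rw [← prod_cj]
  refine Finset.prod_congr rfl fun φ _ => ?_
  unfold nc
  rw [cj_cj, mk_cj, cj_apply, map_pow, map_mul, Complex.conj_ofReal]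

lemma GM_zero {n : (K →+* ℂ) → ℕ} {φ : K →+* ℂ} (hφ : n φ ≠ 0) (a : InfinitePlace K → ℝ) :
    GM n a (0 : K) = 0 := by
  unfold GM GZ
  simp_rw [Zc_rr]
  rw [Finset.prod_eq_zero (Finset.mem_univ φ), zero_mul]
  rw [map_zero, mul_zero, zero_pow hφ]

lemma GM_eq (n : (K →+* ℂ) → ℕ) (a : InfinitePlace K → ℝ) (x : K) :
    GM n a x = (∏ φ : K →+* ℂ, ((a (InfinitePlace.mk φ) : ℂ) * φ x) ^ n φ) *
      ((Real.exp (-Real.pi * ∑ w : InfinitePlace K, (w.mult : ℝ) * (a w ^ 2 * (w x) ^ 2)) : ℝ) : ℂ) := by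
  unfold GM GZ
  simp_rw [Zc_rr]
  have e2 : ∑ φ : K →+* ℂ, (a (InfinitePlace.mk φ) * rr φ x) ^ 2 =
      ∑ w : InfinitePlace K, (w.mult : ℝ) * (a w ^ 2 * (w x) ^ 2) := by
    simp_rw [mul_pow]
    rw [sum_rr_sq (fun w => a w ^ 2)]
  rw [e2]

lemma GM_mul (n : (K →+* ℂ) → ℕ) (a : InfinitePlace K → ℝ) {u : K} (hu : u ≠ 0) (x : K) :
    GM n a (u * x) = ph n u * GM n (fun w => a w * w u) x := by
  rw [GM_eq, GM_eq]
  have e3 : ∑ w : InfinitePlace K, (w.mult : ℝ) * (a w ^ 2 * (w (u * x)) ^ 2) =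
      ∑ w : InfinitePlace K, (w.mult : ℝ) * ((a w * w u) ^ 2 * (w x) ^ 2) := by
    refine Finset.sum_congr rfl fun w _ => ?_
    rw [map_mul]
    ring
  rw [e3, ← mul_assoc]
  congr 1
  unfold ph
  rw [← Finset.prod_mul_distrib]
  refine Finset.prod_congr rfl fun φ _ => ?_
  rw [← mul_pow]
  congr 1
  have h1 : ((‖φ u‖ : ℝ) : ℂ) ≠ 0 := by
    rw [Ne, Complex.ofReal_eq_zero, norm_eq_zero]
    exact (map_ne_zero φ).mpr hu
  have h2 : (InfinitePlace.mk φ) u = ‖φ u‖ := rfl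
  rw [h2, map_mul]
  push_cast
  field_simp

end Pool.Agent.N784.HC
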