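import Pool.Agent.N784.HC.Mel

/-! # Properties of the function `hf`: continuity, decay, reflection (helper784)
(adapted from `Pool.Agent.Y773.HG.Hf` and `Hf2`) -/

set_option autoImplicit false
set_option linter.unusedSectionVars false

open NumberField Complex Filter Topology MeasureTheory Set
open NumberField.Units NumberField.Units.dirichletUnitTheorem

namespace Pool.Agent.N784.HC

open Pool.Agent.Y773 (lp Idx el Fx PP S0 PIdl gen gen_ne_zero span_gen xE unE toP cube S0_eq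
  integrable_exp_sub integral_exp_sub cube_ae volume_cube place_unE FT sum_unit)
open Pool.Agent.Y773.G (cj rr av av_pos coE xE_apply toP_xE norm_absNorm_cpow summable_PIdl C0
  exists_el_bound exp_tr_per finite_quot sum_el)

variable {K : Type} [Field K] [NumberField K]

lemma hf_eq (n : (K →+* ℂ) → ℕ) (Ψ : 𝓞 K → ℂ) (t : ℝ) : hf n Ψ t =
    ∫ θ in Icc (0 : Fin (rank K) → ℝ) 1, th n Ψ (el K ((2 / Module.finrank ℚ K) * Real.log t, θ)) :=
  setIntegral_congr_set (cube_ae K)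

lemma continuous_hf_aux (n : (K →+* ℂ) → ℕ) {Ψ : 𝓞 K → ℂ} {B : ℝ}
    (hB : ∀ x, ‖Ψ x‖ ≤ B) : Continuous fun τ : ℝ =>
      ∫ θ in Icc (0 : Fin (rank K) → ℝ) 1, th n Ψ (el K (τ, θ)) := by
  have h1 : Continuous (el K) := (el K).continuous_of_finiteDimensional
  refine continuous_parametric_integral_of_continuous (f := fun τ θ => th n Ψ (el K (τ, θ))) ?_
    isCompact_Icc
  exact (continuous_th n hB).comp h1

lemma continuousOn_hf (n : (K →+* ℂ) → ℕ) {Ψ : 𝓞 K → ℂ} {B : ℝ}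
    (hB : ∀ x, ‖Ψ x‖ ≤ B) : ContinuousOn (hf n Ψ) (Ioi 0) := by
  have h1 := continuous_hf_aux (K := K) n hB
  have h2 : hf n Ψ = (fun τ : ℝ => ∫ θ in Icc (0 : Fin (rank K) → ℝ) 1, th n Ψ (el K (τ, θ))) ∘
      (fun t => (2 / Module.finrank ℚ K) * Real.log t) := funext fun t => hf_eq n Ψ t
  rw [h2]
  refine h1.comp_continuousOn ?_
  refine continuousOn_const.mul (Real.continuousOn_log.mono fun t ht => ?_)
  exact ne_of_gt ht

/-- decay -/
lemma hf_decay {n : (K →+* ℂ) → ℕ} {Ψ : 𝓞 K → ℂ} (h : Nice n Ψ) (r : ℝ) :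
    hf n Ψ =O[atTop] (fun t => t ^ r) := by
  obtain ⟨B, hB⟩ := h.bdd
  obtain ⟨b, hb0, hb⟩ := exists_el_bound K
  have hn : (0 : ℝ) < Module.finrank ℚ K := by exact_mod_cast Module.finrank_pos
  set d : ℝ := ((Module.finrank ℚ K : ℕ) : ℝ) with hn'
  have hBn : 0 ≤ B := (norm_nonneg _).trans (hB 0)
  -- the bound
  have h1 : ∀ᶠ t : ℝ in atTop, ‖hf n Ψ t‖ ≤
      B * Cn n * C0 K * Real.exp (-(Real.exp (-b) * t ^ (2 / d))) := by
    filter_upwards [eventually_ge_atTop (Real.exp (b * d / 2))] with t ht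
    have ht0 : 0 < t := lt_of_lt_of_le (Real.exp_pos _) ht
    have hlog : b ≤ 2 / d * Real.log t := by
      have h2 : b * d / 2 ≤ Real.log t := by
        rw [Real.le_log_iff_exp_le ht0]; exact ht
      calc b = 2 / d * (b * d / 2) := by field_simp
        _ ≤ _ := by gcongr
    rw [hf_eq]
    have h3 : ∀ θ ∈ Icc (0 : Fin (rank K) → ℝ) 1, ‖th n Ψ (el K (2 / d * Real.log t, θ))‖ ≤
        B * Cn n * C0 K * Real.exp (-(Real.exp (-b) * t ^ (2 / d))) := by
      intro θ hθ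
      have h4 : ∀ i, |θ i| ≤ 1 := by
        intro i
        rw [abs_of_nonneg (hθ.1 i)]
        exact hθ.2 i
      have h5 := norm_th_le n hB h.zero (c := 2 / d * Real.log t - b) (by linarith)
        (y := el K (2 / d * Real.log t, θ)) (fun w => hb (2 / d * Real.log t, θ) h4 w)
      refine h5.trans (le_of_eq ?_)
      congr 3
      rw [sub_eq_add_neg, Real.exp_add, Real.rpow_def_of_pos ht0, mul_comm (Real.log t), mul_comm]
    have h6 := norm_setIntegral_le_of_norm_le_const (μ := volume) (s := Icc (0 : Fin (rank K) → ℝ) 1)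
      (by rw [volume_cube]; exact ENNReal.one_lt_top) h3
    refine h6.trans (le_of_eq ?_)
    rw [Measure.real, volume_cube]
    simp
  refine (Asymptotics.IsBigO.of_bound' (h1.mono fun t ht => ?_)).trans
    (g := fun t : ℝ => B * Cn n * C0 K * Real.exp (-(Real.exp (-b) * t ^ (2 / d)))) ?_
  · exact ht.trans (le_abs_self _)
  -- exponential decay beats powers
  have h7 : (fun t : ℝ => Real.exp (-(Real.exp (-b) * t ^ (2 / d)))) =O[atTop] (fun t => t ^ r) := by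
    have h8 : (fun x : ℝ => Real.exp (-(Real.exp (-b)) * x)) =O[atTop] fun x => x ^ (r * d / 2) := by
      exact (isLittleO_exp_neg_mul_rpow_atTop (Real.exp_pos (-b)) (r * d / 2)).isBigO
    have h9 := h8.comp_tendsto (tendsto_rpow_atTop (y := 2 / d) (by positivity))
    refine (h9.congr' (Eventually.of_forall fun t => ?_) ?_)
    · simp only [Function.comp_apply, neg_mul]
    · filter_upwards [eventually_gt_atTop 0] with t ht
      simp only [Function.comp_apply]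
      rw [← Real.rpow_mul ht.le]
      congr 1
      field_simp
  exact h7.const_mul_left _

/-- equivariance under the units -/
def Eqv (n : (K →+* ℂ) → ℕ) (Ψ : 𝓞 K → ℂ) : Prop :=
  ∀ (u : (𝓞 K)ˣ) (x : 𝓞 K), Ψ (u * x) = kp n ((u : 𝓞 K) : K) * Ψ x

lemma th_unit {n : (K →+* ℂ) → ℕ} {Ψ : 𝓞 K → ℂ} (h : Eqv n Ψ)
    (u : (𝓞 K)ˣ) (y : InfinitePlace K → ℝ) :
    th n Ψ (fun w => y w + 2 * Real.log (w (u : K))) = th n Ψ y := by
  have hpos : ∀ w : InfinitePlace K, 0 < w (u : K) := fun w => by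
    rw [InfinitePlace.pos_iff]
    simp
  unfold th
  rw [← (Units.mulLeft u).tsum_eq (fun x : 𝓞 K => Ψ x *
    GM n (fun w => Real.exp (y w / 2)) (x : K))]
  refine tsum_congr fun x => ?_
  rw [Units.mulLeft_apply, h u x]
  have h1 : GM n (fun w => Real.exp (y w / 2)) (((u : 𝓞 K) * x : 𝓞 K) : K) =
      ph n ((u : 𝓞 K) : K) * GM n (fun w => Real.exp ((y w + 2 * Real.log (w (u : K))) / 2))
        (x : K) := by
    have h2 : (((u : 𝓞 K) * x : 𝓞 K) : K) = ((u : 𝓞 K) : K) * (x : K) :=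
      map_mul (algebraMap (𝓞 K) K) _ _
    rw [h2, GM_mul n _ (by simp)]
    congr 2
    funext w
    rw [add_div, Real.exp_add, mul_div_cancel_left₀ _ (two_ne_zero), Real.exp_log (hpos w)]
  rw [h1]
  have h6 := kp_mul_ph n (x := ((u : 𝓞 K) : K)) (by simp)
  calc _ = (1 : ℂ) * (Ψ x * GM n (fun w => Real.exp ((y w + 2 * Real.log (w (u : K))) / 2))
        (x : K)) := by rw [one_mul]
    _ = _ := by rw [← h6]; ring

lemma th_periodic {n : (K →+* ℂ) → ℕ} {Ψ : 𝓞 K → ℂ} (h : Eqv n Ψ)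
    (τ : ℝ) (θ : Fin (rank K) → ℝ) (m : Fin (rank K) → ℤ) :
    th n Ψ (el K (τ, θ + lp m)) = th n Ψ (el K (τ, θ)) := by
  rw [← th_unit h (unE K (1, m)) (el K (τ, θ))]
  congr 1
  funext w
  rw [place_unE, Real.log_exp]
  simp only [el, LinearMap.coe_mk, AddHom.coe_mk, Pi.add_apply, Pool.Agent.Y773.lp, add_mul,
    Finset.sum_add_distrib]
  have h2 : ∑ i, (m i : ℝ) * (2 * Real.log (w ((fundSystem K i : (𝓞 K)ˣ) : K))) =
      2 * ∑ i, (m i : ℝ) * Real.log (w ((fundSystem K i : (𝓞 K)ˣ) : K)) := by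
    rw [Finset.mul_sum]
    exact Finset.sum_congr rfl fun i _ => by ring
  rw [h2]
  ring

lemma int_reflect {n : (K →+* ℂ) → ℕ} {Ψ : 𝓞 K → ℂ} (h : Eqv n Ψ)
    (τ : ℝ) : ∫ θ in Icc (0 : Fin (rank K) → ℝ) 1, th n Ψ (el K (τ, -θ)) =
      ∫ θ in Icc (0 : Fin (rank K) → ℝ) 1, th n Ψ (el K (τ, θ)) := by
  have h1 : ∀ θ : Fin (rank K) → ℝ, th n Ψ (el K (τ, -θ)) = th n Ψ (el K (τ, 1 - θ)) := by
    intro θ
    rw [← th_periodic h τ (-θ) (fun _ => 1)]
    congr 3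
    funext i
    simp [Pool.Agent.Y773.lp]
    ring
  simp_rw [h1]
  have hmp := Measure.measurePreserving_sub_left (volume : Measure (Fin (rank K) → ℝ)) 1
  have hme := (Homeomorph.subLeft (1 : Fin (rank K) → ℝ)).toMeasurableEquiv.measurableEmbedding
  have h2 := hmp.setIntegral_preimage_emb hme (fun θ => th n Ψ (el K (τ, θ))) (Icc 0 1)
  rw [← h2]
  congr 2
  ext θ
  simp only [mem_preimage, mem_Icc]
  constructor
  · rintro ⟨a, b⟩
    exact ⟨sub_nonneg.mpr b, sub_le_self _ a⟩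
  · rintro ⟨a, b⟩
    constructor
    · intro i
      have := b i
      simp only [Pi.sub_apply, Pi.one_apply] at this
      simp only [Pi.zero_apply]
      linarith
    · intro i
      have := a i
      simp only [Pi.sub_apply, Pi.one_apply, Pi.zero_apply] at this
      simp only [Pi.one_apply]
      linarith

lemma FT_eqv {n : (K →+* ℂ) → ℕ} {Ψ : 𝓞 K → ℂ} (h : Eqv n Ψ) {m D : ℕ} (hm : 0 < m)
    (hD : 0 < D) (hper : ∀ x z : 𝓞 K, Ψ (x + m * z) = Ψ x) : Eqv (nc n) (FT D m Ψ) := by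
  intro u x
  have := finite_quot (K := K) hm
  have := Fintype.ofFinite (𝓞 K ⧸ Ideal.span {(m : 𝓞 K)})
  have hiff : (∀ r : 𝓞 K, (D : ℤ) ∣ Algebra.trace ℤ (𝓞 K) (u * x * r)) ↔
      ∀ r : 𝓞 K, (D : ℤ) ∣ Algebra.trace ℤ (𝓞 K) (x * r) := by
    constructor
    · intro h1 r
      have := h1 (((u⁻¹ : (𝓞 K)ˣ) : 𝓞 K) * r)
      have e1 : (u : 𝓞 K) * x * (((u⁻¹ : (𝓞 K)ˣ) : 𝓞 K) * r) =
          ((u : 𝓞 K) * ((u⁻¹ : (𝓞 K)ˣ) : 𝓞 K)) * (x * r) := by ring
      rw [e1, Units.mul_inv, one_mul] at this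
      exact this
    · intro h1 r
      have := h1 (u * r)
      have e1 : (u : 𝓞 K) * x * r = x * (u * r) := by ring
      rw [e1]
      exact this
  unfold FT
  by_cases hx : ∀ r : 𝓞 K, (D : ℤ) ∣ Algebra.trace ℤ (𝓞 K) (x * r)
  · rw [if_pos hx, if_pos (hiff.mpr hx), finsum_eq_sum_of_fintype, finsum_eq_sum_of_fintype]
    rw [← sum_unit (f := fun r => Ψ r * cexp (2 * Real.pi * I *
      ((Algebra.trace ℤ (𝓞 K) (x * r) : ℤ) : ℂ) / ((m * D : ℕ) : ℂ))) (fun r z => by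
        rw [hper, exp_tr_per hm hD hx]) u, Finset.mul_sum]
    refine Finset.sum_congr rfl fun r _ => ?_
    rw [h u, kp_nc]
    have h6 := kp_mul_ph n (x := ((u : 𝓞 K) : K)) (by simp)
    have e1 : (u : 𝓞 K) * x * Quotient.out r = x * (u * Quotient.out r) := by ring
    rw [e1]
    calc _ = (1 : ℂ) * (Ψ (Quotient.out r) * cexp (2 * Real.pi * I *
      ((Algebra.trace ℤ (𝓞 K) (x * (u * Quotient.out r)) : ℤ) : ℂ) / ((m * D : ℕ) : ℂ))) := by
          rw [one_mul]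
      _ = _ := by rw [← h6]; ring
  · rw [if_neg hx, if_neg (fun h1 => hx (hiff.mp h1)), mul_zero]

/-- the constant of the reflection formula -/
theorem hf_fe (K : Type) [Field K] [NumberField K] : ∃ V : ℝ, 0 < V ∧
    ∀ (n : (K →+* ℂ) → ℕ), TypK n →
    ∀ (Ψ : 𝓞 K → ℂ) (B : ℝ), (∀ x, ‖Ψ x‖ ≤ B) →
    Eqv n Ψ →
    ∀ m D : ℕ, 0 < m → 0 < D → (D : 𝓞 K) ∈ differentIdeal ℤ (𝓞 K) →
    (∀ x z : 𝓞 K, Ψ (x + m * z) = Ψ x) → ∀ t : ℝ, 0 < t →
      hf n Ψ (1 / t) = (((V⁻¹ : ℝ) : ℂ) * ((m : ℂ) ^ (Module.finrank ℚ K))⁻¹ * (-I) ^ (∑ φ : K →+* ℂ, n φ)) *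
        (t : ℂ) * hf (nc n) (FT D m Ψ) (t / ((m * D : ℕ) : ℝ) ^ (Module.finrank ℚ K)) := by
  obtain ⟨V, hV0, hV⟩ := th_poisson K
  refine ⟨V, hV0, fun n htyp Ψ B hB hE m D hm hD hDD hper t ht => ?_⟩
  have hn : (0 : ℝ) < Module.finrank ℚ K := by exact_mod_cast Module.finrank_pos
  have hmD : (0 : ℝ) < m * D := by
    have h1 : (0 : ℝ) < m := by exact_mod_cast hm
    have h2 : (0 : ℝ) < D := by exact_mod_cast hD
    positivity
  set κ : ℂ := ((V⁻¹ : ℝ) : ℂ) * ((m : ℂ) ^ (Module.finrank ℚ K))⁻¹ * (-I) ^ (∑ φ : K →+* ℂ, n φ) with hκ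
  set τ : ℝ := 2 / Module.finrank ℚ K * Real.log t with hτ
  have h1 : (2 / Module.finrank ℚ K : ℝ) * Real.log (1 / t) = -τ := by
    rw [one_div, Real.log_inv, hτ]
    ring
  have h2 : (2 / Module.finrank ℚ K : ℝ) *
      Real.log (t / ((m * D : ℕ) : ℝ) ^ (Module.finrank ℚ K)) = τ - 2 * Real.log (m * D) := by
    push_cast
    rw [Real.log_div ht.ne' (by positivity), Real.log_pow, hτ]
    field_simp
  rw [hf_eq, hf_eq, h1, h2]
  have h3 : ∀ θ : Fin (rank K) → ℝ, th n Ψ (el K (-τ, θ)) =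
      κ * (t : ℂ) * th (nc n) (FT D m Ψ) (el K (τ - 2 * Real.log (m * D), -θ)) := by
    intro θ
    rw [hV n htyp Ψ B hB m D hm hD hDD hper]
    rw [sum_el]
    have h4 : Real.exp (-(Module.finrank ℚ K * ((-τ, θ) : PP K).1) / 2) = t := by
      have : -(Module.finrank ℚ K * ((-τ, θ) : PP K).1) / 2 = Real.log t := by
        simp only [hτ]
        field_simp
      rw [this, Real.exp_log ht]
    rw [h4]
    congr 2
    funext w
    simp only [el, LinearMap.coe_mk, AddHom.coe_mk, Pi.neg_apply]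
    have h5 : ∑ i, -θ i * (2 * Real.log (w ((fundSystem K i : (𝓞 K)ˣ) : K))) =
        -∑ i, θ i * (2 * Real.log (w ((fundSystem K i : (𝓞 K)ˣ) : K))) := by
      rw [← Finset.sum_neg_distrib]
      exact Finset.sum_congr rfl fun i _ => by ring
    rw [h5]
    ring
  simp_rw [h3]
  rw [integral_const_mul, int_reflect (FT_eqv hE hm hD hper)]

end Pool.Agent.N784.HC
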