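import Pool.Agent.N784.HC.Nv
import Pool.Agent.N784.AD.Ray
import Pool.Agent.Y772.HG.Tw

/-! # Primitive Hecke characters of a number field with infinity type (helper784) -/

set_option autoImplicit false
set_option linter.unusedSectionVars false

open NumberField Complex Filter Topology

namespace Pool.Agent.N784.HC

open Pool.Agent.Y773 (LI TPos)
open Pool.Agent.Y773.G (cj cj_cj cj_apply IsModChar IsPrimChar rl sg sg_mul sg_sq mk_cj sg_TPos)
open Pool.Agent.Y772.G (isReal_or rl_real rl_cpx tpos_iff exists_neg rl_ne rl_pos_cpx)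
open Pool.Agent.N784.AD (exists_tp exists_inv_tp)

section

variable {K : Type} [Field K] [NumberField K]

variable (K) in
/-- `ψ` is a primitive (unitary) Hecke character of `K` of finite conductor `𝔣` and of infinity
type `n`. -/
structure IsHecke (𝔣 : Ideal (𝓞 K)) (n : (K →+* ℂ) → ℕ) (ψ : Ideal (𝓞 K) →*₀ ℂ) : Prop where
  ne_bot : 𝔣 ≠ ⊥
  supp : ∀ 𝔞 : Ideal (𝓞 K), 𝔞 ≠ ⊥ → (ψ 𝔞 ≠ 0 ↔ IsCoprime 𝔞 𝔣)
  ray : ∀ x : 𝓞 K, x ≠ 0 → x - 1 ∈ 𝔣 → TPos K x → ψ (Ideal.span {x}) = ph n (x : K)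
  prim : ∀ 𝔤 : Ideal (𝓞 K), 𝔤 ∣ 𝔣 → 𝔤 ≠ 𝔣 → ∃ x : 𝓞 K, x - 1 ∈ 𝔤 ∧ TPos K x ∧
    IsCoprime (Ideal.span {x}) 𝔣 ∧ ψ (Ideal.span {x}) ≠ ph n (x : K)

lemma ph_zero_type (x : K) : ph (0 : (K →+* ℂ) → ℕ) x = 1 := by
  unfold ph
  simp

lemma ofPrimChar {𝔣 : Ideal (𝓞 K)} {ψ : Ideal (𝓞 K) →*₀ ℂ} (h : IsPrimChar K 𝔣 ψ) :
    IsHecke K 𝔣 0 ψ where
  ne_bot := h.ne_bot
  supp := h.supp
  ray x h1 h2 h3 := by rw [h.ray x h1 h2 h3, ph_zero_type]
  prim 𝔤 h1 h2 := by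
    obtain ⟨x, a, b, c, d⟩ := h.prim 𝔤 h1 h2
    exact ⟨x, a, b, c, by rw [ph_zero_type]; exact d⟩

/-- a type without real part: only one of two conjugate embeddings occurs -/
def CTyp (n : (K →+* ℂ) → ℕ) : Prop := ∀ φ : K →+* ℂ, n φ = 0 ∨ n (cj φ) = 0

lemma CTyp.typ {n : (K →+* ℂ) → ℕ} (h : CTyp n) : TypK n where
  inv := cj_cj
  real φ hφ := by
    rcases h φ with h1 | h1
    · rw [h1]; exact zero_le_one
    · rw [hφ] at h1
      rw [h1]; exact zero_le_one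
  cpx φ _ := h φ

/-- the signature, for an arbitrary multiplicative function on the integers -/
theorem sig_gen {𝔣 : Ideal (𝓞 K)} (hf : 𝔣 ≠ ⊥) (v : 𝓞 K → ℂ)
    (hv1 : v 1 = 1) (hψm : ∀ x y : 𝓞 K, v (x * y) = v x * v y)
    (hψ : ∀ x : 𝓞 K, x ≠ 0 → x - 1 ∈ 𝔣 → TPos K x → v x = 1) :
    ∃ e : InfinitePlace K → ℕ, (∀ w, e w ≤ 1) ∧ (∀ w : InfinitePlace K, w.IsComplex → e w = 0) ∧
      ∀ x : 𝓞 K, x ≠ 0 → x - 1 ∈ 𝔣 → v x = sg e (x : K) := by
  classical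
  choose z hz0 hz1 hz2 hz3 using fun w : InfinitePlace K => exists_neg hf w
  -- congruences
  have hmul : ∀ x y : 𝓞 K, x - 1 ∈ 𝔣 → y - 1 ∈ 𝔣 → x * y - 1 ∈ 𝔣 := by
    intro x y hx hy
    have h1 := 𝔣.add_mem (𝔣.mul_mem_left y hx) hy
    have h2 : y * (x - 1) + (y - 1) = x * y - 1 := by ring
    rwa [h2] at h1
  have hprod : ∀ (s : Finset (InfinitePlace K)), (∏ w ∈ s, z w) - 1 ∈ 𝔣 := by
    intro s
    induction s using Finset.induction_on with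
    | empty => simp
    | insert a s ha ih => rw [Finset.prod_insert ha]; exact hmul _ _ (hz1 a) ih
  have hψp : ∀ (s : Finset (InfinitePlace K)), v (∏ w ∈ s, z w) = ∏ w ∈ s, v (z w) := by
    intro s
    induction s using Finset.induction_on with
    | empty =>
      rw [Finset.prod_empty, Finset.prod_empty, hv1]
    | insert a s ha ih => rw [Finset.prod_insert ha, hψm, ih, Finset.prod_insert ha]
  have hsq : ∀ x : 𝓞 K, x ≠ 0 → x - 1 ∈ 𝔣 → v x ^ 2 = 1 := by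
    intro x hx0 hx
    rw [pow_two, ← hψm]
    refine hψ _ (mul_ne_zero hx0 hx0) (hmul _ _ hx hx)
      ((tpos_iff (mul_ne_zero hx0 hx0)).2 fun w => ?_)
    push_cast
    rw [map_mul]
    have : rl w (x : K) ≠ 0 := rl_ne (by simpa using hx0)
    exact mul_self_pos.2 this
  -- at the complex places, `ψ(z_w) = 1`
  have hcpx : ∀ w : InfinitePlace K, w.IsComplex → v (z w) = 1 := by
    intro w hw
    refine hψ _ (hz0 w) (hz1 w) ((tpos_iff (hz0 w)).2 fun v => hz3 w v fun hv h => ?_)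
    rw [h] at hv
    exact InfinitePlace.not_isReal_iff_isComplex.2 hw hv
  refine ⟨fun w => if v (z w) = 1 then 0 else 1, fun w => ?_, fun w hw => ?_,
    fun x hx0 hx => ?_⟩
  · simp only
    split_ifs <;> norm_num
  · simp only
    rw [if_pos (hcpx w hw)]
  · have hzv : ∀ w, v (z w) = (-1 : ℂ) ^ (if v (z w) = 1 then 0 else 1) := by
      intro w
      split_ifs with h
      · rw [h, pow_zero]
      · rw [pow_one]
        have h1 := hsq _ (hz0 w) (hz1 w)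
        rw [pow_two] at h1
        exact (mul_self_eq_one_iff.1 h1).resolve_left h
    set S : Finset (InfinitePlace K) := Finset.univ.filter fun w => rl w (x : K) < 0 with hS
    have hx0' : (x : K) ≠ 0 := by simpa using hx0
    have hSr : ∀ w ∈ S, w.IsReal := by
      intro w hw
      rw [hS, Finset.mem_filter] at hw
      rcases isReal_or w with h | h
      · exact h
      · exact absurd hw.2 (not_lt.2 (rl_pos_cpx h hx0').le)
    have hpr0 : (∏ w ∈ S, z w) ≠ 0 := Finset.prod_ne_zero_iff.2 fun w _ => hz0 w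
    have htp : TPos K (x * ∏ w ∈ S, z w) := by
      rw [tpos_iff (mul_ne_zero hx0 hpr0)]
      intro w
      push_cast
      rw [map_mul, map_prod]
      by_cases hw : w ∈ S
      · rw [← Finset.mul_prod_erase _ _ hw]
        have h1 : rl w (x : K) < 0 := by
          rw [hS, Finset.mem_filter] at hw
          exact hw.2
        have h2 : 0 < ∏ v ∈ S.erase w, rl w ((algebraMap (𝓞 K) K) (z v)) :=
          Finset.prod_pos fun v hv => hz3 v w fun _ => (Finset.ne_of_mem_erase hv).symm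
        have h3 := hz2 w (hSr w hw)
        have h4 : 0 < rl w (x : K) * rl w (z w : K) := mul_pos_of_neg_of_neg h1 h3
        calc 0 < rl w (x : K) * rl w (z w : K) *
              ∏ v ∈ S.erase w, rl w ((algebraMap (𝓞 K) K) (z v)) := mul_pos h4 h2
          _ = _ := by ring
      · have h1 : 0 < rl w (x : K) := by
          rw [hS, Finset.mem_filter] at hw
          have h2 : ¬ rl w (x : K) < 0 := fun h => hw ⟨Finset.mem_univ _, h⟩
          exact lt_of_le_of_ne (not_lt.1 h2) (rl_ne hx0').symm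
        refine mul_pos h1 (Finset.prod_pos fun v hv => hz3 v w fun _ => ?_)
        rintro rfl
        exact hw hv
    have h1 := hψ _ (mul_ne_zero hx0 hpr0) (hmul _ _ hx (hprod S)) htp
    rw [hψm, hψp] at h1
    have h2 : (∏ w ∈ S, v (z w)) ^ 2 = 1 := by
      rw [← hψp]
      exact hsq _ hpr0 (hprod S)
    have h3 : v x = ∏ w ∈ S, v (z w) := by
      have h4 : v x * (∏ w ∈ S, v (z w)) ^ 2 = ∏ w ∈ S, v (z w) := by
        rw [pow_two, ← mul_assoc, h1, one_mul]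
      rwa [h2, mul_one] at h4
    rw [h3]
    unfold sg
    rw [hS, Finset.prod_filter]
    refine Finset.prod_congr rfl fun w _ => ?_
    by_cases h4 : rl w (x : K) < 0
    · rw [if_pos h4, sign_neg h4]
      have := hzv w
      rw [this]
      congr 1
      simp
    · have h6 : 0 < rl w (x : K) := lt_of_le_of_ne (not_lt.1 h4) (rl_ne hx0').symm
      rw [if_neg h4, sign_pos h6]
      simp

/-- the full type: signs at the real places added -/
noncomputable def fty (n : (K →+* ℂ) → ℕ) (e : InfinitePlace K → ℕ) (φ : K →+* ℂ) : ℕ :=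
  n φ + e (InfinitePlace.mk φ)

lemma CTyp.fty {n : (K →+* ℂ) → ℕ} (h : CTyp n) {e : InfinitePlace K → ℕ} (he : ∀ w, e w ≤ 1)
    (hc : ∀ w : InfinitePlace K, w.IsComplex → e w = 0) : TypK (fty n e) where
  inv := cj_cj
  real φ hφ := by
    unfold HC.fty
    have h0 : n φ = 0 := by
      rcases h φ with h1 | h1
      · exact h1
      · rwa [hφ] at h1
    rw [h0, zero_add]
    exact he _
  cpx φ hφ := by
    have h0 : e (InfinitePlace.mk φ) = 0 := by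
      apply hc
      rw [← InfinitePlace.not_isReal_iff_isComplex]
      intro hr
      exact hφ (InfinitePlace.isReal_of_mk_isReal hr)
    unfold HC.fty
    rw [mk_cj, h0, add_zero, add_zero]
    exact h φ

lemma inf_fty {n : (K →+* ℂ) → ℕ} (h : CTyp n) (hn : n ≠ 0) (e : InfinitePlace K → ℕ) :
    Inf (fty n e) := by
  obtain ⟨φ, hφ⟩ := Function.ne_iff.mp hn
  refine ⟨φ, ?_, ?_⟩
  · intro h1
    rcases h φ with h2 | h2
    · exact hφ h2
    · rw [h1] at h2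
      exact hφ h2
  · unfold fty
    intro h1
    exact hφ (Nat.eq_zero_of_add_eq_zero_right h1)

open Classical in
lemma ph_sign {e : InfinitePlace K → ℕ}
    (hc : ∀ w : InfinitePlace K, w.IsComplex → e w = 0) {x : K} (hx : x ≠ 0) :
    ph (fun φ : K →+* ℂ => e (InfinitePlace.mk φ)) x = sg e x := by
  unfold ph sg
  rw [Pool.Agent.Y773.G.prod_emb]
  refine Finset.prod_congr rfl fun w _ => ?_
  by_cases hw : w.IsReal
  · rw [if_pos hw]
    beta_reduce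
    rw [w.mk_embedding]
    congr 1
    rw [← Pool.Agent.Y773.G.rl_cast hw]
    have h1 : rl w x ≠ 0 := rl_ne hx
    rw [Complex.norm_real, Real.norm_eq_abs]
    rcases lt_or_gt_of_ne h1 with h | h
    · rw [sign_neg h, abs_of_neg h]
      push_cast
      have : ((rl w x : ℝ) : ℂ) ≠ 0 := by exact_mod_cast h1
      field_simp
      simp
    · rw [sign_pos h, abs_of_pos h]
      have : ((rl w x : ℝ) : ℂ) ≠ 0 := by exact_mod_cast h1
      simp [this]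
  · have hc' : w.IsComplex := InfinitePlace.not_isReal_iff_isComplex.mp hw
    rw [if_neg hw]
    beta_reduce
    rw [mk_cj, w.mk_embedding, hc w hc']
    simp

lemma ph_fty {n : (K →+* ℂ) → ℕ} {e : InfinitePlace K → ℕ}
    (hc : ∀ w : InfinitePlace K, w.IsComplex → e w = 0) {x : K} (hx : x ≠ 0) :
    ph (fty n e) x = ph n x * sg e x := by
  rw [← ph_sign hc hx]
  unfold ph fty
  rw [← Finset.prod_mul_distrib]
  exact Finset.prod_congr rfl fun φ _ => pow_add _ _ _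

lemma span_mul' (ψ : Ideal (𝓞 K) →*₀ ℂ) (x y : 𝓞 K) :
    ψ (Ideal.span {x * y}) = ψ (Ideal.span {x}) * ψ (Ideal.span {y}) := by
  rw [← map_mul, Ideal.span_singleton_mul_span_singleton]

lemma kp_conj_mul (n : (K →+* ℂ) → ℕ) {x : K} (hx : x ≠ 0) : ph n x * kp n x = 1 := by
  rw [mul_comm]; exact kp_mul_ph n hx

/-- a Hecke character is a character modulo its conductor, with the full infinity type -/
theorem IsHecke.modK {𝔣 : Ideal (𝓞 K)} {n : (K →+* ℂ) → ℕ} {ψ : Ideal (𝓞 K) →*₀ ℂ}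
    (h : IsHecke K 𝔣 n ψ) (htop : 𝔣 ≠ ⊤) :
    ∃ e : InfinitePlace K → ℕ, (∀ w, e w ≤ 1) ∧ (∀ w : InfinitePlace K, w.IsComplex → e w = 0) ∧
      IsModK 𝔣 (kp (fty n e)) ψ := by
  obtain ⟨e, he, hc, hs⟩ := sig_gen h.ne_bot (fun x => ψ (Ideal.span {x}) * kp n (x : K))
    (by
      have h1 : ((1 : 𝓞 K) : K) = 1 := map_one (algebraMap (𝓞 K) K)
      rw [Ideal.span_singleton_one, ← Ideal.one_eq_top, map_one, h1, one_mul]
      have := (kap_kp n).nat 1 one_pos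
      simpa using this)
    (fun x y => by
      have h1 : ((x * y : 𝓞 K) : K) = (x : K) * (y : K) := map_mul (algebraMap (𝓞 K) K) x y
      rw [span_mul', h1, kp_mul]
      ring)
    (fun x hx hx1 hx2 => by
      rw [h.ray x hx hx1 hx2, kp_conj_mul n (by exact_mod_cast hx)])
  refine ⟨e, he, hc, ⟨kap_kp _, h.ne_bot, htop, fun 𝔞 => ?_, fun x hx hx1 => ?_⟩⟩
  · by_cases h0 : 𝔞 = ⊥
    · subst h0
      constructor
      · intro h2
        exact absurd (by rw [← Ideal.zero_eq_bot, map_zero]) h2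
      · intro h2
        exfalso
        apply htop
        have := Ideal.isCoprime_iff_sup_eq.1 h2
        rwa [bot_sup_eq] at this
    · exact h.supp 𝔞 h0
  · have hxK : (x : K) ≠ 0 := by exact_mod_cast hx
    have h1 := hs x hx hx1
    have h2 : kp (fty n e) (x : K) = kp n (x : K) * (starRingEnd ℂ) (sg e (x : K)) := by
      unfold kp
      rw [ph_fty hc hxK, map_mul]
    rw [h2, Pool.Agent.Y773.G.conj_sg, ← mul_assoc, h1]
    exact sg_sq e hxK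

theorem IsHecke.primK {𝔣 : Ideal (𝓞 K)} {n : (K →+* ℂ) → ℕ} {ψ : Ideal (𝓞 K) →*₀ ℂ}
    (h : IsHecke K 𝔣 n ψ) (htop : 𝔣 ≠ ⊤) {e : InfinitePlace K → ℕ}
    (hc : ∀ w : InfinitePlace K, w.IsComplex → e w = 0) : PrimK 𝔣 (kp (fty n e)) ψ := by
  intro 𝔤 h1 h2
  obtain ⟨x, hx1, hx2, hx3, hx4⟩ := h.prim 𝔤 h1 h2
  have hx0 : x ≠ 0 := by
    rintro rfl
    rw [Ideal.span_singleton_eq_bot.mpr rfl, Ideal.isCoprime_iff_sup_eq, bot_sup_eq] at hx3
    exact htop hx3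
  have hxK : (x : K) ≠ 0 := by exact_mod_cast hx0
  refine ⟨x, hx1, hx3, fun h3 => hx4 ?_⟩
  have h4 : kp (fty n e) (x : K) = kp n (x : K) := by
    unfold kp
    rw [ph_fty hc hxK, sg_TPos e hx0 hx2, mul_one]
  rw [h4] at h3
  have h5 := kp_mul_ph n hxK
  calc ψ (Ideal.span {x}) = ψ (Ideal.span {x}) * (kp n (x : K) * ph n (x : K)) := by
        rw [h5, mul_one]
    _ = (ψ (Ideal.span {x}) * kp n (x : K)) * ph n (x : K) := by ring
    _ = _ := by rw [h3, one_mul]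

lemma ph_ne (n : (K →+* ℂ) → ℕ) {x : K} (hx : x ≠ 0) : ph n x ≠ 0 := by
  rw [← norm_ne_zero_iff, norm_ph n hx]
  exact one_ne_zero

lemma ph_coe_mul (n : (K →+* ℂ) → ℕ) (x y : 𝓞 K) :
    ph n ((x * y : 𝓞 K) : K) = ph n (x : K) * ph n (y : K) := by
  have h1 : ((x * y : 𝓞 K) : K) = (x : K) * (y : K) := map_mul (algebraMap (𝓞 K) K) x y
  rw [h1, ph_mul]

/-- the value of a Hecke character on totally positive integers depends on the class -/
lemma IsHecke.congr {𝔣 : Ideal (𝓞 K)} {n : (K →+* ℂ) → ℕ} {ψ : Ideal (𝓞 K) →*₀ ℂ}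
    (hψ : IsHecke K 𝔣 n ψ)
    {x y : 𝓞 K} (hx0 : x ≠ 0) (hy0 : y ≠ 0) (hx : TPos K x) (hy : TPos K y)
    (hc : IsCoprime (Ideal.span {x}) 𝔣)
    (h : y - x ∈ 𝔣) : ψ (Ideal.span {x}) * ph n (y : K) = ψ (Ideal.span {y}) * ph n (x : K) := by
  obtain ⟨z₀, hz₀⟩ := Pool.Agent.Y772.SG.coprime_iff.1 hc
  have hN : 0 < Ideal.absNorm 𝔣 :=
    Nat.pos_of_ne_zero (by rw [Ne, Ideal.absNorm_eq_zero_iff]; exact hψ.ne_bot)
  obtain ⟨k, hk1, hk2⟩ := Pool.Agent.Y772.TW.exists_tpos z₀ hN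
  set z : 𝓞 K := z₀ + (k : 𝓞 K) * (Ideal.absNorm 𝔣 : 𝓞 K) with hz
  have hxz : x * z - 1 ∈ 𝔣 := by
    have : x * z - 1 = (x * z₀ - 1) + (x * k) * (Ideal.absNorm 𝔣 : 𝓞 K) := by rw [hz]; ring
    rw [this]
    exact 𝔣.add_mem hz₀ (𝔣.mul_mem_left _ (Ideal.absNorm_mem 𝔣))
  have hyz : y * z - 1 ∈ 𝔣 := by
    have : y * z - 1 = z * (y - x) + (x * z - 1) := by ring
    rw [this]
    exact 𝔣.add_mem (𝔣.mul_mem_left _ h) hxz
  have hpos : ∀ t : 𝓞 K, TPos K t → TPos K (t * z) := by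
    intro t ht σ
    push_cast
    rw [map_mul]
    exact mul_pos (ht σ) (hk1 σ)
  have h1 := hψ.ray _ (mul_ne_zero hx0 hk2) hxz (hpos x hx)
  have h2 := hψ.ray _ (mul_ne_zero hy0 hk2) hyz (hpos y hy)
  rw [span_mul', ph_coe_mul] at h1 h2
  have hxK : (x : K) ≠ 0 := by exact_mod_cast hx0
  have hyK : (y : K) ≠ 0 := by exact_mod_cast hy0
  have hzK : (z : K) ≠ 0 := by exact_mod_cast hk2
  have hz0 : ψ (Ideal.span {z}) ≠ 0 := by
    intro h0
    rw [h0, mul_zero] at h1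
    exact mul_ne_zero (ph_ne n hxK) (ph_ne n hzK) h1.symm
  refine mul_right_cancel₀ hz0 ?_
  calc ψ (Ideal.span {x}) * ph n (y : K) * ψ (Ideal.span {z})
      = (ψ (Ideal.span {x}) * ψ (Ideal.span {z})) * ph n (y : K) := by ring
    _ = (ψ (Ideal.span {y}) * ψ (Ideal.span {z})) * ph n (x : K) := by rw [h1, h2]; ring
    _ = _ := by ring

/-- the product of two multiplicative functions -/
noncomputable def mulc (ψ χ : Ideal (𝓞 K) →*₀ ℂ) : Ideal (𝓞 K) →*₀ ℂ where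
  toFun 𝔞 := ψ 𝔞 * χ 𝔞
  map_zero' := by rw [map_zero, zero_mul]
  map_one' := by rw [map_one, map_one, one_mul]
  map_mul' 𝔞 𝔟 := by
    simp only [map_mul]
    ring

lemma mulc_apply (ψ χ : Ideal (𝓞 K) →*₀ ℂ) (𝔞 : Ideal (𝓞 K)) : mulc ψ χ 𝔞 = ψ 𝔞 * χ 𝔞 := rfl

/-- totally positive integers in given classes -/
lemma crt_tp {𝔣 𝔤 : Ideal (𝓞 K)} (h1 : 𝔣 ≠ ⊥) (h2 : 𝔤 ≠ ⊥) (hcop : IsCoprime 𝔣 𝔤) (a b : 𝓞 K) :
    ∃ z : 𝓞 K, z - a ∈ 𝔣 ∧ z - b ∈ 𝔤 ∧ TPos K z ∧ z ≠ 0 := by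
  obtain ⟨f, hf, g, hg, hfg⟩ := Ideal.isCoprime_iff_exists.mp hcop
  have hne : 𝔣 * 𝔤 ≠ ⊥ := mul_ne_zero h1 h2
  obtain ⟨k, hk, hk0⟩ := Pool.Agent.Y772.TW.exists_tpos (a * g + b * f)
    (Pool.Agent.Y773.IQ.absNorm_pos' hne)
  have hm : ∀ t : 𝓞 K, t * (Ideal.absNorm (𝔣 * 𝔤) : 𝓞 K) ∈ 𝔣 * 𝔤 := fun t =>
    Ideal.mul_mem_left _ _ (Ideal.absNorm_mem _)
  refine ⟨_, ?_, ?_, hk, hk0⟩
  · have : a * g + b * f + (k : 𝓞 K) * (Ideal.absNorm (𝔣 * 𝔤) : 𝓞 K) - a =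
        (b - a) * f + (k : 𝓞 K) * (Ideal.absNorm (𝔣 * 𝔤) : 𝓞 K) := by
      linear_combination a * hfg
    rw [this]
    exact 𝔣.add_mem (𝔣.mul_mem_left _ hf) (Ideal.mul_le_left (hm _))
  · have : a * g + b * f + (k : 𝓞 K) * (Ideal.absNorm (𝔣 * 𝔤) : 𝓞 K) - b =
        (a - b) * g + (k : 𝓞 K) * (Ideal.absNorm (𝔣 * 𝔤) : 𝓞 K) := by
      linear_combination b * hfg
    rw [this]
    exact 𝔤.add_mem (𝔤.mul_mem_left _ hg) (Ideal.mul_le_right (hm _))

/-- **the product of a Hecke character and a ray class character of coprime conductors is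
primitive** -/
theorem IsHecke.mul {𝔣 𝔤 : Ideal (𝓞 K)} {n : (K →+* ℂ) → ℕ} {ψ χ : Ideal (𝓞 K) →*₀ ℂ}
    (hψ : IsHecke K 𝔣 n ψ) (hχ : IsPrimChar K 𝔤 χ) (hcop : IsCoprime 𝔣 𝔤) (hg : 𝔤 ≠ ⊤) :
    IsHecke K (𝔣 * 𝔤) n (mulc ψ χ) := by
  classical
  have hmul1 : 𝔣 * 𝔤 ≤ 𝔣 := Ideal.mul_le_left
  have hmul2 : 𝔣 * 𝔤 ≤ 𝔤 := Ideal.mul_le_right
  have hcone : ∀ (J : Ideal (𝓞 K)) (z : 𝓞 K), z - 1 ∈ J → IsCoprime (Ideal.span {z}) J :=
    fun J z hz => coprime_of_sub_one' hz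
  refine ⟨mul_ne_zero hψ.ne_bot hχ.ne_bot, fun 𝔞 h𝔞 => ?_, fun x hx0 hx hpos => ?_,
    fun 𝔥 hg1 hg2 => ?_⟩
  · rw [IsCoprime.mul_right_iff, mulc_apply, mul_ne_zero_iff, hψ.supp 𝔞 h𝔞, hχ.supp 𝔞 h𝔞]
  · rw [mulc_apply, hψ.ray x hx0 (hmul1 hx) hpos, hχ.ray x hx0 (hmul2 hx) hpos, mul_one]
  · obtain ⟨𝔤₁, 𝔤₂, h1, h2, rfl⟩ := exists_dvd_and_dvd_of_dvd_mul hg1
    have hle1 : 𝔣 ≤ 𝔤₁ := Ideal.dvd_iff_le.1 h1
    have hle2 : 𝔤 ≤ 𝔤₂ := Ideal.dvd_iff_le.1 h2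
    have hcop12 : IsCoprime 𝔤₁ 𝔤₂ := hcop.of_isCoprime_of_dvd_left h1 |>.of_isCoprime_of_dvd_right h2
    have hmem : ∀ z : 𝓞 K, z ∈ 𝔤₁ → z ∈ 𝔤₂ → z ∈ 𝔤₁ * 𝔤₂ := by
      intro z hz1 hz2
      rw [Ideal.mul_eq_inf_of_coprime (Ideal.isCoprime_iff_sup_eq.1 hcop12)]
      exact ⟨hz1, hz2⟩
    by_cases hc : 𝔤₁ = 𝔣
    · have hg2' : 𝔤₂ ≠ 𝔤 := by
        intro h
        exact hg2 (by rw [hc, h])
      obtain ⟨x₀, hx1, hx2, hx3, hx4⟩ := hχ.prim 𝔤₂ h2 hg2'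
      have hx00 : x₀ ≠ 0 := by
        rintro rfl
        rw [Ideal.span_singleton_eq_bot.mpr rfl, Ideal.isCoprime_iff_sup_eq, bot_sup_eq] at hx3
        exact hg hx3
      obtain ⟨z, hz1, hz2, hz3, hz4⟩ := crt_tp hψ.ne_bot hχ.ne_bot hcop 1 x₀
      refine ⟨z, hmem _ (hle1 hz1) ?_, hz3, ?_, ?_⟩
      · have : z - 1 = (z - x₀) + (x₀ - 1) := by ring
        rw [this]
        exact 𝔤₂.add_mem (hle2 hz2) hx1
      · rw [IsCoprime.mul_right_iff]
        exact ⟨hcone _ _ hz1, Pool.Agent.Y772.SG.coprime_congr hz2 hx3⟩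
      · rw [mulc_apply, hψ.ray z hz4 hz1 hz3]
        intro h6
        apply hx4
        have h7 := Pool.Agent.Y772.G.psi_congr hχ hx00 hz4 hx2 hz3 hx3 hz2
        rw [h7]
        exact mul_left_cancel₀ (ph_ne n (x := (z : K)) (by exact_mod_cast hz4)) (by rw [h6, mul_one])
    · obtain ⟨x₀, hx1, hx2, hx3, hx4⟩ := hψ.prim 𝔤₁ h1 hc
      have hft : 𝔣 ≠ ⊤ := by
        rintro rfl
        apply hc
        exact top_le_iff.mp hle1
      have hx00 : x₀ ≠ 0 := by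
        rintro rfl
        rw [Ideal.span_singleton_eq_bot.mpr rfl, Ideal.isCoprime_iff_sup_eq, bot_sup_eq] at hx3
        exact hft hx3
      obtain ⟨z, hz1, hz2, hz3, hz4⟩ := crt_tp hψ.ne_bot hχ.ne_bot hcop x₀ 1
      refine ⟨z, hmem _ ?_ (hle2 hz2), hz3, ?_, ?_⟩
      · have : z - 1 = (z - x₀) + (x₀ - 1) := by ring
        rw [this]
        exact 𝔤₁.add_mem (hle1 hz1) hx1
      · rw [IsCoprime.mul_right_iff]
        exact ⟨Pool.Agent.Y772.SG.coprime_congr hz1 hx3, hcone _ _ hz2⟩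
      · rw [mulc_apply, hχ.ray z hz4 hz2 hz3, mul_one]
        intro h6
        have h7 := hψ.congr hx00 hz4 hx2 hz3 hx3 hz1
        rw [h6, mul_comm] at h7
        exact hx4 (mul_left_cancel₀ (ph_ne n (x := (z : K)) (by exact_mod_cast hz4)) h7)

end

end Pool.Agent.N784.HC
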