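import Pool.Agent.N784.HC.Unf3

/-! # The Mellin transform of the theta series (helper784)
(adapted from `Pool.Agent.Y773.HG.Mel`) -/

set_option autoImplicit false
set_option linter.unusedSectionVars false

open NumberField Complex Filter Topology MeasureTheory Set
open NumberField.Units NumberField.Units.dirichletUnitTheorem

namespace Pool.Agent.N784.HC

open Pool.Agent.Y773 (lp Idx el Fx PP S0 PIdl gen gen_ne_zero span_gen xE unE toP cube S0_eq
  integrable_exp_sub integral_exp_sub)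
open Pool.Agent.Y773.G (cj rr av av_pos coE xE_apply toP_xE norm_absNorm_cpow summable_PIdl)

variable {K : Type} [Field K] [NumberField K]

/-- the functions `Ψ` under consideration -/
structure Nice (n : (K →+* ℂ) → ℕ) (Ψ : 𝓞 K → ℂ) : Prop where
  bdd : ∃ B : ℝ, ∀ x, ‖Ψ x‖ ≤ B
  zero : Ψ 0 = 0
  unit : ∀ (u : (𝓞 K)ˣ) (x : 𝓞 K), Ψ (u * x) = kp n ((u : 𝓞 K) : K) * Ψ x

/-- the function on the principal ideals -/
noncomputable def AA (n : (K →+* ℂ) → ℕ) (Ψ : 𝓞 K → ℂ) (J : PIdl K) : ℂ :=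
  Ψ (gen J) * ph n (gen J : K)

lemma norm_AA_le {n : (K →+* ℂ) → ℕ} {Ψ : 𝓞 K → ℂ} {B : ℝ} (hB : ∀ x, ‖Ψ x‖ ≤ B)
    (J : PIdl K) : ‖AA n Ψ J‖ ≤ B := by
  unfold AA
  rw [norm_mul]
  calc _ ≤ B * 1 := mul_le_mul (hB _) (norm_ph_le _ _) (norm_nonneg _)
        ((norm_nonneg _).trans (hB 0))
    _ = B := mul_one B

lemma AA_toP {n : (K →+* ℂ) → ℕ} {Ψ : 𝓞 K → ℂ} (h : Nice n Ψ) (x : {x : 𝓞 K // x ≠ 0}) :
    Ψ x.1 * ph n ((x.1 : 𝓞 K) : K) = AA n Ψ (toP x) := by
  obtain ⟨⟨J, z⟩, rfl⟩ := (xE K).surjective x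
  rw [toP_xE]
  have h1 : (xE K (J, z)).1 = (unE K z : 𝓞 K) * gen J := rfl
  have h2 : (((unE K z : (𝓞 K)ˣ) * gen J : 𝓞 K) : K) =
      ((unE K z : (𝓞 K)ˣ) : K) * (gen J : K) := map_mul (algebraMap (𝓞 K) K) _ _
  rw [h1, h.unit, h2, ph_mul]
  unfold AA
  have h3 := kp_mul_ph n (x := ((unE K z : (𝓞 K)ˣ) : K)) (by simp)
  calc _ = (kp n ((unE K z : (𝓞 K)ˣ) : K) * ph n ((unE K z : (𝓞 K)ˣ) : K)) *
        (Ψ (gen J) * ph n (gen J : K)) := by ring
    _ = _ := by rw [h3, one_mul]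

/-- the theta series as a sum over the non-zero integers -/
lemma th_eq {n : (K →+* ℂ) → ℕ} {Ψ : 𝓞 K → ℂ} (h : Nice n Ψ) (s : ℂ) (p : PP K) :
    th n Ψ (el K p) * cexp (Module.finrank ℚ K * s * p.1 / 2) =
      ∑' x : {x : 𝓞 K // x ≠ 0}, ((dn n : ℂ)⁻¹ * AA n Ψ (toP x)) * Fx (NW n) s (av x.1) p := by
  unfold th
  rw [← tsum_mul_right]
  have hsupp : Function.support (fun x : 𝓞 K =>
      Ψ x * GM n (fun w => Real.exp (el K p w / 2)) (x : K) *
      cexp (Module.finrank ℚ K * s * p.1 / 2)) ⊆ {x | x ≠ 0} := by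
    intro x hx h0
    apply hx
    change x = 0 at h0
    simp only
    rw [h0, h.zero, zero_mul, zero_mul]
  rw [← tsum_subtype_eq_of_support_subset hsupp]
  refine tsum_congr fun x => ?_
  rw [← AA_toP h x]
  unfold Fx
  have h1 := GM_phase n (fun w => Real.exp (el K p w / 2)) x.2
  have h2 : (dn n : ℂ) ≠ 0 := by exact_mod_cast (dn_pos n).ne'
  have h3 : GM n (fun w => Real.exp (el K p w / 2)) (x.1 : K) = (dn n : ℂ)⁻¹ * (ph n (x.1 : K) *
      ((Pool.Agent.Y773.G0 (NW n) (fun w => Real.exp (el K p w / 2) * av x.1 w) : ℝ) : ℂ)) := by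
    rw [← h1, inv_mul_cancel_left₀ h2]
  rw [h3]
  ring

/-- the function whose Mellin transform is the completed Dirichlet series -/
noncomputable def hf (n : (K →+* ℂ) → ℕ) (Ψ : 𝓞 K → ℂ) (t : ℝ) : ℂ :=
  ∫ θ in cube K, th n Ψ (el K ((2 / Module.finrank ℚ K) * Real.log t, θ))

theorem mellin_hf (K : Type) [Field K] [NumberField K] : ∃ C : ℝ, 0 < C ∧
    ∀ (n : (K →+* ℂ) → ℕ) (Ψ : 𝓞 K → ℂ), Nice n Ψ → ∀ s : ℂ, 1 < s.re →
      MellinConvergent (hf n Ψ) s ∧ (Summable fun J : PIdl K =>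
        AA n Ψ J * ((Ideal.absNorm J.1 : ℕ) : ℂ) ^ (-s)) ∧
      mellin (hf n Ψ) s = C * (Gp n s *
          ∑' J : PIdl K, AA n Ψ J * ((Ideal.absNorm J.1 : ℕ) : ℂ) ^ (-s)) := by
  classical
  obtain ⟨C, hC, hunf⟩ := unf K
  have hn : (0 : ℝ) < Module.finrank ℚ K := by exact_mod_cast Module.finrank_pos
  set d : ℝ := ((Module.finrank ℚ K : ℕ) : ℝ) with hn'
  refine ⟨d / 2 * C, by positivity, fun n Ψ h s hs => ?_⟩
  obtain ⟨B, hB⟩ := h.bdd
  have hdn : (dn n : ℂ) ≠ 0 := by exact_mod_cast (dn_pos n).ne'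
  obtain ⟨h1, h2, h3⟩ := hunf n (fun J => (dn n : ℂ)⁻¹ * AA n Ψ J) (‖(dn n : ℂ)⁻¹‖ * B)
    (fun J => by
      rw [norm_mul]
      exact mul_le_mul_of_nonneg_left (norm_AA_le hB J) (norm_nonneg _)) s hs
  have hcount : Countable (𝓞 K) := (coE K).countable_iff.mpr inferInstance
  have hth := th_eq h s
  have hcont : Continuous fun p : PP K => th n Ψ (el K p) * cexp (Module.finrank ℚ K * s * p.1 / 2) := by
    have h4 : Continuous (el K) := (el K).continuous_of_finiteDimensional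
    exact ((continuous_th n hB).comp h4).mul (by fun_prop)
  have hint : Integrable (fun p : PP K => th n Ψ (el K p) *
      cexp (Module.finrank ℚ K * s * p.1 / 2)) (volume.restrict (S0 K)) := by
    have h5 := Pool.Agent.Y773.integrable_tsum h1 h2 (by
      simp_rw [← hth]
      exact hcont.aestronglyMeasurable)
    simp_rw [← hth] at h5
    exact h5
  simp_rw [← hth] at h3
  -- Fubini
  have hrestr : (volume : Measure (PP K)).restrict (S0 K) =
      (volume : Measure ℝ).prod (volume.restrict (cube K)) := by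
    rw [S0_eq, Measure.volume_eq_prod, ← Measure.prod_restrict, Measure.restrict_univ]
  rw [hrestr] at hint h3
  rw [integral_prod _ hint] at h3
  have h9 := hint.integral_prod_left
  -- the substitution
  have h6 : ∀ v : ℝ, (Real.exp v : ℂ) * (((Real.exp v : ℝ) : ℂ) ^ (s - 1) • hf n Ψ (Real.exp v)) =
      (fun τ : ℝ => ∫ θ in cube K, th n Ψ (el K (τ, θ)) *
        cexp (Module.finrank ℚ K * s * ((τ, θ) : PP K).1 / 2)) (2 / d * v) := by
    intro v
    simp only
    rw [integral_mul_const]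
    unfold hf
    rw [Real.log_exp, smul_eq_mul]
    have hev : ((Real.exp v : ℝ) : ℂ) ≠ 0 := by exact_mod_cast (Real.exp_pos v).ne'
    have h7 : (Real.exp v : ℂ) * (((Real.exp v : ℝ) : ℂ) ^ (s - 1)) =
        cexp (Module.finrank ℚ K * s * ((2 / d * v : ℝ) : ℂ) / 2) := by
      rw [Complex.cpow_def_of_ne_zero hev, ← Complex.ofReal_log (Real.exp_pos v).le, Real.log_exp,
        Complex.ofReal_exp, ← Complex.exp_add]
      congr 1
      have hnc : (d : ℂ) ≠ 0 := by exact_mod_cast hn.ne'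
      have hnn : (Module.finrank ℚ K : ℂ) = (d : ℂ) := by rw [hn']; push_cast; rfl
      rw [hnn]
      push_cast
      field_simp
      ring
    rw [← mul_assoc, h7]
    ring
  have hsumJ : Summable fun J : PIdl K => AA n Ψ J * ((Ideal.absNorm J.1 : ℕ) : ℂ) ^ (-s) := by
    refine Summable.of_norm_bounded ((summable_PIdl (K := K) hs).mul_left B) fun J => ?_
    rw [norm_mul, norm_absNorm_cpow J.2.1]
    exact mul_le_mul_of_nonneg_right (norm_AA_le hB J) (by positivity)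
  have hconv : MellinConvergent (hf n Ψ) s := by
    unfold MellinConvergent
    rw [← integrable_exp_sub]
    refine (h9.comp_mul_left' (R := 2 / d) (by positivity)).congr (Eventually.of_forall fun v => ?_)
    exact (h6 v).symm
  refine ⟨hconv, hsumJ, ?_⟩
  unfold mellin
  rw [← integral_exp_sub]
  rw [integral_congr_ae (Eventually.of_forall h6)]
  have h8 := Measure.integral_comp_mul_left (fun τ : ℝ => ∫ θ in cube K, th n Ψ (el K (τ, θ)) *
        cexp (Module.finrank ℚ K * s * ((τ, θ) : PP K).1 / 2)) (2 / d)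
  refine h8.trans ?_
  rw [h3, abs_of_pos (by positivity), Complex.real_smul]
  simp_rw [mul_assoc]
  rw [tsum_mul_left]
  push_cast
  have hnc : (d : ℂ) ≠ 0 := by exact_mod_cast hn.ne'
  field_simp

end Pool.Agent.N784.HC
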