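import Pool.Agent.N784.HC.LsgN
import Pool.Agent.N784.AD.Num

/-! # The size of the family and the average of the conductors (helper784; adapted from
`Pool.Agent.Y773.IQ.Num`) -/

set_option autoImplicit false
set_option linter.unusedSectionVars false

open NumberField Filter Topology

namespace Pool.Agent.N784.HC

open Pool.Agent.Y767 (Cls cK)
open Pool.Agent.Y773.IQ (dv divisor_bound norm_le_tau_phi exists_ge absNorm_pos')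
open Pool.Agent.N784.AD (pi1 Un hK card_units_le one_le_norm)

section

variable (K : Type) [Field K] [NumberField K]

theorem fam_bigN (n : (K →+* ℂ) → ℕ) {ε : ℝ} (hε : 0 < ε) : ∃ c : ℝ, 0 < c ∧
    ∀ (𝔮 : Ideal (𝓞 K)) (_ : 𝔮 ≠ ⊥) (htop : 𝔮 ≠ ⊤), (Dn n htop).Nonempty → (Un 𝔮 : ℝ) ≤ (Ideal.absNorm 𝔮 : ℝ) ^ ε →
      c * (Ideal.absNorm 𝔮 : ℝ) ^ (1 - 2 * ε) ≤ ((FamN n 𝔮).ncard : ℝ) + hK K := by
  obtain ⟨C, hC, hdiv⟩ := divisor_bound K hε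
  refine ⟨1 / C, by positivity, fun 𝔮 hbot htop hne hU => ?_⟩
  have hN1 := one_le_norm K hbot
  have a1 := norm_le_tau_phi hbot
  have a2 := card_units_le hbot htop
  have a3 := FamN_lower hbot htop hne
  have a4 := hdiv 𝔮 hbot
  have b1 : (Ideal.absNorm 𝔮 : ℝ) ≤ (dv 𝔮).ncard * Nat.card (𝓞 K ⧸ 𝔮)ˣ := by exact_mod_cast a1
  have b2 : (Nat.card (𝓞 K ⧸ 𝔮)ˣ : ℝ) ≤ Un 𝔮 * Nat.card (Cls (pi1 htop)) := by
    exact_mod_cast a2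
  have b3 : (Nat.card (Cls (pi1 htop)) : ℝ) ≤ (FamN n 𝔮).ncard + hK K := by
    exact_mod_cast a3
  have hN0 : (0 : ℝ) < Ideal.absNorm 𝔮 := by linarith
  have e1 : (Ideal.absNorm 𝔮 : ℝ) ^ (1 - 2 * ε) * ((Ideal.absNorm 𝔮 : ℝ) ^ ε *
      (Ideal.absNorm 𝔮 : ℝ) ^ ε) = Ideal.absNorm 𝔮 := by
    rw [← Real.rpow_add hN0, ← Real.rpow_add hN0]
    have : 1 - 2 * ε + (ε + ε) = 1 := by ring
    rw [this, Real.rpow_one]
  have hp : 0 < (Ideal.absNorm 𝔮 : ℝ) ^ ε := Real.rpow_pos_of_pos hN0 _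
  rw [one_div, inv_mul_le_iff₀ (by positivity)]
  refine le_of_mul_le_mul_right ?_ (mul_pos hp hp)
  rw [e1]
  calc (Ideal.absNorm 𝔮 : ℝ) ≤ (dv 𝔮).ncard * Nat.card (𝓞 K ⧸ 𝔮)ˣ := b1
    _ ≤ (C * (Ideal.absNorm 𝔮 : ℝ) ^ ε) * ((Ideal.absNorm 𝔮 : ℝ) ^ ε *
        ((FamN n 𝔮).ncard + hK K)) := by
        refine mul_le_mul a4 (b2.trans ?_) (Nat.cast_nonneg _) (by positivity)
        exact mul_le_mul hU b3 (Nat.cast_nonneg _) hp.le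
    _ = _ := by ring

/-- the family is large -/
theorem fam_bigN' (n : (K →+* ℂ) → ℕ) {ε : ℝ} (hε : 0 < ε) (hε1 : 2 * ε < 1) :
    ∃ c N0 : ℝ, 0 < c ∧ 1 ≤ N0 ∧
    ∀ (𝔮 : Ideal (𝓞 K)) (_ : 𝔮 ≠ ⊥) (htop : 𝔮 ≠ ⊤), (Dn n htop).Nonempty → (Un 𝔮 : ℝ) ≤ (Ideal.absNorm 𝔮 : ℝ) ^ ε →
      N0 ≤ (Ideal.absNorm 𝔮 : ℝ) →
      c * (Ideal.absNorm 𝔮 : ℝ) ^ (1 - 2 * ε) ≤ ((FamN n 𝔮).ncard : ℝ) := by
  obtain ⟨c, hc, h⟩ := fam_bigN K n hε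
  obtain ⟨N0, hN0, h0⟩ := exists_ge (1 - 2 * ε) (2 * hK K / c) (by linarith)
  refine ⟨c / 2, N0, by positivity, hN0, fun 𝔮 hbot htop hne hU hN => ?_⟩
  have h1 := h 𝔮 hbot htop hne hU
  have h3 := h0 _ hN
  rw [div_le_iff₀ hc] at h3
  linarith

theorem fam_ratioN (n : (K →+* ℂ) → ℕ) {D : ℝ} (hD : 1 < D) : ∃ N0 : ℝ, 1 ≤ N0 ∧
    ∀ (𝔮 : Ideal (𝓞 K)) (_ : 𝔮 ≠ ⊥) (htop : 𝔮 ≠ ⊤), (Dn n htop).Nonempty →
      (Un 𝔮 : ℝ) ≤ (Ideal.absNorm 𝔮 : ℝ) ^ (1 / 4 : ℝ) → N0 ≤ (Ideal.absNorm 𝔮 : ℝ) →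
      (Nat.card (Cls (pi1 htop)) : ℝ) ≤ D * (FamN n 𝔮).ncard := by
  obtain ⟨c, N0, hc, hN0, h⟩ := fam_bigN' K n (ε := 1 / 4) (by norm_num) (by norm_num)
  obtain ⟨N1, hN1, h1⟩ := exists_ge (1 - 2 * (1 / 4))
    (hK K / ((D - 1) * c)) (by norm_num)
  refine ⟨max N0 N1, le_max_of_le_left hN0, fun 𝔮 hbot htop hne hU hN => ?_⟩
  have h3 := h 𝔮 hbot htop hne hU ((le_max_left _ _).trans hN)
  have h4 := h1 _ ((le_max_right _ _).trans hN)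
  have hD0 : 0 < D - 1 := by linarith
  rw [div_le_iff₀ (by positivity)] at h4
  have a3 := FamN_lower hbot htop hne
  have b3 : (Nat.card (Cls (pi1 htop)) : ℝ) ≤ (FamN n 𝔮).ncard + hK K := by
    exact_mod_cast a3
  have h5 : (hK K : ℝ) ≤ (D - 1) * (FamN n 𝔮).ncard := by
    calc (hK K : ℝ)
        ≤ (Ideal.absNorm 𝔮 : ℝ) ^ (1 - 2 * (1 / 4) : ℝ) * ((D - 1) * c) := h4
      _ = (D - 1) * (c * (Ideal.absNorm 𝔮 : ℝ) ^ (1 - 2 * (1 / 4) : ℝ)) := by ring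
      _ ≤ _ := mul_le_mul_of_nonneg_left h3 hD0.le
  linarith

/-- the average of the logarithms of the conductors -/
theorem fam_condN (n : (K →+* ℂ) → ℕ) {δ : ℝ} (hδ : 0 < δ) : ∃ δ₀ N0 : ℝ, 0 < δ₀ ∧ 1 ≤ N0 ∧
    ∀ (𝔮 : Ideal (𝓞 K)) (_ : 𝔮 ≠ ⊥) (htop : 𝔮 ≠ ⊤) (S : Finset (Ideal (𝓞 K) →*₀ ℂ)),
      (Dn n htop).Nonempty → (Un 𝔮 : ℝ) ≤ (Ideal.absNorm 𝔮 : ℝ) ^ δ₀ →
      (∀ ψ, ψ ∈ S ↔ ψ ∈ FamN n 𝔮) → N0 ≤ (Ideal.absNorm 𝔮 : ℝ) →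
      ∑ ψ ∈ S, (Real.log (Ideal.absNorm 𝔮) - Real.log (Ideal.absNorm (cdN n 𝔮 ψ))) ≤
        δ * Real.log (Ideal.absNorm 𝔮) * S.card := by
  classical
  obtain ⟨δ', hδ'⟩ : ∃ δ' : ℝ, δ' = min δ 1 := ⟨_, rfl⟩
  have hd0 : 0 < δ' := by rw [hδ']; exact lt_min hδ one_pos
  have hd1 : δ' ≤ 1 := by rw [hδ']; exact min_le_right _ _
  have hdd : δ' ≤ δ := by rw [hδ']; exact min_le_left _ _
  obtain ⟨C, hC, hdiv⟩ := divisor_bound K (ε := δ' / 8) (by positivity)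
  obtain ⟨c, N0, hc, hN0, hbig⟩ := fam_bigN' K n (ε := δ' / 16) (by positivity) (by linarith)
  have hee : (1 : ℝ) - 2 * (δ' / 16) = 1 - δ' / 8 := by ring
  rw [hee] at hbig
  obtain ⟨h, hh⟩ : ∃ h : ℝ, h = (hK K : ℝ) := ⟨_, rfl⟩
  have hh0 : 0 ≤ h := by rw [hh]; exact Nat.cast_nonneg _
  obtain ⟨N1, hN1, h1⟩ := exists_ge (δ' / 4) (2 * C * h / (c * δ')) (by positivity)
  refine ⟨δ' / 16, max N0 N1, by positivity, le_max_of_le_left hN0, fun 𝔮 hbot htop S hne hU hS hN => ?_⟩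
  have k1 := hbig 𝔮 hbot htop hne hU ((le_max_left _ _).trans hN)
  have k2 := h1 _ ((le_max_right _ _).trans hN)
  obtain ⟨N, hNd⟩ : ∃ N : ℝ, N = (Ideal.absNorm 𝔮 : ℝ) := ⟨_, rfl⟩
  have hNge : 1 ≤ N := by rw [hNd]; exact one_le_norm K hbot
  have hNp : 0 < N := by linarith
  have hL : 0 ≤ Real.log N := Real.log_nonneg hNge
  have hSc : (S.card : ℝ) = ((FamN n 𝔮).ncard : ℝ) := by
    have : (FamN n 𝔮) = (S : Set _) := by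
      ext ψ; rw [Finset.mem_coe, hS]
    rw [this, Set.ncard_coe_finset]
  rw [← hSc] at k1
  rw [← hNd] at k1 k2 ⊢
  obtain ⟨Z, hZ⟩ : ∃ Z : ℝ, Z = N ^ (1 - δ' / 2) := ⟨_, rfl⟩
  have hZ0 : 0 < Z := by rw [hZ]; exact Real.rpow_pos_of_pos hNp _
  have hlogZ : Real.log Z = (1 - δ' / 2) * Real.log N := by rw [hZ, Real.log_rpow hNp]
  obtain ⟨S1, hS1⟩ : ∃ S1 : Finset (Ideal (𝓞 K) →*₀ ℂ),
      S1 = S.filter (fun ψ => (Ideal.absNorm (cdN n 𝔮 ψ) : ℝ) ≤ Z) := ⟨_, rfl⟩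
  have m1 := small_cond hbot Z hZ0.le S1 (by
    intro ψ hψ
    rw [hS1] at hψ
    obtain ⟨u1, u2⟩ := Finset.mem_filter.mp hψ
    exact ⟨(hS ψ).mp u1, u2⟩)
  have m2 : (S1.card : ℝ) ≤ δ' / 2 * S.card := by
    have v1 := hdiv 𝔮 hbot
    rw [← hNd] at v1
    rw [← hh] at m1
    have v2 : N ^ (δ' / 8) * Z * N ^ (δ' / 4) = N ^ (1 - δ' / 8) := by
      rw [hZ, ← Real.rpow_add hNp, ← Real.rpow_add hNp]
      congr 1; ring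
    rw [div_le_iff₀ (by positivity)] at k2
    have v3 : 0 < N ^ (δ' / 8) * Z := mul_pos (Real.rpow_pos_of_pos hNp _) hZ0
    calc (S1.card : ℝ) ≤ (dv 𝔮).ncard * (Z * h) := m1
      _ ≤ (C * N ^ (δ' / 8)) * (Z * h) := mul_le_mul_of_nonneg_right v1 (by positivity)
      _ = (N ^ (δ' / 8) * Z) * (C * h) := by ring
      _ ≤ (N ^ (δ' / 8) * Z) * (N ^ (δ' / 4) * (c * δ') / 2) := by
          refine mul_le_mul_of_nonneg_left ?_ v3.le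
          linarith
      _ = δ' / 2 * (c * (N ^ (δ' / 8) * Z * N ^ (δ' / 4))) := by ring
      _ ≤ δ' / 2 * S.card := by
          rw [v2]
          exact mul_le_mul_of_nonneg_left k1 (by positivity)
  have m3 : ∀ ψ ∈ S, Real.log N - Real.log (Ideal.absNorm (cdN n 𝔮 ψ)) ≤
      δ' / 2 * Real.log N + (if ψ ∈ S1 then Real.log N else 0) := by
    intro ψ hψ
    have w1 := cdN_spec ((hS ψ).mp hψ)
    have w2 : (1 : ℝ) ≤ (Ideal.absNorm (cdN n 𝔮 ψ) : ℝ) := one_le_norm K w1.2.2.ne_bot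
    have w3 : 0 ≤ Real.log (Ideal.absNorm (cdN n 𝔮 ψ)) := Real.log_nonneg w2
    split_ifs with hmem
    · have : 0 ≤ δ' / 2 * Real.log N := by positivity
      linarith
    · have w4 : Z < (Ideal.absNorm (cdN n 𝔮 ψ) : ℝ) := by
        by_contra hcon
        apply hmem
        rw [hS1]
        exact Finset.mem_filter.mpr ⟨hψ, not_lt.mp hcon⟩
      have w5 := Real.log_le_log hZ0 w4.le
      rw [hlogZ] at w5
      linarith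
  refine (Finset.sum_le_sum m3).trans ?_
  rw [Finset.sum_add_distrib, Finset.sum_const, nsmul_eq_mul, ← Finset.sum_filter, Finset.sum_const,
    nsmul_eq_mul]
  have m4 : ((S.filter (fun ψ => ψ ∈ S1)).card : ℝ) ≤ S1.card := by
    have : (S.filter (fun ψ => ψ ∈ S1)).card ≤ S1.card :=
      Finset.card_le_card fun ψ h => (Finset.mem_filter.mp h).2
    exact_mod_cast this
  have m5 : ((S.filter (fun ψ => ψ ∈ S1)).card : ℝ) * Real.log N ≤ δ' / 2 * S.card * Real.log N :=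
    mul_le_mul_of_nonneg_right (m4.trans m2) hL
  have m6 : δ' * (Real.log N * S.card) ≤ δ * (Real.log N * S.card) :=
    mul_le_mul_of_nonneg_right hdd (by positivity)
  nlinarith

end

end Pool.Agent.N784.HC
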