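import Pool.Agent.N784.HC.Fe
import Pool.Agent.Y772.HG.Tot

/-! # Nonvanishing on the line `Re s = 1` (helper784) -/

set_option autoImplicit false
set_option linter.unusedSectionVars false

open NumberField Complex Filter Topology

namespace Pool.Agent.N784.HC

open Pool.Agent.Y773 (LI)
open Pool.Agent.Y773.G (cj cj_cj cj_apply IsModChar)
open Pool.Agent.Y772.NV (ab sq ab_one NVData nv)

variable {K : Type} [Field K] [NumberField K]

/-- the type is nontrivial at some complex place -/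
def Inf (n : (K →+* ℂ) → ℕ) : Prop := ∃ φ : K →+* ℂ, cj φ ≠ φ ∧ n φ ≠ 0

lemma Inf.ne {n : (K →+* ℂ) → ℕ} (h : Inf n) : n ≠ 0 := by
  rintro rfl
  obtain ⟨φ, -, h⟩ := h
  exact h rfl

open Classical in
/-- the type of the square of a character -/
noncomputable def dbl (n : (K →+* ℂ) → ℕ) (φ : K →+* ℂ) : ℕ := if cj φ = φ then 0 else 2 * n φ

lemma TypK.dbl {n : (K →+* ℂ) → ℕ} (h : TypK n) : TypK (dbl n) where
  inv := cj_cj
  real φ hφ := by
    unfold HC.dbl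
    rw [if_pos hφ]
    exact zero_le_one
  cpx φ hφ := by
    unfold HC.dbl
    have h1 : cj (cj φ) ≠ cj φ := by
      rw [cj_cj]
      exact hφ.symm
    rw [if_neg hφ, if_neg h1]
    rcases h.cpx φ hφ with h2 | h2
    · left; rw [h2]
    · right; rw [h2]

lemma Inf.dbl_ne {n : (K →+* ℂ) → ℕ} (h : Inf n) : dbl n ≠ 0 := by
  obtain ⟨φ, h1, h2⟩ := h
  intro h3
  have := congrFun h3 φ
  unfold dbl at this
  rw [if_neg h1] at this
  simp only [Pi.zero_apply, mul_eq_zero, OfNat.ofNat_ne_zero, false_or] at this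
  exact h2 this

lemma ph_dbl (n : (K →+* ℂ) → ℕ) {x : K} (hx : x ≠ 0) : ph (dbl n) x = ph n x * ph n x := by
  classical
  unfold ph
  rw [← Finset.prod_mul_distrib]
  refine Finset.prod_congr rfl fun φ _ => ?_
  unfold dbl
  by_cases hφ : cj φ = φ
  · rw [if_pos hφ, pow_zero, ← mul_pow]
    have h1 : (starRingEnd ℂ) (φ x) = φ x := by
      rw [← cj_apply, hφ]
    have h2 : ((‖φ x‖ : ℝ) : ℂ) ≠ 0 := by
      rw [Ne, Complex.ofReal_eq_zero, norm_eq_zero]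
      exact (map_ne_zero φ).mpr hx
    have h3 : φ x / ((‖φ x‖ : ℝ) : ℂ) * (φ x / ((‖φ x‖ : ℝ) : ℂ)) = 1 := by
      rw [div_mul_div_comm, div_eq_one_iff_eq (mul_ne_zero h2 h2)]
      have h4 := Complex.mul_conj (φ x)
      rw [h1, Complex.normSq_eq_norm_sq] at h4
      rw [h4]
      push_cast
      ring
    rw [h3, one_pow]
  · rw [if_neg hφ, ← pow_add, two_mul]

lemma kp_dbl (n : (K →+* ℂ) → ℕ) {x : K} (hx : x ≠ 0) : kp (dbl n) x = kp n x * kp n x := by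
  unfold kp
  rw [ph_dbl n hx, map_mul]

lemma coprime_of_sub_one' {𝔪 : Ideal (𝓞 K)} {x : 𝓞 K} (hx : x - 1 ∈ 𝔪) :
    IsCoprime (Ideal.span {x}) 𝔪 := by
  rw [Ideal.isCoprime_iff_exists]
  refine ⟨x, Ideal.mem_span_singleton_self x, 1 - x, ?_, by ring⟩
  have : 1 - x = -(x - 1) := by ring
  rw [this]
  exact 𝔪.neg_mem hx

lemma modk_ab {𝔪 : Ideal (𝓞 K)} {κ : K → ℂ} {η : Ideal (𝓞 K) →*₀ ℂ}
    (h : IsModK 𝔪 κ η) : IsModChar 𝔪 (fun _ => 0) (ab η) where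
  ne_bot := h.ne_bot
  ne_top := h.ne_top
  sig_le _ := Nat.zero_le _
  cpx _ _ := rfl
  supp 𝔞 := by
    rw [← h.supp 𝔞]
    have h1 : ab η 𝔞 = η 𝔞 * (starRingEnd ℂ) (η 𝔞) := rfl
    rw [h1, mul_ne_zero_iff, map_ne_zero (starRingEnd ℂ), and_self]
  sig x hx hx1 := by
    rw [ab_one (h.norm_eq_one (coprime_of_sub_one' hx1))]
    unfold Pool.Agent.Y773.G.sg
    simp

lemma modk_sq {𝔪 : Ideal (𝓞 K)} {n : (K →+* ℂ) → ℕ} {η : Ideal (𝓞 K) →*₀ ℂ}
    (h : IsModK 𝔪 (kp n) η) : IsModK 𝔪 (kp (dbl n)) (sq η) where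
  kap := kap_kp _
  ne_bot := h.ne_bot
  ne_top := h.ne_top
  supp 𝔞 := by
    rw [← h.supp 𝔞]
    have h1 : sq η 𝔞 = η 𝔞 * η 𝔞 := rfl
    rw [h1, mul_ne_zero_iff, and_self]
  sig x hx hx1 := by
    have h1 : sq η (Ideal.span {x}) = η (Ideal.span {x}) * η (Ideal.span {x}) := rfl
    rw [h1, kp_dbl n (RingOfIntegers.coe_ne_zero_iff.mpr hx)]
    have h2 := h.sig x hx hx1
    calc _ = (η (Ideal.span {x}) * kp n (x : K)) * (η (Ideal.span {x}) * kp n (x : K)) := by ring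
      _ = 1 := by rw [h2, mul_one]

theorem nvdata {𝔪 : Ideal (𝓞 K)} {n : (K →+* ℂ) → ℕ} {η : Ideal (𝓞 K) →*₀ ℂ}
    (htyp : TypK n) (hn : Inf n) (h : IsModK 𝔪 (kp n) η) : NVData η where
  unit 𝔞 := by
    by_cases h0 : IsCoprime 𝔞 𝔪
    · exact Or.inr (h.norm_eq_one h0)
    · left
      by_contra h1
      exact h0 ((h.supp 𝔞).1 h1)
  pab := by
    obtain ⟨G, h1, h2, h3⟩ := Pool.Agent.Y772.G.LI_pole (modk_ab h)
    exact ⟨G, h1, h2, h3 fun _ => rfl⟩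
  peta := by
    obtain ⟨F, hF, hFs⟩ := LI_entire htyp hn.ne h
    exact ⟨fun s => (s - 1) * F s, (differentiable_id.sub_const 1).mul hF, fun s hs => by
      simp only
      rw [hFs s hs]⟩
  psq := by
    obtain ⟨F, hF, hFs⟩ := LI_entire htyp.dbl hn.dbl_ne (modk_sq h)
    exact ⟨fun s => (s - 1) * F s, (differentiable_id.sub_const 1).mul hF, fun s hs => by
      simp only
      rw [hFs s hs]⟩
  psq' := Or.inr (LI_entire htyp.dbl hn.dbl_ne (modk_sq h))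

/-- **no zeros on `Re s = 1`**, for every Hecke character of nontrivial infinity type -/
theorem nv_K {𝔪 : Ideal (𝓞 K)} {n : (K →+* ℂ) → ℕ} {η : Ideal (𝓞 K) →*₀ ℂ}
    (htyp : TypK n) (hn : Inf n) (h : IsModK 𝔪 (kp n) η)
    {s₀ : ℂ} (hs₀ : s₀.re = 1) {F : ℂ → ℂ} (hF : AnalyticAt ℂ F s₀)
    (hFL : ∀ᶠ s in 𝓝 s₀, 1 < s.re → F s = LI η s) : F s₀ ≠ 0 :=
  nv Pool.Agent.Y772.DK.t_dirK (nvdata htyp hn h) hs₀ hF hFL

end Pool.Agent.N784.HC
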