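import Pool.Agent.N784.HC.Gm

/-! # Theta series with a monomial, Poisson summation (helper784) -/

set_option autoImplicit false
set_option linter.unusedSectionVars false

open NumberField Complex Filter Topology MeasureTheory

namespace Pool.Agent.N784.HC

open Pool.Agent.Y773 (lp Idx GD ghat ech poisson norm_sq_le_sum db FT)
open Pool.Agent.Y773.G (cj rr emb embD embE embT embT_lp embT_injective emb_injective embE_apply rr_xi
  coE co coE_apply rr_eq_emb xi dx dx_spec rr_nat_mul rr_add mk_cj cj_cj prod_cj card_emb sum_mk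
  exists_vol finite_quot resE resE_apply FT_dx FT_support norm_FT_le dx_injective)

variable {K : Type} [Field K] [NumberField K]

lemma gd_GZ {ι : Type} [Fintype ι] (c : ι → ι) (n : ι → ℕ) {a : ι → ℝ} (ha : ∀ w, 0 < a w) :
    GD (fun x : ι → ℝ => GZ c n (fun w => a w * x w)) := by
  classical
  obtain ⟨C, hC, hb⟩ := norm_GZ_le c n
  obtain ⟨d, hd, hda⟩ : ∃ d : ℝ, 0 < d ∧ ∀ w, d ≤ a w ^ 2 := by
    rcases isEmpty_or_nonempty ι with hι | hι
    · exact ⟨1, one_pos, fun w => (IsEmpty.false w).elim⟩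
    · obtain ⟨i, hi⟩ := Finite.exists_min (fun w => a w ^ 2)
      exact ⟨a i ^ 2, by have := ha i; positivity, hi⟩
  refine ⟨C, 2 * d, by positivity, fun z => ?_⟩
  refine (hb _).trans (mul_le_mul_of_nonneg_left (Real.exp_le_exp.mpr ?_) hC)
  have h1 := norm_sq_le_sum z
  have h2 : d * ∑ w, z w ^ 2 ≤ ∑ w, (a w * z w) ^ 2 := by
    rw [Finset.mul_sum]
    refine Finset.sum_le_sum fun w _ => ?_
    rw [mul_pow]
    exact mul_le_mul_of_nonneg_right (hda w) (sq_nonneg _)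
  nlinarith

/-- the theta series of `Ψ`, in logarithmic coordinates -/
noncomputable def th (n : (K →+* ℂ) → ℕ) (Ψ : 𝓞 K → ℂ) (y : InfinitePlace K → ℝ) : ℂ :=
  ∑' x : 𝓞 K, Ψ x * GM n (fun w => Real.exp (y w / 2)) (x : K)

lemma summable_GM (n : (K →+* ℂ) → ℕ) {a : InfinitePlace K → ℝ} (ha : ∀ w, 0 < a w) :
    Summable fun x : 𝓞 K => GM n a (x : K) := by
  have h := ((gd_GZ (cj (K := K)) n (fun φ => ha (InfinitePlace.mk φ))).comp_linear
    (emb K) emb_injective).summable_lp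
  rw [← (coE K).symm.summable_iff]
  refine h.congr fun k => ?_
  simp only [Function.comp_apply]
  have h1 := rr_eq_emb ((coE K).symm k)
  rw [← coE_apply, Equiv.apply_symm_apply] at h1
  unfold GM
  congr 1
  funext w
  rw [← congrFun h1 w]

lemma summable_th (n : (K →+* ℂ) → ℕ) {Ψ : 𝓞 K → ℂ} {B : ℝ}
    (hΨ : ∀ x, ‖Ψ x‖ ≤ B) {a : InfinitePlace K → ℝ} (ha : ∀ w, 0 < a w) :
    Summable fun x : 𝓞 K => Ψ x * GM n a (x : K) := by
  refine Summable.of_norm_bounded ((summable_GM n ha).norm.mul_left B) fun x => ?_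
  rw [norm_mul]
  exact mul_le_mul_of_nonneg_right (hΨ x) (norm_nonneg _)

lemma GZ_cj (n : (K →+* ℂ) → ℕ) (a : InfinitePlace K → ℝ) (x : K) :
    GZ cj n (fun φ => rr (cj φ) x / a (InfinitePlace.mk φ)) = GM (nc n) (fun w => (a w)⁻¹) x := by
  unfold GM GZ
  have h1 : ∀ φ : K →+* ℂ, Zc cj (cj φ) (fun ψ => (a (InfinitePlace.mk ψ))⁻¹ * rr ψ x) =
      Zc cj φ (fun φ => rr (cj φ) x / a (InfinitePlace.mk φ)) := by
    intro φ
    unfold Zc
    beta_reduce
    rw [cj_cj, mk_cj, div_eq_inv_mul (rr (cj φ) x), div_eq_inv_mul (rr φ x)]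
  congr 1
  · rw [← prod_cj]
    refine Finset.prod_congr rfl fun φ _ => ?_
    unfold nc
    rw [← h1, cj_cj]
  · congr 3
    rw [← Pool.Agent.Y773.G.sum_cj]
    congr 1
    funext φ
    beta_reduce
    rw [cj_cj, mk_cj, div_eq_inv_mul]

/-- Poisson summation for one residue class -/
lemma poisson_class {V : ℝ} (hV0 : 0 < V) (hV : ∀ f : ((K →+* ℂ) → ℝ) → ℂ,
      ∫ v : Idx K → ℝ, f (embE K v) = ((V⁻¹ : ℝ) : ℂ) * ∫ u, f u)
    {n : (K →+* ℂ) → ℕ} (hn : TypK n) {a : InfinitePlace K → ℝ}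
    (ha : ∀ w, 0 < a w) {m : ℕ} (hm : 0 < m) (r : 𝓞 K) :
    (Summable fun k : Idx K → ℤ => GM (nc n) (fun w => (a w * m)⁻¹) (xi k)) ∧
    ∑' z : 𝓞 K, GM n a ((r + m * z : 𝓞 K) : K) =
      ((V⁻¹ : ℝ) : ℂ) * ((∏ φ : K →+* ℂ, ((a (InfinitePlace.mk φ) * m : ℝ) : ℂ)⁻¹) *
        (-I) ^ (∑ φ, n φ)) *
      ∑' k : Idx K → ℤ, GM (nc n) (fun w => (a w * m)⁻¹) (xi k) *
        cexp (2 * Real.pi * I * ((∑ j, k j * co r j : ℤ) : ℂ) / m) := by
  classical
  have hm' : (0 : ℝ) < m := by exact_mod_cast hm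
  have ham : ∀ φ : K →+* ℂ, 0 < a (InfinitePlace.mk φ) * m := fun w => mul_pos (ha _) hm'
  have hgd := gd_GZ (cj (K := K)) n ham
  set h : (Idx K → ℝ) → ℂ := fun v =>
    GZ cj n (fun φ => a (InfinitePlace.mk φ) * m * emb K v φ) with hh
  have hGD : GD h := hgd.comp_linear (emb K) emb_injective
  have hcont : Continuous h := by
    have h1 : Continuous (emb K) := (emb K).continuous_of_finiteDimensional
    exact (continuous_GZ _ _).comp (continuous_pi fun w =>
      continuous_const.mul ((continuous_apply w).comp h1))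
  have hhat : ∀ k : Idx K → ℤ, ghat h k = ((V⁻¹ : ℝ) : ℂ) *
      ((∏ φ : K →+* ℂ, ((a (InfinitePlace.mk φ) * m : ℝ) : ℂ)⁻¹) *
      ((-I) ^ (∑ φ, n φ) * GM (nc n) (fun w => (a w * m)⁻¹) (xi k))) := by
    intro k
    rw [← GZ_cj n (fun w => a w * m) (xi k), ← t_ft (K →+* ℂ) cj n hn _ ham
      (fun φ => rr (cj φ) (xi k)), ← hV]
    unfold ghat
    refine integral_congr_ae (Eventually.of_forall fun v => ?_)
    simp only [hh]
    rw [embE_apply, rr_xi]
    congr 1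
    unfold ech
    congr 1
    push_cast
    simp only [Pi.neg_apply, Int.cast_neg, neg_mul, Finset.sum_neg_distrib]
    ring
  have hGT : Summable fun k : Idx K → ℤ => GM (nc n) (fun w => (a w * m)⁻¹) (xi k) := by
    have h1 := ((gd_GZ (cj (K := K)) (nc n) (a := fun φ => (a (InfinitePlace.mk φ) * m)⁻¹)
      (fun w => inv_pos.mpr (ham w))).comp_linear (embT K) embT_injective).summable_lp
    refine h1.congr fun k => ?_
    rw [embT_lp]
    rfl
  refine ⟨hGT, ?_⟩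
  have hhat' : ghat h = fun k : Idx K → ℤ => ((V⁻¹ : ℝ) : ℂ) *
      ((∏ φ : K →+* ℂ, ((a (InfinitePlace.mk φ) * m : ℝ) : ℂ)⁻¹) *
      ((-I) ^ (∑ φ, n φ) * GM (nc n) (fun w => (a w * m)⁻¹) (xi k))) := funext hhat
  have hsum : Summable (ghat h) := by
    rw [hhat']
    exact ((hGT.mul_left _).mul_left _).mul_left _
  have hP := poisson hGD hcont hsum ((m : ℝ)⁻¹ • lp (co r))
  have hl : ∑' z : 𝓞 K, GM n a ((r + m * z : 𝓞 K) : K) =
      ∑' k : Idx K → ℤ, h ((m : ℝ)⁻¹ • lp (co r) + lp k) := by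
    rw [← (coE K).symm.tsum_eq]
    refine tsum_congr fun k => ?_
    simp only [hh]
    unfold GM
    congr 1
    funext w
    have h1 := congrFun (rr_eq_emb ((coE K).symm k)) w
    rw [← coE_apply, Equiv.apply_symm_apply] at h1
    have h2 := congrFun (rr_eq_emb r) w
    rw [map_add, map_smul, Pi.add_apply, Pi.smul_apply, ← h1, ← h2, smul_eq_mul]
    have h3 : ((r + m * (coE K).symm k : 𝓞 K) : K) = (r : K) + m * ((coE K).symm k : 𝓞 K) := by
      push_cast
      rfl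
    rw [h3, rr_add, rr_nat_mul]
    field_simp
  rw [hl, hP, hhat', ← tsum_mul_left]
  refine tsum_congr fun k => ?_
  have hec : ech k ((m : ℝ)⁻¹ • lp (co r)) =
      cexp (2 * Real.pi * I * ((∑ j, k j * co r j : ℤ) : ℂ) / m) := by
    unfold ech
    congr 1
    change 2 * Real.pi * I * ((∑ i, (k i : ℝ) * ((m : ℝ)⁻¹ * (co r i : ℝ)) : ℝ) : ℂ) = _
    push_cast
    rw [mul_div_assoc, Finset.sum_div]
    congr 1
    refine Finset.sum_congr rfl fun j _ => ?_
    field_simp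
  rw [hec]
  ring

/-- **Poisson summation** for the theta series -/
theorem th_poisson (K : Type) [Field K] [NumberField K] : ∃ V : ℝ, 0 < V ∧
    ∀ (n : (K →+* ℂ) → ℕ), TypK n → ∀ (Ψ : 𝓞 K → ℂ) (B : ℝ), (∀ x, ‖Ψ x‖ ≤ B) →
    ∀ m D : ℕ, 0 < m → 0 < D → (D : 𝓞 K) ∈ differentIdeal ℤ (𝓞 K) →
    (∀ x z : 𝓞 K, Ψ (x + m * z) = Ψ x) → ∀ y : InfinitePlace K → ℝ,
      th n Ψ y = (((V⁻¹ : ℝ) : ℂ) * ((m : ℂ) ^ (Module.finrank ℚ K))⁻¹ *
          (-I) ^ (∑ φ : K →+* ℂ, n φ)) *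
        ((Real.exp (-(∑ w, (w.mult : ℝ) * y w) / 2) : ℝ) : ℂ) *
        th (nc n) (FT D m Ψ) (fun w => -y w - 2 * Real.log (m * D)) := by
  classical
  obtain ⟨V, hV0, hV⟩ := exists_vol K
  refine ⟨V, hV0, fun n hn Ψ B hΨ m D hm hD0 hD hper y => ?_⟩
  have hm' : (0 : ℝ) < m := by exact_mod_cast hm
  have hD' : (0 : ℝ) < D := by exact_mod_cast hD0
  have := finite_quot (K := K) hm
  have := Fintype.ofFinite (𝓞 K ⧸ Ideal.span {(m : 𝓞 K)})
  set a : InfinitePlace K → ℝ := fun w => Real.exp (y w / 2) with ha'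
  have ha : ∀ w, 0 < a w := fun w => Real.exp_pos _
  have hs := summable_th n hΨ ha
  set C : ℂ := ((V⁻¹ : ℝ) : ℂ) * ((∏ φ : K →+* ℂ, ((a (InfinitePlace.mk φ) * m : ℝ) : ℂ)⁻¹) *
    (-I) ^ (∑ φ : K →+* ℂ, n φ)) with hC
  -- split into residue classes
  have h1 : th n Ψ y = ∑ r : 𝓞 K ⧸ Ideal.span {(m : 𝓞 K)}, Ψ (Quotient.out r) *
      ∑' z : 𝓞 K, GM n a ((Quotient.out r + m * z : 𝓞 K) : K) := by
    unfold th
    rw [← (resE hm).tsum_eq]
    have hs2 := (resE hm).summable_iff.mpr hs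
    refine (hs2.tsum_prod' (fun r => hs2.prod_factor r)).trans ?_
    rw [tsum_fintype]
    refine Finset.sum_congr rfl fun r _ => ?_
    rw [← tsum_mul_left]
    refine tsum_congr fun z => ?_
    simp only [Function.comp_apply]
    rw [resE_apply, hper]
  have h2 : ∀ r : 𝓞 K, _ := fun r => poisson_class hV0 hV hn ha hm r
  have h3 : th n Ψ y = C * ∑' k : Idx K → ℤ,
      GM (nc n) (fun w => (a w * m)⁻¹) (xi k) * FT D m Ψ (dx hD k) := by
    rw [h1]
    simp_rw [fun r => (h2 r).2]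
    have h4 : ∀ r : 𝓞 K, Summable fun k : Idx K → ℤ =>
        GM (nc n) (fun w => (a w * m)⁻¹) (xi k) *
        cexp (2 * Real.pi * I * ((∑ j, k j * co r j : ℤ) : ℂ) / m) := by
      intro r
      refine Summable.of_norm_bounded (h2 r).1.norm fun k => ?_
      rw [norm_mul]
      have : (2 * Real.pi * I * ((∑ j, k j * co r j : ℤ) : ℂ) / m) =
          ((2 * Real.pi * ((∑ j, k j * co r j : ℤ) : ℝ) / m : ℝ) : ℂ) * I := by
        push_cast
        ring
      rw [this, Complex.norm_exp_ofReal_mul_I, mul_one]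
    calc ∑ r : 𝓞 K ⧸ Ideal.span {(m : 𝓞 K)}, Ψ (Quotient.out r) * (C * ∑' k : Idx K → ℤ,
          GM (nc n) (fun w => (a w * m)⁻¹) (xi k) *
          cexp (2 * Real.pi * I * ((∑ j, k j * co (Quotient.out r) j : ℤ) : ℂ) / m))
        = C * ∑ r : 𝓞 K ⧸ Ideal.span {(m : 𝓞 K)}, ∑' k : Idx K → ℤ, Ψ (Quotient.out r) *
          (GM (nc n) (fun w => (a w * m)⁻¹) (xi k) *
          cexp (2 * Real.pi * I * ((∑ j, k j * co (Quotient.out r) j : ℤ) : ℂ) / m)) := by
          rw [Finset.mul_sum]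
          refine Finset.sum_congr rfl fun r _ => ?_
          rw [tsum_mul_left]
          ring
      _ = C * ∑' k : Idx K → ℤ, ∑ r : 𝓞 K ⧸ Ideal.span {(m : 𝓞 K)}, Ψ (Quotient.out r) *
          (GM (nc n) (fun w => (a w * m)⁻¹) (xi k) *
          cexp (2 * Real.pi * I * ((∑ j, k j * co (Quotient.out r) j : ℤ) : ℂ) / m)) := by
          rw [Summable.tsum_finsetSum (fun r _ => (h4 _).mul_left _)]
      _ = _ := by
          congr 1
          refine tsum_congr fun k => ?_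
          rw [FT_dx hD0 hD hm, Finset.mul_sum]
          refine Finset.sum_congr rfl fun r _ => ?_
          ring
  rw [h3]
  have h5 : ∑' k : Idx K → ℤ, GM (nc n) (fun w => (a w * m)⁻¹) (xi k) *
      FT D m Ψ (dx hD k) = th (nc n) (FT D m Ψ) (fun w => -y w - 2 * Real.log (m * D)) := by
    unfold th
    rw [← (dx_injective hD hD0).tsum_eq]
    · refine tsum_congr fun k => ?_
      rw [mul_comm]
      unfold GM
      congr 2
      funext φ
      have h6 : Real.exp ((-y (InfinitePlace.mk φ) - 2 * Real.log (m * D)) / 2) =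
          (a (InfinitePlace.mk φ))⁻¹ * (m * D : ℝ)⁻¹ := by
        rw [ha', ← Real.exp_neg, ← Real.exp_log (show (0 : ℝ) < (m * D : ℝ)⁻¹ by positivity),
          ← Real.exp_add, Real.log_inv]
        congr 1
        ring
      beta_reduce
      rw [h6, dx_spec, rr_nat_mul]
      have := (ha (InfinitePlace.mk φ)).ne'
      field_simp
    · intro x hx
      rw [Function.mem_support] at hx
      exact FT_support hD0 hD Ψ x (left_ne_zero_of_mul hx)
  rw [h5]
  congr 1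
  rw [hC]
  have h7 : (∏ φ : K →+* ℂ, ((a (InfinitePlace.mk φ) * m : ℝ) : ℂ)⁻¹) =
      ((Real.exp (-(∑ w, (w.mult : ℝ) * y w) / 2) : ℝ) : ℂ) *
        ((m : ℂ) ^ (Module.finrank ℚ K))⁻¹ := by
    rw [← card_emb (K := K), ← sum_mk]
    have h8 : ∀ φ : K →+* ℂ, ((a (InfinitePlace.mk φ) * m : ℝ) : ℂ)⁻¹ =
        ((Real.exp (-(y (InfinitePlace.mk φ)) / 2) : ℝ) : ℂ) * (m : ℂ)⁻¹ := by
      intro w
      rw [ha']
      push_cast
      rw [mul_inv, ← Complex.exp_neg]
      congr 2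
      ring
    simp_rw [h8]
    rw [Finset.prod_mul_distrib, Finset.prod_const, Finset.card_univ, inv_pow]
    congr 1
    rw [← Complex.ofReal_prod, ← Real.exp_sum]
    congr 2
    rw [← Finset.sum_div, Finset.sum_neg_distrib]
  rw [h7]
  ring

end Pool.Agent.N784.HC
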