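import Pool.Agent.N784.HC.Good2
import Pool.Agent.N784.AD.Cl

/-! # Primitive Hecke characters of infinity type `n` and the characters of the monoid of the
ideals prime to `𝔮` (helper784; adapted from `AD.Ray`) -/

set_option autoImplicit false
set_option linter.unusedSectionVars false

open NumberField

namespace Pool.Agent.N784.HC

open Pool.Agent.Y773 (TPos)
open Pool.Agent.Y767 (Mq Mq_cop Mq_ne_bot Mq_cancel isUnit_mk coprime_of_isUnit Cls cls cls_eq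
  cls_of_mul cls_pi cls_div ext_mon tpos_one tpos_mul tpos_of_mul)
open Pool.Agent.Y773.IQ (ne_zero_of_cop cop_mono cop_one cop_congr cop_mul exists_cop_lift
  exists_inv exists_mem_one exists_moving ofM' ofM'_pos ofM'_supp absNorm_pos' absNorm_lt)
open Pool.Agent.N784.AD (exists_tp exists_mem_one_tp exists_moving_tp T1 T1_one T1_tp T1_cop pi1
  pi1_coe pi2 pi2_coe cop_ne_bot)

section

variable {K : Type} [Field K] [NumberField K] {n : (K →+* ℂ) → ℕ}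

lemma coe_ne {x : 𝓞 K} (h : x ≠ 0) : (x : K) ≠ 0 := by exact_mod_cast h

lemma cond_le {𝔮 𝔣 𝔣' : Ideal (𝓞 K)} {ψ ψ' : Ideal (𝓞 K) →*₀ ℂ}
    (hq : 𝔮 ≠ ⊥) (h : IsHecke K 𝔣 n ψ) (h' : IsHecke K 𝔣' n ψ') (hd : 𝔣 ∣ 𝔮) (hd' : 𝔣' ∣ 𝔮)
    (ht : 𝔣 ≠ ⊤) (ht' : 𝔣' ≠ ⊤) (he : ∀ 𝔞, IsCoprime 𝔞 𝔮 → ψ 𝔞 = ψ' 𝔞) : 𝔣' ≤ 𝔣 := by
  have hqf := Ideal.dvd_iff_le.mp hd
  have hqf' := Ideal.dvd_iff_le.mp hd'
  by_contra hcon
  have hne : 𝔣 ⊔ 𝔣' ≠ 𝔣 := fun h1 => hcon (h1 ▸ le_sup_right)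
  obtain ⟨x, hx1, hxp, hx2, hx3⟩ := h.prim (𝔣 ⊔ 𝔣') (Ideal.dvd_iff_le.mpr le_sup_left) hne
  obtain ⟨f, hf, f', hf', hff⟩ := Submodule.mem_sup.mp hx1
  apply hx3
  have hz : x - f = 1 + f' := by linear_combination -hff
  have hz1 : IsCoprime (Ideal.span {x - f}) 𝔣 := cop_congr (by
    have : x - f - x = -f := by ring
    rw [this]; exact neg_mem hf) hx2
  have hz2 : IsCoprime (Ideal.span {x - f}) 𝔣' := by
    rw [hz]; exact cop_one (by rw [add_sub_cancel_left]; exact hf')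
  have hz3 : IsCoprime (Ideal.span {x - f}) (𝔣 ⊓ 𝔣') :=
    cop_mono Ideal.mul_le_inf (IsCoprime.mul_right hz1 hz2)
  obtain ⟨z₀, hz4', hz5'⟩ := exists_cop_lift (le_inf hqf hqf') hq hz3
  obtain ⟨z', hzp, hzz⟩ := exists_tp z₀ hq
  have hz4 : IsCoprime (Ideal.span {z'}) 𝔮 := cop_congr hzz hz4'
  have hz5 : z' - (x - f) ∈ 𝔣 ⊓ 𝔣' := by
    have : z' - (x - f) = (z' - z₀) + (z₀ - (x - f)) := by ring
    rw [this]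
    exact add_mem (le_inf hqf hqf' hzz) hz5'
  have hz6 : z' - x ∈ 𝔣 := by
    have : z' - x = (z' - (x - f)) - f := by ring
    rw [this]; exact sub_mem (inf_le_left (b := 𝔣') hz5) hf
  have hz7 : z' - 1 ∈ 𝔣' := by
    have : z' - 1 = (z' - (x - f)) + f' := by rw [hz]; ring
    rw [this]; exact add_mem (inf_le_right (a := 𝔣) hz5) hf'
  have hx0 := ne_zero_of_cop ht hx2
  have hz0 := ne_zero_of_cop ht' (cop_one hz7)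
  have e1 := h.congr hx0 hz0 hxp hzp hx2 hz6
  rw [he _ hz4, h'.ray z' hz0 hz7 hzp, mul_comm (ph n (z' : K))] at e1
  exact mul_right_cancel₀ (ph_ne n (coe_ne hz0)) e1

/-- **a primitive character is determined by its values on the ideals prime to a multiple of its
conductor** -/
theorem prim_unique {𝔮 𝔣 𝔣' : Ideal (𝓞 K)} {ψ ψ' : Ideal (𝓞 K) →*₀ ℂ}
    (hq : 𝔮 ≠ ⊥) (h : IsHecke K 𝔣 n ψ) (h' : IsHecke K 𝔣' n ψ') (hd : 𝔣 ∣ 𝔮) (hd' : 𝔣' ∣ 𝔮)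
    (ht : 𝔣 ≠ ⊤) (ht' : 𝔣' ≠ ⊤) (he : ∀ 𝔞, IsCoprime 𝔞 𝔮 → ψ 𝔞 = ψ' 𝔞) : 𝔣 = 𝔣' ∧ ψ = ψ' := by
  have h1 := cond_le hq h h' hd hd' ht ht' he
  have h2 := cond_le hq h' h hd' hd ht' ht (fun 𝔞 ha => (he 𝔞 ha).symm)
  obtain rfl : 𝔣 = 𝔣' := le_antisymm h2 h1
  have hqf := Ideal.dvd_iff_le.mp hd
  refine ⟨rfl, ?_⟩
  ext 𝔞
  by_cases h0 : 𝔞 = ⊥
  · rw [h0, ← Ideal.zero_eq_bot, map_zero, map_zero]
  by_cases hc : IsCoprime 𝔞 𝔣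
  · obtain ⟨x, 𝔠, hx1, hxp, hx2, hx3⟩ := exists_mem_one_tp hc h0 h.ne_bot
    have h𝔠 : 𝔠 ≠ ⊥ := by
      rintro rfl
      rw [Ideal.isCoprime_iff_sup_eq, bot_sup_eq] at hx3
      exact ht hx3
    obtain ⟨y, 𝔟, hy1, hyp, hy2, hy3⟩ := exists_moving_tp hqf hq h𝔠 hx3
    have hx0 := ne_zero_of_cop ht (cop_one hx1)
    have hy0 := ne_zero_of_cop ht (cop_one hy1)
    have e1 : ∀ (φ : Ideal (𝓞 K) →*₀ ℂ), IsHecke K 𝔣 n φ →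
        φ 𝔞 * ph n (y : K) = φ 𝔟 * ph n (x : K) := by
      intro φ hφ
      have h3 := hφ.ray x hx0 hx1 hxp
      have h4 := hφ.ray y hy0 hy1 hyp
      rw [hx2, map_mul] at h3
      rw [hy2, map_mul] at h4
      rw [← h3, ← h4]
      ring
    have e2 := e1 ψ h
    have e3 := e1 ψ' h'
    rw [he 𝔟 hy3, ← e3] at e2
    exact mul_right_cancel₀ (ph_ne n (coe_ne hy0)) e2
  · have h3 : ψ 𝔞 = 0 := by
      by_contra h4; exact hc ((h.supp 𝔞 h0).mp h4)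
    have h5 : ψ' 𝔞 = 0 := by
      by_contra h4; exact hc ((h'.supp 𝔞 h0).mp h4)
    rw [h3, h5]

/-- the key step: two ideals prime to `𝔮` in the same ray class modulo `𝔣` -/
lemma key_step {𝔮 𝔣 : Ideal (𝓞 K)} (hqf : 𝔮 ≤ 𝔣) (hbot : 𝔮 ≠ ⊥) (htop : 𝔮 ≠ ⊤) (hf : 𝔣 ≠ ⊤)
    {𝔞 𝔟 : Ideal (𝓞 K)}
    (h𝔞 : IsCoprime 𝔞 𝔮) (h𝔟 : IsCoprime 𝔟 𝔮) {x y : 𝓞 K} (hx : x - 1 ∈ 𝔣) (hy : y - 1 ∈ 𝔣)
    (hxp : TPos K x) (hyp : TPos K y) (hab : 𝔞 * Ideal.span {x} = 𝔟 * Ideal.span {y}) :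
    ∃ x' y' : 𝓞 K, x' - 1 ∈ 𝔮 ∧ TPos K x' ∧ IsCoprime (Ideal.span {y'}) 𝔮 ∧ y' - 1 ∈ 𝔣 ∧
      TPos K y' ∧ 𝔞 * Ideal.span {x'} = 𝔟 * Ideal.span {y'} ∧ y' * x = x' * y := by
  obtain ⟨x', 𝔠, hx1, hxp', hx2, hx3⟩ := exists_mem_one_tp h𝔟 (cop_ne_bot htop h𝔟) hbot
  have h2 : 𝔞 * 𝔠 * Ideal.span {x} = Ideal.span {x' * y} := by
    rw [← Ideal.span_singleton_mul_span_singleton, hx2, mul_right_comm, hab]
    ring
  have h3 : x' * y ∈ Ideal.span {x} := by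
    have h4 : Ideal.span {x' * y} ≤ Ideal.span {x} := by
      rw [← h2]; exact Ideal.mul_le_right
    exact h4 (Ideal.mem_span_singleton_self _)
  obtain ⟨y', hy'⟩ := Ideal.mem_span_singleton'.mp h3
  have hx0 : x ≠ 0 := ne_zero_of_cop hf (cop_one hx)
  have h5 : 𝔞 * 𝔠 = Ideal.span {y'} := by
    apply mul_right_cancel₀ (b := Ideal.span {x})
    · rw [Ne, Ideal.zero_eq_bot, Ideal.span_singleton_eq_bot]; exact hx0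
    · rw [h2, Ideal.span_singleton_mul_span_singleton, hy']
  refine ⟨x', y', hx1, hxp', ?_, ?_, ?_, ?_, hy'⟩
  · rw [← h5]; exact IsCoprime.mul_left h𝔞 hx3
  · have e1 := (Ideal.Quotient.eq (I := 𝔣)).mpr hx
    have e2 := (Ideal.Quotient.eq (I := 𝔣)).mpr hy
    have e3 := (Ideal.Quotient.eq (I := 𝔣)).mpr (hqf hx1)
    rw [← Ideal.Quotient.eq]
    have e4 := congrArg (Ideal.Quotient.mk 𝔣) hy'
    rw [map_mul, map_mul, e1, e2, e3, map_one, mul_one, mul_one] at e4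
    rw [e4, map_one]
  · apply tpos_of_mul hxp
    rw [mul_comm, hy']
    exact tpos_mul hxp' hyp
  · rw [hx2, ← h5]; ring

/-- the archimedean part on the totally positive integers congruent to one -/
noncomputable def phT (n : (K →+* ℂ) → ℕ) {𝔣 : Ideal (𝓞 K)} (hf : 𝔣 ≠ ⊤) : T1 hf →* ℂˣ where
  toFun x := Units.mk0 (ph n ((x : 𝓞 K) : K)) (ph_ne n (coe_ne (ne_zero_of_cop hf (T1_cop x))))
  map_one' := by
    ext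
    rw [Units.val_mk0, Units.val_one, Submonoid.coe_one]
    have h1 : ((1 : 𝓞 K) : K) = 1 := map_one (algebraMap (𝓞 K) K)
    rw [h1]
    unfold ph
    simp
  map_mul' x y := by
    ext
    rw [Units.val_mk0, Units.val_mul, Units.val_mk0, Units.val_mk0, Submonoid.coe_mul, ph_coe_mul]

lemma phT_coe {𝔣 : Ideal (𝓞 K)} (hf : 𝔣 ≠ ⊤) (x : T1 hf) :
    ((phT n hf x : ℂˣ) : ℂ) = ph n ((x : 𝓞 K) : K) := rfl

theorem exists_ext {𝔮 𝔣 : Ideal (𝓞 K)} (hqf : 𝔮 ≤ 𝔣) (hbot : 𝔮 ≠ ⊥) (htop : 𝔮 ≠ ⊤) (hf : 𝔣 ≠ ⊤)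
    (F : Mq 𝔮 →* ℂˣ) (hF : ∀ x : T1 htop, F (pi1 htop x) = phT n htop x)
    (h1 : ∀ (x : 𝓞 K) (hx : IsCoprime (Ideal.span {x}) 𝔮), x - 1 ∈ 𝔣 → TPos K x →
      ((F ⟨Ideal.span {x}, hx⟩ : ℂˣ) : ℂ) = ph n (x : K)) :
    ∃ F' : Mq 𝔣 →* ℂˣ, ∀ p : Mq 𝔮 × T1 hf, F' (pi2 hqf hf p) = F p.1 * phT n hf p.2 := by
  have := Mq_cancel hf
  obtain ⟨F', hF'⟩ := ext_mon (pi2 hqf hf)
    ((F.comp (MonoidHom.fst _ _)) * ((phT n hf).comp (MonoidHom.snd _ _))) (by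
    rintro ⟨𝔞, x⟩ ⟨𝔟, y⟩ hab
    rw [MonoidHom.mul_apply, MonoidHom.mul_apply, MonoidHom.comp_apply, MonoidHom.comp_apply,
      MonoidHom.comp_apply, MonoidHom.comp_apply, MonoidHom.coe_fst, MonoidHom.coe_snd]
    have hab' := congrArg Subtype.val hab
    rw [pi2_coe, pi2_coe] at hab'
    obtain ⟨x', y', hx1, hxp, hy1, hy2, hyp, hxy, he⟩ := key_step hqf hbot htop hf (Mq_cop 𝔞)
      (Mq_cop 𝔟) (T1_one x) (T1_one y) (T1_tp x) (T1_tp y) hab'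
    have h6 := h1 y' hy1 hy2 hyp
    have h7 := hF ⟨x', hx1, hxp⟩
    have h8 : 𝔞 * pi1 htop ⟨x', hx1, hxp⟩ = 𝔟 * ⟨Ideal.span {y'}, hy1⟩ := by
      apply Subtype.ext
      rw [Submonoid.coe_mul, Submonoid.coe_mul, pi1_coe]
      exact hxy
    have h9 := congrArg (fun z => ((F z : ℂˣ) : ℂ)) h8
    simp only [map_mul, Units.val_mul] at h9
    rw [h7, h6, phT_coe] at h9
    ext
    change ((F 𝔞 * phT n hf x : ℂˣ) : ℂ) = ((F 𝔟 * phT n hf y : ℂˣ) : ℂ)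
    rw [Units.val_mul, Units.val_mul, phT_coe, phT_coe]
    have hx'0 : x' ≠ 0 := ne_zero_of_cop htop (cop_one hx1)
    have h10 := congrArg (fun z : 𝓞 K => ph n (z : K)) he
    simp only [ph_coe_mul] at h10
    refine mul_right_cancel₀ (ph_ne n (coe_ne hx'0)) ?_
    calc ((F 𝔞 : ℂˣ) : ℂ) * ph n ((x : 𝓞 K) : K) * ph n (x' : K) =
        (((F 𝔞 : ℂˣ) : ℂ) * ph n (x' : K)) * ph n ((x : 𝓞 K) : K) := by ring
      _ = ((F 𝔟 : ℂˣ) : ℂ) * (ph n (y' : K) * ph n ((x : 𝓞 K) : K)) := by rw [h9]; ring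
      _ = _ := by rw [h10]; ring)
  exact ⟨F', fun p => hF' p⟩

/-- **every character modulo `𝔮` of infinity type `n`, apart from those of conductor `1`, is induced
by a primitive character of conductor `≠ 1`** -/
theorem exists_prim {𝔮 : Ideal (𝓞 K)} (hbot : 𝔮 ≠ ⊥) (htop : 𝔮 ≠ ⊤) (F : Mq 𝔮 →* ℂˣ)
    (hF : ∀ x : T1 htop, F (pi1 htop x) = phT n htop x) :
    (∀ (x : 𝓞 K) (hx : IsCoprime (Ideal.span {x}) 𝔮), TPos K x →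
      ((F ⟨Ideal.span {x}, hx⟩ : ℂˣ) : ℂ) = ph n (x : K)) ∨
    ∃ (𝔣 : Ideal (𝓞 K)) (ψ : Ideal (𝓞 K) →*₀ ℂ), 𝔣 ∣ 𝔮 ∧ 𝔣 ≠ ⊤ ∧
      IsHecke K 𝔣 n ψ ∧ ∀ x : Mq 𝔮, ψ (x : Ideal (𝓞 K)) = ((F x : ℂˣ) : ℂ) := by
  obtain ⟨P, hP⟩ : ∃ P : Set (Ideal (𝓞 K)), ∀ 𝔣, 𝔣 ∈ P ↔ (𝔣 ∣ 𝔮 ∧ ∀ (x : 𝓞 K)
    (hx : IsCoprime (Ideal.span {x}) 𝔮), x - 1 ∈ 𝔣 → TPos K x →
      ((F ⟨Ideal.span {x}, hx⟩ : ℂˣ) : ℂ) = ph n (x : K)) :=
    ⟨{𝔣 | _}, fun 𝔣 => Iff.rfl⟩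
  have hne : P.Nonempty := ⟨𝔮, (hP 𝔮).mpr ⟨dvd_refl _, fun x hx h1 h2 => by
    have := hF ⟨x, h1, h2⟩
    rw [← phT_coe htop ⟨x, h1, h2⟩, ← this]
    rfl⟩⟩
  obtain ⟨𝔣, h𝔣, hmin⟩ := (measure (fun 𝔣 : Ideal (𝓞 K) => Ideal.absNorm 𝔣)).wf.has_min P hne
  obtain ⟨hd, h1⟩ := (hP 𝔣).mp h𝔣
  by_cases hf : 𝔣 = ⊤
  · left
    intro x hx
    exact h1 x hx (by rw [hf]; exact Submodule.mem_top)
  right
  have hqf := Ideal.dvd_iff_le.mp hd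
  have hfb : 𝔣 ≠ ⊥ := by
    rintro rfl
    exact hbot (le_bot_iff.mp hqf)
  obtain ⟨F', hF'⟩ := exists_ext hqf hbot htop hf F hF h1
  have hres : ∀ x : Mq 𝔮, ∀ h : IsCoprime (x : Ideal (𝓞 K)) 𝔣, F' ⟨(x : Ideal (𝓞 K)), h⟩ = F x := by
    intro x h
    have h2 := hF' (x, 1)
    rw [map_one, mul_one] at h2
    rw [← h2]
    congr 1
    apply Subtype.ext
    rw [pi2_coe, Submonoid.coe_one, Ideal.span_singleton_one, ← Ideal.one_eq_top, mul_one]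
  refine ⟨𝔣, ofM' hf F', hd, hf, ⟨hfb, fun 𝔞 _ => ofM'_supp hf F' 𝔞, ?_, ?_⟩, ?_⟩
  · intro x hx0 hx1 hxp
    rw [ofM'_pos hf F' (cop_one hx1)]
    have h2 := hF' (1, ⟨x, hx1, hxp⟩)
    have h3 : pi2 hqf hf (1, ⟨x, hx1, hxp⟩) = ⟨Ideal.span {x}, cop_one hx1⟩ := by
      apply Subtype.ext
      rw [pi2_coe, Submonoid.coe_one, one_mul]
    rw [h3, map_one, one_mul] at h2
    rw [h2, phT_coe]
  · intro 𝔤 hg hgne
    have hnP : ¬ 𝔤 ∈ P := fun hP' => hmin 𝔤 hP' (absNorm_lt hfb hg hgne)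
    rw [hP, not_and] at hnP
    have h2 := hnP (hg.trans hd)
    push Not at h2
    obtain ⟨x, hx, hx1, hxp, hx2⟩ := h2
    have hxf := cop_mono hqf hx
    refine ⟨x, hx1, hxp, hxf, ?_⟩
    rw [ofM'_pos hf F' hxf, hres ⟨Ideal.span {x}, hx⟩ hxf]
    exact hx2
  · intro x
    have hxf := cop_mono hqf (Mq_cop x)
    rw [ofM'_pos hf F' hxf, hres x hxf]

end

end Pool.Agent.N784.HC
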