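import Mathlib

/-! # Statement: the infinity types which come from CM fields (helper784) -/

set_option autoImplicit false

open NumberField

namespace Pool.Agent.N784.HC

/-- the units of `K` congruent to `1` modulo `3` are in the kernel of the algebraic infinity types,
those inflated from a CM subfield `F` with weights `k` of constant parity -/
def StAdm : Prop := ∀ (F K : Type) [Field F] [NumberField F] [IsCMField F] [Field K]
  [NumberField K] [Algebra F K] (k : (F →+* ℂ) → ℕ) (w : ℕ),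
  (∀ τ : F →+* ℂ, k τ = 0 ∨ k (ComplexEmbedding.conjugate τ) = 0) →
  (∀ τ : F →+* ℂ, (k τ + k (ComplexEmbedding.conjugate τ)) % 2 = w % 2) →
  ∀ u : (𝓞 K)ˣ, (∃ b : 𝓞 K, (u : 𝓞 K) - 1 = 3 * b) →
    ∏ φ : K →+* ℂ, (φ ((u : 𝓞 K) : K) / (‖φ ((u : 𝓞 K) : K)‖ : ℂ)) ^
      (k (φ.comp (algebraMap F K))) = 1

end Pool.Agent.N784.HC
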