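import Pool.Agent.N784.HC.Cty

/-! # The Mellin transform of the theta series: unfolding (helper784) -/

set_option autoImplicit false
set_option linter.unusedSectionVars false

open NumberField Complex Filter Topology MeasureTheory Set
open NumberField.Units NumberField.Units.dirichletUnitTheorem

namespace Pool.Agent.N784.HC

open Pool.Agent.Y773 (lp Idx el Fx PP)
open Pool.Agent.Y773.G (cj rr prod_emb av av_pos sqrt_mult_pos loc_gam c2 c2_pos int_Fx0 prod_av mk_cj)

variable {K : Type} [Field K] [NumberField K]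

open Classical in
/-- the shifts of the gamma factors, indexed by the complex embeddings: `n_w` at a real place `w`,
`N_w/2` and `N_w/2 + 1` at the two embeddings of a complex place
(`Γ_ℝ(s + N/2) Γ_ℝ(s + N/2 + 1) = Γ_ℂ(s + N/2)`) -/
noncomputable def ex (n : (K →+* ℂ) → ℕ) (φ : K →+* ℂ) : ℝ :=
  if (InfinitePlace.mk φ).IsReal then NW n (InfinitePlace.mk φ)
  else if (InfinitePlace.mk φ).embedding = φ then NW n (InfinitePlace.mk φ) / 2
  else NW n (InfinitePlace.mk φ) / 2 + 1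

lemma ex_nonneg (n : (K →+* ℂ) → ℕ) (φ : K →+* ℂ) : 0 ≤ ex n φ := by
  unfold ex
  split_ifs <;> positivity

open Classical in
lemma prod_ex {M : Type} [CommMonoid M] (n : (K →+* ℂ) → ℕ) (f : ℝ → M) :
    ∏ φ : K →+* ℂ, f (ex n φ) = ∏ w : InfinitePlace K,
      if w.IsReal then f (NW n w) else f (NW n w / 2) * f (NW n w / 2 + 1) := by
  rw [prod_emb]
  refine Finset.prod_congr rfl fun w _ => ?_
  split_ifs with hw
  · congr 1
    unfold ex
    rw [w.mk_embedding, if_pos hw]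
  · have h1 : ex n w.embedding = NW n w / 2 := by
      unfold ex
      rw [w.mk_embedding, if_neg hw, if_pos rfl]
    have hne : w.embedding ≠ cj w.embedding := by
      intro h
      apply hw
      rw [InfinitePlace.isReal_iff]
      exact h.symm
    have h2 : ex n (cj w.embedding) = NW n w / 2 + 1 := by
      unfold ex
      rw [mk_cj, w.mk_embedding, if_neg hw, if_neg hne]
    rw [h1, h2]

/-- the local factor at one complex place -/
lemma loc_gam' {w : InfinitePlace K} (hw : ¬ w.IsReal) (N : ℕ) (s : ℂ) :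
    (((Real.sqrt (w.mult : ℝ) : ℝ) : ℂ)) ^ (-((w.mult : ℂ) * s)) *
      Complex.Gammaℝ ((w.mult : ℂ) * s + N) =
      (2 : ℂ)⁻¹ * ((((Real.sqrt (w.mult : ℝ) : ℝ) : ℂ)) ^ N *
        (Complex.Gammaℝ (s + ((N / 2 : ℝ) : ℂ)) * Complex.Gammaℝ (s + ((N / 2 + 1 : ℝ) : ℂ)))) := by
  have h := loc_gam hw (s + N / 2)
  have hc : w.IsComplex := InfinitePlace.not_isReal_iff_isComplex.mp hw
  have hs0 : (((Real.sqrt (w.mult : ℝ) : ℝ) : ℂ)) ≠ 0 := by
    exact_mod_cast (sqrt_mult_pos w).ne'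
  rw [hc.mult_eq_two] at h hs0 ⊢
  push_cast at h hs0 ⊢
  have e1 : (2 : ℂ) * (s + N / 2) = 2 * s + N := by ring
  rw [e1] at h
  have e2 : -(2 * s) = -(2 * s + N) + N := by ring
  rw [e2, Complex.cpow_add _ _ hs0, Complex.cpow_natCast]
  rw [add_zero] at h
  have e3 : s + (N / 2 + 1) = s + N / 2 + 1 := by ring
  rw [e3]
  linear_combination ((Real.sqrt 2 : ℂ) ^ N) * h

/-- the product of the gamma factors -/
noncomputable def Gp (n : (K →+* ℂ) → ℕ) (s : ℂ) : ℂ :=
  ∏ φ : K →+* ℂ, Complex.Gammaℝ (s + ex n φ)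

lemma gam_eq (n : (K →+* ℂ) → ℕ) (s : ℂ) :
    (∏ w : InfinitePlace K, (((Real.sqrt (w.mult : ℝ) : ℝ) : ℂ)) ^ (-((w.mult : ℂ) * s))) *
      ∏ w : InfinitePlace K, Complex.Gammaℝ ((w.mult : ℂ) * s + NW n w) =
      (c2 K : ℂ) * ((dn n : ℂ) * Gp n s) := by
  classical
  unfold Gp
  rw [prod_ex n (fun k => Complex.Gammaℝ (s + k)), ← Finset.prod_mul_distrib]
  unfold c2 dn
  push_cast
  rw [← Finset.prod_mul_distrib, ← Finset.prod_mul_distrib]
  refine Finset.prod_congr rfl fun w _ => ?_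
  by_cases hw : w.IsReal
  · rw [if_pos hw, hw.mult_eq_one]
    simp
  · have hc' : w.IsComplex := InfinitePlace.not_isReal_iff_isComplex.mp hw
    rw [if_neg hw, loc_gam' hw (NW n w) s, hc'.mult_eq_two]
    push_cast
    ring

/-- the total integral of an integer -/
lemma int_Fx (K : Type) [Field K] [NumberField K] : ∃ c : ℝ, 0 < c ∧
    ∀ (n : (K →+* ℂ) → ℕ) (s : ℂ), 0 < s.re → ∀ x : 𝓞 K, x ≠ 0 →
      Integrable (Fx (NW n) s (av x)) ∧
      ∫ p, Fx (NW n) s (av x) p = c * (((Ideal.absNorm (Ideal.span {x}) : ℕ) : ℂ) ^ (-s) *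
        ((dn n : ℂ) * Gp n s)) := by
  obtain ⟨c, hc, h⟩ := int_Fx0 K
  refine ⟨c * c2 K, mul_pos hc c2_pos, fun n s hs x hx => ?_⟩
  obtain ⟨h1, h2⟩ := h (NW n) s hs (av x) (av_pos hx)
  refine ⟨h1, ?_⟩
  rw [h2, prod_av hx, mul_right_comm, gam_eq n]
  push_cast
  ring

end Pool.Agent.N784.HC
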