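import Pool.Agent.N784.HC.NumN
import Pool.Agent.N784.AD.Main

/-! # The zeros (helper784; adapted from `AD.Zer`) -/

set_option autoImplicit false
set_option linter.unusedSectionVars false
set_option linter.unusedVariables false

open NumberField Filter Topology MeasureTheory

namespace Pool.Agent.N784.HC

open Pool.Agent.Y773 (LI cc)
open Pool.Agent.Y767 (Cls cK)
open Pool.Agent.Y773.IQ (LL LL_eq absNorm_pos')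
open Pool.Agent.N786 (kc)
open H370 (zset NN Ns Nd)
open H385 (Rw)
open Pool.Agent.W354 (LogC)
open Y767.WH (GoodH)
open ArithmeticFunction (vonMangoldt)
open Pool.Agent.N784.AD (pi1 Un LSG EO gw one_le_norm logC_of goodH_of)

section

variable {K : Type} [Field K] [NumberField K] {n : (K →+* ℂ) → ℕ}

/-- the large sieve in the form `LSG` -/
lemma lsg_of {C : ℝ} (hC : 1 ≤ C)
    (hls : ∀ (𝔮 : Ideal (𝓞 K)) (_ : 𝔮 ≠ ⊥) (htop : 𝔮 ≠ ⊤)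
    (Y : Finset (Ideal (𝓞 K) →*₀ ℂ)), (∀ ψ ∈ Y, ψ ∈ FamN n 𝔮) → ∀ (M : ℕ) (b : ℕ → ℂ) (ω u : ℝ),
    0 ≤ ω → 0 ≤ u → (∀ m : ℕ, m.Prime → ‖b m‖ * Real.log m ≤ ω * gw u m) →
    ∑ ψ ∈ Y, ‖∑ m ∈ Finset.Icc 1 M, b m * (if m.Prime ∧ Nat.Coprime m (Ideal.absNorm 𝔮) then
      cc ψ m * (ArithmeticFunction.vonMangoldt m : ℂ) else 0)‖ ^ 2 ≤
      Nat.card (Cls (pi1 htop)) * (∑ m ∈ Finset.Icc 1 M,
          ‖b m‖ ^ 2 * (ArithmeticFunction.vonMangoldt m * ‖cK K m‖) ^ 2 +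
        ω ^ 2 * ((u + 1) ^ 2 * (C * Un 𝔮 * Real.exp (-u) +
          C * Un 𝔮 / (Ideal.absNorm 𝔮 : ℝ) * Real.exp u))))
    {𝔮 : Ideal (𝓞 K)} (hbot : 𝔮 ≠ ⊥) (htop : 𝔮 ≠ ⊤) {D : ℝ} (S : Finset (Ideal (𝓞 K) →*₀ ℂ))
    (hS : ∀ ψ ∈ S, ψ ∈ FamN n 𝔮) (hD : (Nat.card (Cls (pi1 htop)) : ℝ) ≤ D * S.card) :
    LSG S (fun ψ m => cc ψ m * (ArithmeticFunction.vonMangoldt m : ℂ)) (cK K) (Ideal.absNorm 𝔮)
      (D * S.card) (C * Un 𝔮) (C * Un 𝔮 / (Ideal.absNorm 𝔮 : ℝ)) := by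
  intro M b ω u hω hu hb
  refine (hls 𝔮 hbot htop S hS M b ω u hω hu hb).trans ?_
  unfold EO
  refine mul_le_mul_of_nonneg_right hD ?_
  have hN : (1 : ℝ) ≤ (Ideal.absNorm 𝔮 : ℝ) := by exact_mod_cast absNorm_pos' hbot
  have h1 : 0 ≤ ∑ m ∈ Finset.Icc 1 M,
      ‖b m‖ ^ 2 * (ArithmeticFunction.vonMangoldt m * ‖cK K m‖) ^ 2 :=
    Finset.sum_nonneg fun m _ => by positivity
  positivity

lemma cdN_norm_le {𝔮 : Ideal (𝓞 K)} (hbot : 𝔮 ≠ ⊥) {ψ : Ideal (𝓞 K) →*₀ ℂ} (h : ψ ∈ FamN n 𝔮) :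
    (1 : ℝ) ≤ (Ideal.absNorm (cdN n 𝔮 ψ) : ℝ) ∧
      (Ideal.absNorm (cdN n 𝔮 ψ) : ℝ) ≤ (Ideal.absNorm 𝔮 : ℝ) := by
  obtain ⟨h1, h3, h4⟩ := cdN_spec h
  refine ⟨one_le_norm K h4.ne_bot, ?_⟩
  have h6 : Ideal.absNorm (cdN n 𝔮 ψ) ≤ Ideal.absNorm 𝔮 :=
    Nat.le_of_dvd (absNorm_pos' hbot)
      (Ideal.absNorm_dvd_absNorm_of_le (Ideal.dvd_iff_le.mp h1))
  exact_mod_cast h6

lemma avg_cond {𝔮 : Ideal (𝓞 K)} (hbot : 𝔮 ≠ ⊥) (S Sf : Finset (Ideal (𝓞 K) →*₀ ℂ))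
    (hSf : ∀ ψ, ψ ∈ Sf ↔ ψ ∈ FamN n 𝔮) (hS : ∀ ψ ∈ S, ψ ∈ FamN n 𝔮)
    (hcard : (Sf.card : ℝ) ≤ 2 * S.card) {δ2 d T L : ℝ} (hδ2 : 0 ≤ δ2)
    (hc : ∑ ψ ∈ Sf, (Real.log (Ideal.absNorm 𝔮) - Real.log (Ideal.absNorm (cdN n 𝔮 ψ))) ≤
      δ2 * Real.log (Ideal.absNorm 𝔮) * Sf.card) (hd : 1 ≤ d) (hT : 0 < T)
    (hlT : 0 ≤ Real.log T)
    (hL : L = Real.log (Ideal.absNorm 𝔮) / d + Real.log T) :
    (1 - 2 * δ2) * L * S.card ≤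
      ∑ ψ ∈ S, Real.log ((Ideal.absNorm (cdN n 𝔮 ψ) : ℝ) ^ (1 / d) * T) := by
  obtain ⟨Λ, hΛd⟩ : ∃ Λ : ℝ, Λ = Real.log (Ideal.absNorm 𝔮) := ⟨_, rfl⟩
  rw [← hΛd] at hc hL
  have hΛ0 : 0 ≤ Λ := by rw [hΛd]; exact Real.log_natCast_nonneg _
  have hd0 : 0 < d := by linarith
  have e1 : ∀ ψ ∈ S, Real.log ((Ideal.absNorm (cdN n 𝔮 ψ) : ℝ) ^ (1 / d) * T) =
      L - 1 / d * (Λ - Real.log (Ideal.absNorm (cdN n 𝔮 ψ))) := by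
    intro ψ hψ
    obtain ⟨h1, h2⟩ := cdN_norm_le hbot (hS ψ hψ)
    have h3 : (0 : ℝ) < (Ideal.absNorm (cdN n 𝔮 ψ) : ℝ) := by linarith
    rw [Real.log_mul (Real.rpow_pos_of_pos h3 _).ne' hT.ne', Real.log_rpow h3, hL]
    ring
  rw [Finset.sum_congr rfl e1, Finset.sum_sub_distrib, Finset.sum_const, nsmul_eq_mul,
    ← Finset.mul_sum]
  have e2 : ∑ ψ ∈ S, (Λ - Real.log (Ideal.absNorm (cdN n 𝔮 ψ))) ≤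
      ∑ ψ ∈ Sf, (Λ - Real.log (Ideal.absNorm (cdN n 𝔮 ψ))) := by
    refine Finset.sum_le_sum_of_subset_of_nonneg (fun ψ hψ => (hSf ψ).mpr (hS ψ hψ)) ?_
    intro ψ hψ _
    obtain ⟨h1, h2⟩ := cdN_norm_le hbot ((hSf ψ).mp hψ)
    have := Real.log_le_log (by linarith) h2
    rw [← hΛd] at this
    linarith
  have e3 : δ2 * Λ * Sf.card ≤ δ2 * Λ * (2 * S.card) :=
    mul_le_mul_of_nonneg_left hcard (by positivity)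
  have e4 : 1 / d * ∑ ψ ∈ S, (Λ - Real.log (Ideal.absNorm (cdN n 𝔮 ψ))) ≤
      1 / d * (δ2 * Λ * (2 * S.card)) :=
    mul_le_mul_of_nonneg_left ((e2.trans hc).trans e3) (by positivity)
  have e5 : 1 / d * (δ2 * Λ * (2 * S.card)) = (2 * δ2 * S.card) * (Λ / d) := by ring
  have e6 : (2 * δ2 * S.card) * (Λ / d) ≤ (2 * δ2 * S.card) * L := by
    refine mul_le_mul_of_nonneg_left ?_ (by positivity)
    linarith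
  nlinarith

/-- the properties of the L-functions -/
lemma goodLL {A : ℝ} (hgood : ∀ (𝔣 : Ideal (𝓞 K)) (ψ : Ideal (𝓞 K) →*₀ ℂ), 𝔣 ≠ ⊤ →
    IsHecke K 𝔣 n ψ → ∃ F : ℂ → ℂ, Differentiable ℂ F ∧
      (∀ s : ℂ, 1 < s.re → F s = LI ψ s) ∧
    W388.LV.GoodG (Module.finrank ℚ K) A ((Ideal.absNorm 𝔣 : ℝ) ^ (1 / (Module.finrank ℚ K : ℝ)))
      F (fun m => cc ψ m * (ArithmeticFunction.vonMangoldt m : ℂ)))
    {𝔮 : Ideal (𝓞 K)} (hbot : 𝔮 ≠ ⊥) {ψ : Ideal (𝓞 K) →*₀ ℂ} (h : ψ ∈ FamN n 𝔮) :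
    LogC (fun t => Real.log ((Ideal.absNorm (cdN n 𝔮 ψ) : ℝ) ^ (1 / (Module.finrank ℚ K : ℝ)) * t)) ∧
    GoodH (Module.finrank ℚ K) A
      (fun t => Real.log ((Ideal.absNorm (cdN n 𝔮 ψ) : ℝ) ^ (1 / (Module.finrank ℚ K : ℝ)) * t))
      (LL K ψ) (fun m => cc ψ m * (ArithmeticFunction.vonMangoldt m : ℂ)) := by
  obtain ⟨h1, h3, h4⟩ := cdN_spec h
  obtain ⟨F, hF, hFL, hG⟩ := hgood _ ψ h3 h4
  have hQ : (1 : ℝ) ≤ (Ideal.absNorm (cdN n 𝔮 ψ) : ℝ) ^ (1 / (Module.finrank ℚ K : ℝ)) :=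
    Real.one_le_rpow (cdN_norm_le hbot h).1 (by positivity)
  refine ⟨logC_of hQ, ?_⟩
  rw [LL_eq K hF hFL]
  exact goodH_of hQ hG

lemma lc_bounds {𝔮 : Ideal (𝓞 K)} (hbot : 𝔮 ≠ ⊥) {ψ : Ideal (𝓞 K) →*₀ ℂ} (h : ψ ∈ FamN n 𝔮)
    {d T L : ℝ} (hd : 1 ≤ d) (hT : 1 ≤ T)
    (hL : L = Real.log (Ideal.absNorm 𝔮) / d + Real.log T) :
    0 ≤ Real.log ((Ideal.absNorm (cdN n 𝔮 ψ) : ℝ) ^ (1 / d) * T) ∧
      Real.log ((Ideal.absNorm (cdN n 𝔮 ψ) : ℝ) ^ (1 / d) * T) ≤ L := by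
  obtain ⟨h1, h2⟩ := cdN_norm_le hbot h
  have h3 : (0 : ℝ) < (Ideal.absNorm (cdN n 𝔮 ψ) : ℝ) := by linarith
  have hT0 : 0 < T := by linarith
  have hd0 : 0 < d := by linarith
  rw [Real.log_mul (Real.rpow_pos_of_pos h3 _).ne' hT0.ne', Real.log_rpow h3, hL]
  have h4 := Real.log_nonneg h1
  have h5 := Real.log_nonneg hT
  have h6 := Real.log_le_log h3 h2
  constructor
  · positivity
  · have : 1 / d * Real.log (Ideal.absNorm (cdN n 𝔮 ψ)) ≤ 1 / d * Real.log (Ideal.absNorm 𝔮) :=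
      mul_le_mul_of_nonneg_left h6 (by positivity)
    have e : Real.log (Ideal.absNorm 𝔮) / d = 1 / d * Real.log (Ideal.absNorm 𝔮) := by ring
    rw [e]
    linarith

end

end Pool.Agent.N784.HC
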